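import Pool.Agent.H266_hanf.Spec



/-! Lemma job of MP_6f75b7_lc, proved by helper218. -/

namespace Pool.Agent.H266_hanf



/-- the rows of index `< k` of `a`. -/
def truncRows {F : Type*} [Field F] {m : ℕ} (a : Matrix (Fin m) (Fin m) F) (k : ℕ) :
    Matrix (Fin m) (Fin m) F :=
  fun i j => if (i : ℕ) < k then a i j else 0

/-- the product of the signs `E (a^(i), a^(i+1))`, `i < k`. -/
def chainSign {F : Type*} [Field F] {m : ℕ}
    (E : Matrix (Fin m) (Fin m) F → Matrix (Fin m) (Fin m) F → Prop)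
    (a : Matrix (Fin m) (Fin m) F) : ℕ → Prop
  | 0 => True
  | (k + 1) => (chainSign E a k ↔ E (truncRows a k) (truncRows a (k + 1)))

lemma R1_row {F : Type*} [Field F] {m : ℕ} (x : Matrix (Fin m) (Fin m) F) (l : ℕ)
    (h : ∀ (i : Fin m) j, (i : ℕ) ≠ l → x i j = 0) : R1 x := by
  refine ⟨fun i => if (i : ℕ) = l then 1 else 0, fun j => if h : l < m then x ⟨l, h⟩ j else 0, ?_⟩
  ext i j
  rw [Matrix.vecMulVec_apply]
  by_cases hi : (i : ℕ) = l
  · have hl : l < m := hi ▸ i.2
    have : i = ⟨l, hl⟩ := Fin.ext hi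
    simp [hi, hl, ← this]
  · simp [hi, h i j hi]

lemma sign_aux1 (A B D X D' Y' Y Ds : Prop) (ih : (A ↔ B) ↔ D)
    (hq : X ↔ (D' ↔ (Y' ↔ Ds))) (h1 : Y' ↔ Y) (h2 : D ↔ Ds) :
    ((A ↔ X) ↔ (B ↔ Y)) ↔ D' := by
  rw [h1, ← h2, ← ih] at hq
  rw [hq]
  by_cases A <;> by_cases B <;> by_cases Y <;> by_cases D' <;> simp_all

lemma sign_aux2 (P Q Q' T T1 T2 Qs : Prop) (ih : P ↔ (T ↔ T1))
    (ht : P ↔ (Q ↔ Q')) (hsy : Q' ↔ Qs) (hst : Q ↔ (T1 ↔ T2)) :
    Qs ↔ (T ↔ T2) := by
  rw [hsy, hst] at ht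
  rw [ht] at ih
  by_cases T <;> by_cases T1 <;> by_cases T2 <;> by_cases Qs <;> simp_all

lemma chain_claim {F : Type*} [Field F] (m : ℕ)
    (E : Matrix (Fin m) (Fin m) F → Matrix (Fin m) (Fin m) F → Prop)
    (hrefl : ∀ a, E a a)
    (hsymm : ∀ a b, R1 (a - b) → (E a b ↔ E b a))
    (hquad : ∀ a b c d, R1 (a - b) → R1 (b - c) → R1 (c - d) → R1 (d - a) →
      (E a b ↔ (E b c ↔ (E c d ↔ E d a))))
    (a b : Matrix (Fin m) (Fin m) F) (l : ℕ) (h : ∀ (i : Fin m) j, (i : ℕ) ≠ l → a i j = b i j) (k : ℕ) :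
    (chainSign E a k ↔ chainSign E b k) ↔ E (truncRows a k) (truncRows b k) := by
  induction k with
  | zero =>
    have : truncRows a 0 = truncRows b 0 := by
      ext i j; simp [truncRows]
    rw [this]
    simp [chainSign, hrefl]
  | succ k ih =>
    have hab : ∀ k, R1 (truncRows a k - truncRows b k) := fun k => R1_row _ l (by
      intro i j hi
      simp [truncRows, h i j hi])
    have hba : ∀ k, R1 (truncRows b k - truncRows a k) := fun k => R1_row _ l (by
      intro i j hi
      simp [truncRows, h i j hi])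
    have hs : ∀ (a : Matrix (Fin m) (Fin m) F), R1 (truncRows a k - truncRows a (k + 1)) :=
      fun a => R1_row _ k (by
        intro i j hi
        simp only [truncRows, Matrix.sub_apply]
        by_cases h1 : (i : ℕ) < k
        · rw [if_pos h1, if_pos (by omega), sub_self]
        · rw [if_neg h1, if_neg (by omega), sub_self])
    have hs' : ∀ (a : Matrix (Fin m) (Fin m) F), R1 (truncRows a (k + 1) - truncRows a k) :=
      fun a => R1_row _ k (by
        intro i j hi
        simp only [truncRows, Matrix.sub_apply]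
        by_cases h1 : (i : ℕ) < k
        · rw [if_pos h1, if_pos (by omega), sub_self]
        · rw [if_neg h1, if_neg (by omega), sub_self])
    have hq := hquad (truncRows a k) (truncRows a (k + 1)) (truncRows b (k + 1)) (truncRows b k)
      (hs a) (hab _) (hs' b) (hba _)
    have h1 := hsymm _ _ (hs' b)
    have h2 := hsymm _ _ (hba k)
    simp only [chainSign]
    exact sign_aux1 _ _ _ _ _ _ _ _ ih hq h1 h2.symm

theorem coboundary {F : Type*} [Field F] (m : ℕ)
    (E : Matrix (Fin m) (Fin m) F → Matrix (Fin m) (Fin m) F → Prop)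
    (hrefl : ∀ a, E a a)
    (hsymm : ∀ a b, R1 (a - b) → (E a b ↔ E b a))
    (htri : ∀ a b c, R1 (a - b) → R1 (b - c) → R1 (c - a) → (E a b ↔ (E b c ↔ E c a)))
    (hquad : ∀ a b c d, R1 (a - b) → R1 (b - c) → R1 (c - d) → R1 (d - a) →
      (E a b ↔ (E b c ↔ (E c d ↔ E d a)))) :
    ∃ T : Matrix (Fin m) (Fin m) F → Prop, ∀ a b, R1 (a - b) → (E a b ↔ (T a ↔ T b)) := by
  have htr : ∀ a : Matrix (Fin m) (Fin m) F, truncRows a m = a := by
    intro a; ext i j; simp [truncRows]
  refine ⟨fun a => chainSign E a m, fun a b hab => ?_⟩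
  obtain ⟨u, v, huv⟩ := hab
  -- the path from `a` to `b`
  set c : ℕ → Matrix (Fin m) (Fin m) F :=
    fun k => a - Matrix.vecMulVec (fun i : Fin m => if (i : ℕ) < k then u i else 0) v with hc
  have hc0 : c 0 = a := by
    ext i j; simp [hc, Matrix.vecMulVec_apply]
  have hcm : c m = b := by
    have : a - b = Matrix.vecMulVec u v := huv
    have h2 : b = a - Matrix.vecMulVec u v := by rw [← this]; abel
    rw [h2]
    ext i j; simp [hc, Matrix.vecMulVec_apply]
  have hstep : ∀ k, E (c k) (c (k + 1)) ↔ (chainSign E (c k) m ↔ chainSign E (c (k + 1)) m) := by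
    intro k
    have := chain_claim m E hrefl hsymm hquad (c k) (c (k + 1)) k (by
      intro i j hi
      simp only [hc, Matrix.sub_apply, Matrix.vecMulVec_apply]
      by_cases h1 : (i : ℕ) < k
      · rw [if_pos h1, if_pos (by omega)]
      · rw [if_neg h1, if_neg (by omega)]) m
    rw [htr, htr] at this
    exact this.symm
  have hR0 : ∀ k, R1 (a - c k) := by
    intro k
    refine ⟨fun i => if (i : ℕ) < k then u i else 0, v, ?_⟩
    simp [hc]
  have hR0' : ∀ k, R1 (c k - a) := by
    intro k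
    refine ⟨fun i => -(if (i : ℕ) < k then u i else 0), v, ?_⟩
    ext i j
    simp [hc, Matrix.vecMulVec_apply]
  have hR1 : ∀ k, R1 (c k - c (k + 1)) := by
    intro k
    refine R1_row _ k (fun i j hi => ?_)
    simp only [hc, Matrix.sub_apply, Matrix.vecMulVec_apply]
    by_cases h1 : (i : ℕ) < k
    · rw [if_pos h1, if_pos (by omega), sub_self]
    · rw [if_neg h1, if_neg (by omega), sub_self]
  have hind : ∀ k, E a (c k) ↔ (chainSign E a m ↔ chainSign E (c k) m) := by
    intro k
    induction k with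
    | zero => rw [hc0]; simp [hrefl]
    | succ k ih =>
      have ht := htri a (c k) (c (k + 1)) (hR0 k) (hR1 k) (hR0' (k + 1))
      have hsy := hsymm _ _ (hR0' (k + 1))
      have hst := hstep k
      exact sign_aux2 _ _ _ _ _ _ _ ih ht hsy hst
  have := hind m
  rw [hcm] at this
  exact this

end Pool.Agent.H266_hanf
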