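import Pool.Agent.H266_hanf.Points

/-! The concrete coloured graphs. -/

namespace Pool.Agent.H266_hanf

/-- The vertices over the names `x`. -/
inductive Vtx (M : ℕ) : Type
  | pt (x : Set (Fin M)) : Vtx M
  | lift (x : Set (Fin M)) (b : Bool) : Vtx M
  | num (x : Set (Fin M)) (i : Fin M) : Vtx M
  | num' (x : Set (Fin M)) (i : Fin M) : Vtx M
  | nam (x : Set (Fin M)) (α β : Set (Fin M)) : Vtx M
  | rel (x : Set (Fin M)) (R : Set (Fin M) → Set (Fin M) → Prop) : Vtx M

namespace Vtx

variable {M : ℕ}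

/-- the name over which a vertex lies -/
def base : Vtx M → Set (Fin M)
  | pt x => x
  | lift x _ => x
  | num x _ => x
  | num' x _ => x
  | nam x _ _ => x
  | rel x _ => x

/-- the sort of a vertex -/
def sort : Vtx M → Fin 8
  | pt _ => 0
  | lift _ _ => 1
  | num _ _ => 2
  | num' _ _ => 3
  | nam _ _ _ => 4
  | rel _ _ => 5

/-- one direction of the edges -/
def E0 (Adj e : Set (Fin M) → Set (Fin M) → Prop) : Vtx M → Vtx M → Prop
  | pt x, pt y => Adj x y
  | lift x _, pt y => x = y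
  | lift x b, lift y c => Adj x y ∧ (e x y ↔ b = c)
  | num x _, pt y => x = y
  | num x i, num y j => Adj x y ∧ i = j
  | num x i, num' y j => x = y ∧ i ≤ j
  | num' x _, pt y => x = y
  | nam x _ _, pt y => x = y
  | nam x α _, num y i => x = y ∧ i ∈ α
  | nam x _ β, num' y i => x = y ∧ i ∈ β
  | rel x _, pt y => x = y
  | rel x R, nam y α β => x = y ∧ R α β
  | _, _ => False

instance : Finite (Vtx M) := by
  let f : Vtx M → (Set (Fin M)) ⊕ (Set (Fin M) × Bool) ⊕ (Set (Fin M) × Fin M) ⊕ (Set (Fin M) × Fin M) ⊕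
      (Set (Fin M) × Set (Fin M) × Set (Fin M)) ⊕ (Set (Fin M) × (Set (Fin M) → Set (Fin M) → Prop)) :=
    fun v => match v with
    | pt x => Sum.inl x
    | lift x b => Sum.inr (Sum.inl (x, b))
    | num x i => Sum.inr (Sum.inr (Sum.inl (x, i)))
    | num' x i => Sum.inr (Sum.inr (Sum.inr (Sum.inl (x, i))))
    | nam x α β => Sum.inr (Sum.inr (Sum.inr (Sum.inr (Sum.inl (x, α, β)))))
    | rel x R => Sum.inr (Sum.inr (Sum.inr (Sum.inr (Sum.inr (x, R)))))
  refine Finite.of_injective f ?_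
  intro a b h
  cases a <;> cases b <;> simp_all [f]

end Vtx

/-- The coloured graph built from a graph `Adj` on names and a sign function `e` on its edges. -/
def conc (M : ℕ) (Adj e : Set (Fin M) → Set (Fin M) → Prop) : ColGraph 8 where
  V := Vtx M
  fin := inferInstance
  E := fun u v => Vtx.E0 Adj e u v ∨ Vtx.E0 Adj e v u
  C := fun i v => v.sort = i ∨ (i = 6 ∧ ∃ x k, v = Vtx.num x k ∧ k ∈ x) ∨ (i = 7 ∧ ∃ x, v = Vtx.rel x Adj)

/-- a system of lifts, one over each point, closed under adjacency -/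
def HasSection (G : ColGraph 8) : Prop :=
  ∃ l : G.V → G.V, (∀ p, Pt G p → Lift G p (l p)) ∧
    ∀ p, Pt G p → ∀ p', Pt G p' → G.E p p' → G.E (l p) (l p')

end Pool.Agent.H266_hanf
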