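import Pool.Agent.H266_hanf.Conc

/-! The concrete coloured graph satisfies the first-order conditions `Basic`, and its charts
(proved by the seat helper381 as a delegated job). -/

namespace Pool.Agent.H266_hanf

namespace B1

variable {M : ℕ} {Adj e : Set (Fin M) → Set (Fin M) → Prop}

/-! ### vertices of the sorts -/

theorem pt_iff (v : Vtx M) : Pt (conc M Adj e) v ↔ ∃ x, v = Vtx.pt x := by
  cases v <;> simp [Pt, conc, Vtx.sort]

theorem lift_iff (x : Set (Fin M)) (v : Vtx M) :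
    Lift (conc M Adj e) (Vtx.pt x : Vtx M) v ↔ ∃ b, v = Vtx.lift x b := by
  cases v <;> simp [Lift, conc, Vtx.sort, Vtx.E0]

theorem num_iff (x : Set (Fin M)) (v : Vtx M) :
    Num (conc M Adj e) (Vtx.pt x : Vtx M) v ↔ ∃ i, v = Vtx.num x i := by
  cases v <;> simp [Num, conc, Vtx.sort, Vtx.E0]

theorem num'_iff (x : Set (Fin M)) (v : Vtx M) :
    Num' (conc M Adj e) (Vtx.pt x : Vtx M) v ↔ ∃ i, v = Vtx.num' x i := by
  cases v <;> simp [Num', conc, Vtx.sort, Vtx.E0]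

theorem nam_iff (x : Set (Fin M)) (v : Vtx M) :
    Nam (conc M Adj e) (Vtx.pt x : Vtx M) v ↔ ∃ α β, v = Vtx.nam x α β := by
  cases v <;> simp [Nam, conc, Vtx.sort, Vtx.E0]

theorem rel_iff (x : Set (Fin M)) (v : Vtx M) :
    Rel (conc M Adj e) (Vtx.pt x : Vtx M) v ↔ ∃ R, v = Vtx.rel x R := by
  cases v <;> simp [Rel, conc, Vtx.sort, Vtx.E0]

/-! ### quantifiers -/

theorem all_pt {F : Vtx M → Prop} : (∀ v : Vtx M, Pt (conc M Adj e) v → F v) ↔ ∀ x, F (Vtx.pt x) := by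
  simp only [pt_iff]
  constructor
  · intro h x; exact h _ ⟨x, rfl⟩
  · rintro h _ ⟨x, rfl⟩; exact h x

theorem all_lift {F : Vtx M → Prop} {x : Set (Fin M)} :
    (∀ v : Vtx M, Lift (conc M Adj e) (Vtx.pt x : Vtx M) v → F v) ↔ ∀ b, F (Vtx.lift x b) := by
  simp only [lift_iff]
  constructor
  · intro h b; exact h _ ⟨b, rfl⟩
  · rintro h _ ⟨x, rfl⟩; exact h x

theorem all_num {F : Vtx M → Prop} {x : Set (Fin M)} :
    (∀ v : Vtx M, Num (conc M Adj e) (Vtx.pt x : Vtx M) v → F v) ↔ ∀ i, F (Vtx.num x i) := by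
  simp only [num_iff]
  constructor
  · intro h b; exact h _ ⟨b, rfl⟩
  · rintro h _ ⟨x, rfl⟩; exact h x

theorem all_num' {F : Vtx M → Prop} {x : Set (Fin M)} :
    (∀ v : Vtx M, Num' (conc M Adj e) (Vtx.pt x : Vtx M) v → F v) ↔ ∀ i, F (Vtx.num' x i) := by
  simp only [num'_iff]
  constructor
  · intro h b; exact h _ ⟨b, rfl⟩
  · rintro h _ ⟨x, rfl⟩; exact h x

theorem all_nam {F : Vtx M → Prop} {x : Set (Fin M)} :
    (∀ v : Vtx M, Nam (conc M Adj e) (Vtx.pt x : Vtx M) v → F v) ↔ ∀ α β, F (Vtx.nam x α β) := by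
  simp only [nam_iff]
  constructor
  · intro h α β; exact h _ ⟨α, β, rfl⟩
  · rintro h _ ⟨α, β, rfl⟩; exact h α β

theorem all_rel {F : Vtx M → Prop} {x : Set (Fin M)} :
    (∀ v : Vtx M, Rel (conc M Adj e) (Vtx.pt x : Vtx M) v → F v) ↔ ∀ R, F (Vtx.rel x R) := by
  simp only [rel_iff]
  constructor
  · intro h b; exact h _ ⟨b, rfl⟩
  · rintro h _ ⟨x, rfl⟩; exact h x

theorem ex_pt {F : Vtx M → Prop} : (∃ v : Vtx M, Pt (conc M Adj e) v ∧ F v) ↔ ∃ x, F (Vtx.pt x) := by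
  simp only [pt_iff]
  constructor
  · rintro ⟨_, ⟨x, rfl⟩, h⟩; exact ⟨x, h⟩
  · rintro ⟨x, h⟩; exact ⟨_, ⟨x, rfl⟩, h⟩

theorem ex_lift {F : Vtx M → Prop} {x : Set (Fin M)} :
    (∃ v : Vtx M, Lift (conc M Adj e) (Vtx.pt x : Vtx M) v ∧ F v) ↔ ∃ b, F (Vtx.lift x b) := by
  simp only [lift_iff]
  constructor
  · rintro ⟨_, ⟨x, rfl⟩, h⟩; exact ⟨x, h⟩
  · rintro ⟨x, h⟩; exact ⟨_, ⟨x, rfl⟩, h⟩

theorem ex_num {F : Vtx M → Prop} {x : Set (Fin M)} :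
    (∃ v : Vtx M, Num (conc M Adj e) (Vtx.pt x : Vtx M) v ∧ F v) ↔ ∃ i, F (Vtx.num x i) := by
  simp only [num_iff]
  constructor
  · rintro ⟨_, ⟨x, rfl⟩, h⟩; exact ⟨x, h⟩
  · rintro ⟨x, h⟩; exact ⟨_, ⟨x, rfl⟩, h⟩

theorem ex_nam {F : Vtx M → Prop} {x : Set (Fin M)} :
    (∃ v : Vtx M, Nam (conc M Adj e) (Vtx.pt x : Vtx M) v ∧ F v) ↔ ∃ α β, F (Vtx.nam x α β) := by
  simp only [nam_iff]
  constructor
  · rintro ⟨_, ⟨α, β, rfl⟩, h⟩; exact ⟨α, β, h⟩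
  · rintro ⟨α, β, h⟩; exact ⟨_, ⟨α, β, rfl⟩, h⟩

theorem ex_rel {F : Vtx M → Prop} {x : Set (Fin M)} :
    (∃ v : Vtx M, Rel (conc M Adj e) (Vtx.pt x : Vtx M) v ∧ F v) ↔ ∃ R, F (Vtx.rel x R) := by
  simp only [rel_iff]
  constructor
  · rintro ⟨_, ⟨x, rfl⟩, h⟩; exact ⟨x, h⟩
  · rintro ⟨x, h⟩; exact ⟨_, ⟨x, rfl⟩, h⟩

/-! ### edges -/

theorem e_pp (hs : ∀ a b, Adj a b → Adj b a) (x y : Set (Fin M)) :
    (conc M Adj e).E (Vtx.pt x : Vtx M) (Vtx.pt y : Vtx M) ↔ Adj x y := by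
  simp only [conc, Vtx.E0]
  exact ⟨fun h => h.elim id (hs _ _), Or.inl⟩

theorem e_nn (hs : ∀ a b, Adj a b → Adj b a) (x y : Set (Fin M)) (i j : Fin M) :
    (conc M Adj e).E (Vtx.num x i : Vtx M) (Vtx.num y j : Vtx M) ↔ Adj x y ∧ i = j := by
  simp only [conc, Vtx.E0]
  exact ⟨fun h => h.elim id (fun h => ⟨hs _ _ h.1, h.2.symm⟩), Or.inl⟩

theorem e_nn' (x y : Set (Fin M)) (i j : Fin M) :
    (conc M Adj e).E (Vtx.num x i : Vtx M) (Vtx.num' y j : Vtx M) ↔ x = y ∧ i ≤ j := by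
  simp [conc, Vtx.E0]

theorem e_an (x y : Set (Fin M)) (α β : Set (Fin M)) (j : Fin M) :
    (conc M Adj e).E (Vtx.nam x α β : Vtx M) (Vtx.num y j : Vtx M) ↔ x = y ∧ j ∈ α := by
  simp [conc, Vtx.E0]

theorem e_an' (x y : Set (Fin M)) (α β : Set (Fin M)) (j : Fin M) :
    (conc M Adj e).E (Vtx.nam x α β : Vtx M) (Vtx.num' y j : Vtx M) ↔ x = y ∧ j ∈ β := by
  simp [conc, Vtx.E0]

theorem e_ra (x y : Set (Fin M)) (R : Set (Fin M) → Set (Fin M) → Prop) (α β : Set (Fin M)) :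
    (conc M Adj e).E (Vtx.rel x R : Vtx M) (Vtx.nam y α β : Vtx M) ↔ x = y ∧ R α β := by
  simp [conc, Vtx.E0]

theorem e_ll (hs : ∀ a b, Adj a b → Adj b a) (he : ∀ a b, Adj a b → (e a b ↔ e b a))
    (x y : Set (Fin M)) (b c : Bool) :
    (conc M Adj e).E (Vtx.lift x b : Vtx M) (Vtx.lift y c : Vtx M) ↔ Adj x y ∧ (e x y ↔ b = c) := by
  simp only [conc, Vtx.E0]
  refine ⟨fun h => h.elim id (fun h => ⟨hs _ _ h.1, ?_⟩), Or.inl⟩
  rw [← he _ _ h.1, h.2]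
  exact eq_comm

theorem e_symm (u v : Vtx M) (h : (conc M Adj e).E u v) : (conc M Adj e).E v u := Or.symm h

/-! ### colours -/

theorem one_iff (x : Set (Fin M)) (i : Fin M) :
    One (conc M Adj e) (Vtx.num x i : Vtx M) ↔ i ∈ x := by
  simp [One, conc, Vtx.sort]

theorem isMap_iff (x : Set (Fin M)) (R : Set (Fin M) → Set (Fin M) → Prop) :
    IsMap (conc M Adj e) (Vtx.rel x R : Vtx M) ↔ R = Adj := by
  simp [IsMap, conc, Vtx.sort]

/-! ### the defined predicates -/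

theorem le_iff (x : Set (Fin M)) (i j : Fin M) :
    Le (conc M Adj e) (Vtx.pt x : Vtx M) (Vtx.num x i : Vtx M) (Vtx.num x j : Vtx M) ↔ i ≤ j := by
  unfold Le
  refine (all_num' (Adj := Adj) (e := e) (x := x)
    (F := fun k => (conc M Adj e).E (Vtx.num x j : Vtx M) k →
      (conc M Adj e).E (Vtx.num x i : Vtx M) k)).trans ?_
  simp only [e_nn', true_and]
  exact ⟨fun h => h j le_rfl, fun h k hk => h.trans hk⟩

theorem tw_iff (x : Set (Fin M)) (i : Fin M) (v : Vtx M) :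
    Tw (conc M Adj e) (Vtx.pt x : Vtx M) (Vtx.num x i : Vtx M) v ↔ v = Vtx.num' x i := by
  unfold Tw
  rw [num'_iff]
  have key : ∀ k : Fin M, (∀ j, Num (conc M Adj e) (Vtx.pt x : Vtx M) j →
      (conc M Adj e).E j (Vtx.num' x k : Vtx M) →
      Le (conc M Adj e) (Vtx.pt x : Vtx M) j (Vtx.num x i : Vtx M)) ↔ k ≤ i := by
    intro k
    refine (all_num (Adj := Adj) (e := e) (x := x)
      (F := fun j => (conc M Adj e).E j (Vtx.num' x k : Vtx M) →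
      Le (conc M Adj e) (Vtx.pt x : Vtx M) j (Vtx.num x i : Vtx M))).trans ?_
    simp only [e_nn', true_and, le_iff]
    exact ⟨fun h => h k le_rfl, fun h j hj => hj.trans h⟩
  constructor
  · rintro ⟨⟨k, rfl⟩, h1, h2⟩
    rw [key] at h2
    rw [e_nn'] at h1
    rw [le_antisymm h1.2 h2]
  · rintro rfl
    exact ⟨⟨i, rfl⟩, (e_nn' _ _ _ _).2 ⟨rfl, le_rfl⟩, (key i).2 le_rfl⟩

theorem mem2_iff (x : Set (Fin M)) (α β : Set (Fin M)) (i : Fin M) :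
    Mem2 (conc M Adj e) (Vtx.pt x : Vtx M) (Vtx.nam x α β : Vtx M) (Vtx.num x i : Vtx M) ↔ i ∈ β := by
  unfold Mem2
  constructor
  · rintro ⟨k, hk, h⟩
    obtain rfl := (tw_iff x i k).1 hk
    exact ((e_an' _ _ _ _ _).1 h).2
  · intro h
    exact ⟨_, (tw_iff _ _ _).2 rfl, (e_an' _ _ _ _ _).2 ⟨rfl, h⟩⟩

theorem same1_iff' (x : Set (Fin M)) (α β γ δ : Set (Fin M)) :
    Same1 (conc M Adj e) (Vtx.pt x : Vtx M) (Vtx.nam x α β : Vtx M) (Vtx.nam x γ δ : Vtx M) ↔ α = γ := by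
  unfold Same1
  refine (all_num (Adj := Adj) (e := e) (x := x) (F := fun i =>
    ((conc M Adj e).E (Vtx.nam x α β : Vtx M) i ↔ (conc M Adj e).E (Vtx.nam x γ δ : Vtx M) i))).trans ?_
  simp only [e_an, true_and]
  exact Set.ext_iff.symm

theorem same21_iff' (x : Set (Fin M)) (α β γ δ : Set (Fin M)) :
    Same21 (conc M Adj e) (Vtx.pt x : Vtx M) (Vtx.nam x α β : Vtx M) (Vtx.nam x γ δ : Vtx M) ↔ β = γ := by
  unfold Same21
  refine (all_num (Adj := Adj) (e := e) (x := x) (F := fun i =>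
    (Mem2 (conc M Adj e) (Vtx.pt x : Vtx M) (Vtx.nam x α β : Vtx M) i ↔
      (conc M Adj e).E (Vtx.nam x γ δ : Vtx M) i))).trans ?_
  simp only [e_an, true_and, mem2_iff]
  exact Set.ext_iff.symm

theorem app_iff' (x : Set (Fin M)) (R : Set (Fin M) → Set (Fin M) → Prop) (α β γ δ : Set (Fin M)) :
    App (conc M Adj e) (Vtx.pt x : Vtx M) (Vtx.rel x R : Vtx M) (Vtx.nam x α β : Vtx M)
      (Vtx.nam x γ δ : Vtx M) ↔ R α γ := by
  unfold App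
  refine (ex_nam (Adj := Adj) (e := e) (x := x) (F := fun c =>
    (conc M Adj e).E (Vtx.rel x R : Vtx M) c ∧
      Same1 (conc M Adj e) (Vtx.pt x : Vtx M) c (Vtx.nam x α β : Vtx M) ∧
      Same21 (conc M Adj e) (Vtx.pt x : Vtx M) c (Vtx.nam x γ δ : Vtx M))).trans ?_
  simp only [e_ra, true_and, same1_iff', same21_iff']
  constructor
  · rintro ⟨_, _, h, rfl, rfl⟩; exact h
  · intro h; exact ⟨_, _, h, rfl, rfl⟩

theorem adjR_iff' (x : Set (Fin M)) (α β γ δ : Set (Fin M)) :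
    AdjR (conc M Adj e) (Vtx.pt x : Vtx M) (Vtx.nam x α β : Vtx M)
      (Vtx.nam x γ δ : Vtx M) ↔ Adj α γ := by
  unfold AdjR
  refine (ex_rel (Adj := Adj) (e := e) (x := x) (F := fun w =>
    IsMap (conc M Adj e) w ∧ App (conc M Adj e) (Vtx.pt x : Vtx M) w (Vtx.nam x α β : Vtx M)
      (Vtx.nam x γ δ : Vtx M))).trans ?_
  simp only [isMap_iff, app_iff']
  constructor
  · rintro ⟨_, rfl, h⟩; exact h
  · intro h; exact ⟨_, rfl, h⟩

theorem bit_iff (hs : ∀ a b, Adj a b → Adj b a) (x y : Set (Fin M)) (h : y = x ∨ Adj x y) (i : Fin M) :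
    Bit (conc M Adj e) (Vtx.pt x : Vtx M) (Vtx.pt y : Vtx M) (Vtx.num x i : Vtx M) ↔ i ∈ y := by
  unfold Bit
  refine (ex_num (Adj := Adj) (e := e) (x := y) (F := fun k =>
    (((Vtx.pt y : Vtx M) = Vtx.pt x ∧ k = Vtx.num x i) ∨ (Pt (conc M Adj e) (Vtx.pt y : Vtx M) ∧
      (conc M Adj e).E (Vtx.pt x : Vtx M) (Vtx.pt y : Vtx M) ∧
      (conc M Adj e).E (Vtx.num x i : Vtx M) k)) ∧ One (conc M Adj e) k)).trans ?_
  simp only [one_iff, e_nn hs, e_pp hs]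
  constructor
  · rintro ⟨k, ⟨h1, h2⟩ | ⟨-, -, -, h1⟩, h3⟩
    · have : k = i := by injection h2
      rwa [this] at h3
    · rwa [h1]
  · intro h2
    refine ⟨i, ?_, h2⟩
    rcases h with rfl | h
    · exact Or.inl ⟨rfl, rfl⟩
    · exact Or.inr ⟨(pt_iff _).2 ⟨_, rfl⟩, h, h, rfl⟩

theorem isName_iff (hs : ∀ a b, Adj a b → Adj b a) (x y : Set (Fin M)) (h : y = x ∨ Adj x y)
    (α β : Set (Fin M)) :
    IsName (conc M Adj e) (Vtx.pt x : Vtx M) (Vtx.pt y : Vtx M) (Vtx.nam x α β : Vtx M) ↔ α = y := by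
  unfold IsName
  refine (all_num (Adj := Adj) (e := e) (x := x) (F := fun i =>
    ((conc M Adj e).E (Vtx.nam x α β : Vtx M) i ↔
      Bit (conc M Adj e) (Vtx.pt x : Vtx M) (Vtx.pt y : Vtx M) i))).trans ?_
  simp only [e_an, true_and, bit_iff hs x y h]
  exact Set.ext_iff.symm

theorem root_iff (x : Set (Fin M)) :
    IsRoot (conc M Adj e) (Vtx.pt x : Vtx M) ↔ x = ∅ := by
  unfold IsRoot
  refine (all_num (Adj := Adj) (e := e) (x := x) (F := fun i => ¬ One (conc M Adj e) i)).trans ?_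
  simp only [one_iff]
  exact Set.eq_empty_iff_forall_notMem.symm

theorem locFull (x : Set (Fin M)) : LocFull (conc M Adj e) (Vtx.pt x : Vtx M) := by
  refine ⟨?_, ?_, ?_, ?_, ?_, ?_, ?_⟩
  · intro u hu v hv
    obtain ⟨i, rfl⟩ := (num_iff x u).1 hu
    obtain ⟨j, rfl⟩ := (num_iff x v).1 hv
    rw [le_iff, le_iff]
    exact le_total i j
  · intro u hu v hv
    obtain ⟨i, rfl⟩ := (num_iff x u).1 hu
    obtain ⟨j, rfl⟩ := (num_iff x v).1 hv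
    rw [le_iff, le_iff]
    intro h1 h2
    rw [le_antisymm h1 h2]
  · refine ⟨(Vtx.nam x ∅ ∅ : Vtx M), (nam_iff x _).2 ⟨_, _, rfl⟩, ?_⟩
    intro u hu
    obtain ⟨i, rfl⟩ := (num_iff x u).1 hu
    rw [e_an, mem2_iff]
    simp
  · intro a ha u hu
    obtain ⟨α, β, rfl⟩ := (nam_iff x a).1 ha
    obtain ⟨j, rfl⟩ := (num_iff x u).1 hu
    refine ⟨(Vtx.nam x (insert j α) β : Vtx M), (nam_iff x _).2 ⟨_, _, rfl⟩, ?_⟩
    intro v hv
    obtain ⟨i, rfl⟩ := (num_iff x v).1 hv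
    rw [e_an, e_an, mem2_iff, mem2_iff]
    have : ((Vtx.num x i : Vtx M) = Vtx.num x j) ↔ i = j := by simp
    refine ⟨?_, Iff.rfl⟩
    rw [Set.mem_insert_iff]
    constructor
    · rintro ⟨-, h | h⟩
      · exact Or.inr (this.2 h)
      · exact Or.inl ⟨rfl, h⟩
    · rintro (⟨-, h⟩ | h)
      · exact ⟨rfl, Or.inr h⟩
      · exact ⟨rfl, Or.inl (this.1 h)⟩
  · intro a ha u hu
    obtain ⟨α, β, rfl⟩ := (nam_iff x a).1 ha
    obtain ⟨j, rfl⟩ := (num_iff x u).1 hu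
    refine ⟨(Vtx.nam x α (insert j β) : Vtx M), (nam_iff x _).2 ⟨_, _, rfl⟩, ?_⟩
    intro v hv
    obtain ⟨i, rfl⟩ := (num_iff x v).1 hv
    rw [e_an, e_an, mem2_iff, mem2_iff]
    have : ((Vtx.num x i : Vtx M) = Vtx.num x j) ↔ i = j := by simp
    refine ⟨Iff.rfl, ?_⟩
    rw [Set.mem_insert_iff]
    constructor
    · rintro (h | h)
      · exact Or.inr (this.2 h)
      · exact Or.inl h
    · rintro (h | h)
      · exact Or.inr h
      · exact Or.inl (this.1 h)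
  · refine ⟨(Vtx.rel x (fun _ _ => False) : Vtx M), (rel_iff x _).2 ⟨_, rfl⟩, ?_⟩
    intro a ha
    obtain ⟨α, β, rfl⟩ := (nam_iff x a).1 ha
    rw [e_ra]
    exact fun h => h.2
  · intro w hw a ha
    obtain ⟨R, rfl⟩ := (rel_iff x w).1 hw
    obtain ⟨α, β, rfl⟩ := (nam_iff x a).1 ha
    refine ⟨(Vtx.rel x (fun γ δ => R γ δ ∨ (γ = α ∧ δ = β)) : Vtx M), (rel_iff x _).2 ⟨_, rfl⟩, ?_⟩
    intro c hc
    obtain ⟨γ, δ, rfl⟩ := (nam_iff x c).1 hc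
    rw [e_ra, e_ra]
    have : ((Vtx.nam x γ δ : Vtx M) = Vtx.nam x α β) ↔ (γ = α ∧ δ = β) := by simp
    constructor
    · rintro ⟨-, h | h⟩
      · exact Or.inl ⟨rfl, h⟩
      · exact Or.inr (this.2 h)
    · rintro (⟨-, h⟩ | h)
      · exact ⟨rfl, Or.inl h⟩
      · exact ⟨rfl, Or.inr (this.1 h)⟩

theorem cov (hs : ∀ a b, Adj a b → Adj b a) (x : Set (Fin M)) :
    Cov (conc M Adj e) (Vtx.pt x : Vtx M) := by
  refine ⟨?_, ?_, ?_⟩
  · intro a ha b hb h1 h2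
    obtain ⟨α, β, rfl⟩ := (nam_iff x a).1 ha
    obtain ⟨γ, δ, rfl⟩ := (nam_iff x b).1 hb
    rw [isName_iff hs x x (Or.inl rfl)] at h1
    subst h1
    rw [adjR_iff'] at h2
    exact ⟨(Vtx.pt γ : Vtx M), (pt_iff _).2 ⟨_, rfl⟩, (e_pp hs _ _).2 h2,
      (isName_iff hs _ _ (Or.inr h2) _ _).2 rfl⟩
  · intro p' hp' h1 p'' hp'' h2 h
    obtain ⟨y, rfl⟩ := (pt_iff p').1 hp'
    obtain ⟨z, rfl⟩ := (pt_iff p'').1 hp''
    rw [e_pp hs] at h1 h2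
    have : y = z := by
      ext i
      have := h (Vtx.num x i : Vtx M) ((num_iff x _).2 ⟨i, rfl⟩)
      rwa [bit_iff hs x y (Or.inr h1), bit_iff hs x z (Or.inr h2)] at this
    rw [this]
  · refine ⟨(Vtx.lift x true : Vtx M), (lift_iff x _).2 ⟨_, rfl⟩, (Vtx.lift x false : Vtx M),
      (lift_iff x _).2 ⟨_, rfl⟩, ?_, ?_⟩
    · intro h
      injection h with _ h
      exact Bool.noConfusion h
    · intro q hq
      obtain ⟨b, rfl⟩ := (lift_iff x q).1 hq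
      cases b
      · exact Or.inr rfl
      · exact Or.inl rfl

theorem trans (hs : ∀ a b, Adj a b → Adj b a) (x y : Set (Fin M)) (hxy : Adj x y) :
    Trans (conc M Adj e) (Vtx.pt x : Vtx M) (Vtx.pt y : Vtx M) := by
  refine ⟨?_, ?_, ?_, ?_⟩
  · intro u hu
    obtain ⟨i, rfl⟩ := (num_iff x u).1 hu
    exact ⟨(Vtx.num y i : Vtx M), (num_iff y _).2 ⟨_, rfl⟩, (e_nn hs _ _ _ _).2 ⟨hxy, rfl⟩⟩
  · intro i hi j hj i' hi' j' hj' h1 h2 h3
    obtain ⟨i, rfl⟩ := (num_iff x i).1 hi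
    obtain ⟨j, rfl⟩ := (num_iff x j).1 hj
    obtain ⟨i', rfl⟩ := (num_iff y i').1 hi'
    obtain ⟨j', rfl⟩ := (num_iff y j').1 hj'
    rw [e_nn hs] at h1 h2
    rw [le_iff] at h3 ⊢
    rw [← h1.2, ← h2.2]
    exact h3
  · intro a ha b hb a' ha' b' hb' h h1
    obtain ⟨α, β, rfl⟩ := (nam_iff x a).1 ha
    obtain ⟨γ, δ, rfl⟩ := (nam_iff x b).1 hb
    obtain ⟨α', β', rfl⟩ := (nam_iff y a').1 ha'
    obtain ⟨γ', δ', rfl⟩ := (nam_iff y b').1 hb'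
    have key : ∀ i, (i ∈ α ↔ i ∈ α') ∧ (i ∈ γ ↔ i ∈ γ') := by
      intro i
      have := h (Vtx.num x i : Vtx M) ((num_iff x _).2 ⟨_, rfl⟩) (Vtx.num y i : Vtx M)
        ((num_iff y _).2 ⟨_, rfl⟩) ((e_nn hs _ _ _ _).2 ⟨hxy, rfl⟩)
      rw [e_an, e_an, e_an, e_an] at this
      simpa using this
    rw [adjR_iff'] at h1 ⊢
    have h2 : α = α' := Set.ext fun i => (key i).1
    have h3 : γ = γ' := Set.ext fun i => (key i).2
    rw [← h2, ← h3]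
    exact h1
  · intro a ha b hb h1 h2
    obtain ⟨α, β, rfl⟩ := (nam_iff x a).1 ha
    obtain ⟨γ, δ, rfl⟩ := (nam_iff x b).1 hb
    rw [isName_iff hs x x (Or.inl rfl)] at h1
    rw [isName_iff hs x y (Or.inr hxy)] at h2
    rw [adjR_iff', h1, h2]
    exact hxy

theorem mtch (hs : ∀ a b, Adj a b → Adj b a) (he : ∀ a b, Adj a b → (e a b ↔ e b a))
    (x y : Set (Fin M)) (hxy : Adj x y) :
    Mtch (conc M Adj e) (Vtx.pt x : Vtx M) (Vtx.pt y : Vtx M) := by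
  refine ⟨?_, ?_⟩
  · intro q hq
    obtain ⟨b, rfl⟩ := (lift_iff x q).1 hq
    by_cases h : e x y
    · exact ⟨(Vtx.lift y b : Vtx M), (lift_iff y _).2 ⟨_, rfl⟩, (e_ll hs he _ _ _ _).2
        ⟨hxy, by simp [h]⟩⟩
    · exact ⟨(Vtx.lift y (!b) : Vtx M), (lift_iff y _).2 ⟨_, rfl⟩, (e_ll hs he _ _ _ _).2
        ⟨hxy, by simp [h]⟩⟩
  · intro q hq q' hq' q'' hq'' h1 h2
    obtain ⟨b, rfl⟩ := (lift_iff x q).1 hq
    obtain ⟨c, rfl⟩ := (lift_iff y q').1 hq'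
    obtain ⟨d, rfl⟩ := (lift_iff y q'').1 hq''
    rw [e_ll hs he] at h1 h2
    have : c = d := by
      have h := h1.2.symm.trans h2.2
      revert h
      cases b <;> cases c <;> cases d <;> simp
    rw [this]

end B1

open B1

theorem conc_basic (M : ℕ) (Adj e : Set (Fin M) → Set (Fin M) → Prop)
    (hs : ∀ a b, Adj a b → Adj b a) (hi : ∀ a, ¬ Adj a a) (he : Cocycle Adj e) :
    Basic (conc M Adj e) := by
  obtain ⟨he1, he2, he3⟩ := he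
  refine ⟨?_, ?_, ?_, ?_, ?_, ?_⟩
  · exact fun u v h => Or.symm h
  · intro p hp
    obtain ⟨x, rfl⟩ := (pt_iff p).1 hp
    exact ⟨locFull x, cov hs x⟩
  · intro p hp p' hp' h
    obtain ⟨x, rfl⟩ := (pt_iff p).1 hp
    obtain ⟨y, rfl⟩ := (pt_iff p').1 hp'
    rw [e_pp hs] at h
    exact ⟨trans hs x y h, mtch hs he1 x y h⟩
  · refine ⟨(Vtx.pt ∅ : Vtx M), (pt_iff _).2 ⟨_, rfl⟩, (root_iff _).2 rfl, ?_⟩
    intro p hp h
    obtain ⟨x, rfl⟩ := (pt_iff p).1 hp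
    rw [root_iff] at h
    rw [h]
  · intro p1 h1 p2 h2 p3 h3 e1 e2 e3 q1 l1 q2 l2 q3 l3 q4 l4 f1 f2 f3
    obtain ⟨x, rfl⟩ := (pt_iff p1).1 h1
    obtain ⟨y, rfl⟩ := (pt_iff p2).1 h2
    obtain ⟨z, rfl⟩ := (pt_iff p3).1 h3
    rw [e_pp hs] at e1 e2 e3
    obtain ⟨a, rfl⟩ := (lift_iff x q1).1 l1
    obtain ⟨b, rfl⟩ := (lift_iff y q2).1 l2
    obtain ⟨c, rfl⟩ := (lift_iff z q3).1 l3
    obtain ⟨d, rfl⟩ := (lift_iff x q4).1 l4
    rw [e_ll hs he1] at f1 f2 f3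
    have h := he2 x y z e1 e2 e3
    rw [f1.2, f2.2, f3.2] at h
    have : d = a := by
      revert h
      cases a <;> cases b <;> cases c <;> cases d <;> simp
    rw [this]
  · intro p1 h1 p2 h2 p3 h3 p4 h4 e1 e2 e3 e4 q1 l1 q2 l2 q3 l3 q4 l4 q5 l5 f1 f2 f3 f4
    obtain ⟨x, rfl⟩ := (pt_iff p1).1 h1
    obtain ⟨y, rfl⟩ := (pt_iff p2).1 h2
    obtain ⟨z, rfl⟩ := (pt_iff p3).1 h3
    obtain ⟨w, rfl⟩ := (pt_iff p4).1 h4
    rw [e_pp hs] at e1 e2 e3 e4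
    obtain ⟨a, rfl⟩ := (lift_iff x q1).1 l1
    obtain ⟨b, rfl⟩ := (lift_iff y q2).1 l2
    obtain ⟨c, rfl⟩ := (lift_iff z q3).1 l3
    obtain ⟨d, rfl⟩ := (lift_iff w q4).1 l4
    obtain ⟨f, rfl⟩ := (lift_iff x q5).1 l5
    rw [e_ll hs he1] at f1 f2 f3 f4
    have h := he3 x y z w e1 e2 e3 e4
    rw [f1.2, f2.2, f3.2, f4.2] at h
    have : f = a := by
      revert h
      cases a <;> cases b <;> cases c <;> cases d <;> cases f <;> simp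
    rw [this]

theorem conc_chart (M : ℕ) (Adj e : Set (Fin M) → Set (Fin M) → Prop)
    (hs : ∀ a b, Adj a b → Adj b a) (hi : ∀ a, ¬ Adj a a) (x : Set (Fin M)) :
    Chart (conc M Adj e) (Vtx.pt x : Vtx M) M (fun k => (Vtx.num x k : Vtx M)) := by
  refine ⟨fun k => (num_iff x _).2 ⟨k, rfl⟩, ?_, fun a b => le_iff x a b⟩
  intro v hv
  obtain ⟨k, rfl⟩ := (num_iff x v).1 hv
  exact ⟨k, rfl⟩

theorem conc_adjD (M : ℕ) (Adj e : Set (Fin M) → Set (Fin M) → Prop)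
    (hs : ∀ a b, Adj a b → Adj b a) (hi : ∀ a, ¬ Adj a a) (x : Set (Fin M)) (α β : Set (Fin M)) :
    adjD (conc M Adj e) (Vtx.pt x : Vtx M) (fun k => (Vtx.num x k : Vtx M)) α β ↔ Adj α β := by
  have h1 : ∀ α β : Set (Fin M), nm1 (conc M Adj e) (fun k => (Vtx.num x k : Vtx M))
      (Vtx.nam x α β : Vtx M) = α := by
    intro α β
    ext k
    show (conc M Adj e).E (Vtx.nam x α β : Vtx M) (Vtx.num x k : Vtx M) ↔ k ∈ α
    rw [e_an]
    exact ⟨fun h => h.2, fun h => ⟨rfl, h⟩⟩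
  have := adjR_iff (conc_chart M Adj e hs hi x) (a := (Vtx.nam x α ∅ : Vtx M))
    (b := (Vtx.nam x β ∅ : Vtx M))
  rw [adjR_iff', h1, h1] at this
  exact this.symm

end Pool.Agent.H266_hanf
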