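import Pool.Agent.H266_hanf.Spec

/-! The condition `Good` on a graph on the set of names, in the form in which it is coded. -/

namespace Pool.Agent.H266_hanf

def RhoS {M : ℕ} (Adj t : Set (Fin M) → Set (Fin M) → Prop) (a0 a : Set (Fin M))
    (R0 R : Set (Fin M) → Set (Fin M) → Prop) (i j : Fin M) : Prop :=
  ∃ b b', (b = a0 ∨ Adj a0 b) ∧ (b' = a ∨ Adj a b') ∧ t b b' ∧ (∃ c, R0 b c ∧ i ∈ c) ∧
    (∃ c, R b' c ∧ j ∈ c)

def CompS {M : ℕ} (Adj t : Set (Fin M) → Set (Fin M) → Prop) (a0 a : Set (Fin M)) : Prop :=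
  ∃ R0 R, ∀ i j, RhoS Adj t a0 a R0 R i j ↔ i ≤ j

def Good (M : ℕ) (Adj : Set (Fin M) → Set (Fin M) → Prop) : Prop :=
  (∀ a b, Adj a b → Adj b a) ∧
  (∀ R : Set (Fin M) → Prop, (∃ a, R a) → (∀ a b, R a → Adj a b → R b) → ∀ a, R a) ∧
  ∀ t, SLO t → ∃ a0, ∃ O : Set (Fin M) → Prop, Robust Adj O ∧ ∀ a, O a → CompS Adj t a0 a

/-- functional rulers give relational ones -/
theorem CompS_of_CompF {M : ℕ} (Adj t : Set (Fin M) → Set (Fin M) → Prop) (a0 a : Set (Fin M))
    (h : CompF M Adj t a0 a) : CompS Adj t a0 a := by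
  obtain ⟨r0, r, h0, h1, h2⟩ := h
  refine ⟨fun b c => c = {i | r0 i = b}, fun b c => c = {i | r i = b}, fun i j => ?_⟩
  constructor
  · rintro ⟨b, b', -, -, ht, ⟨c, rfl, hi⟩, ⟨c', rfl, hj⟩⟩
    simp only [Set.mem_ofPred_eq] at hi hj
    subst hi hj
    exact (h2 i j).1 ht
  · intro hij
    exact ⟨r0 i, r j, h0 i, h1 j, (h2 i j).2 hij, ⟨_, rfl, rfl⟩, ⟨_, rfl, rfl⟩⟩

/-- transport along a bijection -/
theorem good_of_equiv {M : ℕ} {X : Type} (f : X ≃ Set (Fin M)) (Adj : X → X → Prop)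
    (hs : ∀ a b, Adj a b → Adj b a)
    (hc : ∀ R : X → Prop, (∃ a, R a) → (∀ a b, R a → Adj a b → R b) → ∀ a, R a)
    (ht : ∀ t : X → X → Prop, SLO t → ∃ a0, ∃ O : X → Prop, Robust Adj O ∧
      ∀ a, O a → CompF M Adj t a0 a) :
    Good M (fun a b => Adj (f.symm a) (f.symm b)) := by
  refine ⟨fun a b h => hs _ _ h, ?_, ?_⟩
  · intro R hR hcl a
    have := hc (fun x => R (f x)) (by obtain ⟨a, ha⟩ := hR; exact ⟨f.symm a, by simpa using ha⟩)
      (fun x y hx hxy => hcl (f x) (f y) hx (by simpa using hxy)) (f.symm a)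
    simpa using this
  · intro t hto
    obtain ⟨a0, O, hO, hcomp⟩ := ht (fun x y => t (f x) (f y))
      ⟨fun a => hto.1 _, fun a b c => hto.2.1 _ _ _, fun a b => by
        rcases hto.2.2 (f a) (f b) with h | h | h
        · exact Or.inl h
        · exact Or.inr (Or.inl (f.injective h))
        · exact Or.inr (Or.inr h)⟩
    refine ⟨f a0, fun a => O (f.symm a), ?_, ?_⟩
    · intro e he htr
      obtain ⟨u, hu⟩ := hO (fun x y => e (f x) (f y))
        ⟨fun a b h => he.1 _ _ (by simpa using h),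
          fun a b c h1 h2 h3 => he.2.1 _ _ _ (by simpa using h1) (by simpa using h2) (by simpa using h3),
          fun a b c d h1 h2 h3 h4 => he.2.2 _ _ _ _ (by simpa using h1) (by simpa using h2)
            (by simpa using h3) (by simpa using h4)⟩
        (by
          obtain ⟨u, hu⟩ := htr
          exact ⟨fun x => u (f x), fun a b ha hb hab => hu _ _ (by simpa using ha) (by simpa using hb)
            (by simpa using hab)⟩)
      refine ⟨fun a => u (f.symm a), fun a b _ _ hab => ?_⟩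
      have := hu (f.symm a) (f.symm b) trivial trivial hab
      simpa using this
    · intro a ha
      obtain ⟨r0, r, h0, h1, h2⟩ := hcomp _ ha
      refine CompS_of_CompF _ _ _ _ ⟨fun i => f (r0 i), fun i => f (r i), fun i => ?_, fun i => ?_, h2⟩
      · rcases h0 i with h | h
        · exact Or.inl (by show f (r0 i) = f a0; rw [h])
        · exact Or.inr (by simpa using h)
      · rcases h1 i with h | h
        · exact Or.inl (by show f (r i) = a; rw [h]; simp)
        · exact Or.inr (by simpa using h)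

end Pool.Agent.H266_hanf
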