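import Pool.Agent.H266_hanf.Raw
import Pool.Agent.H266_hanf.Std

/-! Decoding the codes at one point. -/

namespace Pool.Agent.H266_hanf

/-- `e` enumerates the numbers at `p` in increasing order. -/
structure Chart (G : ColGraph 8) (p : G.V) (M : ℕ) (e : Fin M → G.V) : Prop where
  num : ∀ k, Num G p (e k)
  surj : ∀ i, Num G p i → ∃ k, e k = i
  le : ∀ a b, Le G p (e a) (e b) ↔ a ≤ b

variable {G : ColGraph 8} {p : G.V} {M : ℕ} {e : Fin M → G.V}

theorem Le.refl (i : G.V) : Le G p i i := fun _ _ h => h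

theorem Le.trans {i j k : G.V} (h1 : Le G p i j) (h2 : Le G p j k) : Le G p i k :=
  fun l hl h => h1 l hl (h2 l hl h)

theorem Chart.inj (hc : Chart G p M e) : Function.Injective e := by
  intro a b h
  apply le_antisymm
  · rw [← hc.le, h]; exact Le.refl _
  · rw [← hc.le, h]; exact Le.refl _

theorem exists_chart (h : LocFull G p) : ∃ (M : ℕ) (e : Fin M → G.V), Chart G p M e := by
  classical
  haveI := G.fin
  let T := {i : G.V // Num G p i}
  let o : LinearOrder T :=
    { le := fun a b => Le G p a.1 b.1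
      le_refl := fun a => Le.refl _
      le_trans := fun a b c h1 h2 => h1.trans h2
      le_antisymm := fun a b h1 h2 => Subtype.ext (h.2.1 a.1 a.2 b.1 b.2 h1 h2)
      le_total := fun a b => h.1 a.1 a.2 b.1 b.2
      toDecidableLE := Classical.decRel _ }
  letI := o
  haveI : Fintype T := Fintype.ofFinite T
  let f := Fintype.orderIsoFinOfCardEq T (rfl : Fintype.card T = Fintype.card T)
  refine ⟨Fintype.card T, fun k => (f k).1, ⟨fun k => (f k).2, fun i hi => ⟨f.symm ⟨i, hi⟩, by simp⟩, ?_⟩⟩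
  intro a b
  have := f.le_iff_le (x := a) (y := b)
  exact this

/-- the first coordinate of the pair coded by `a` -/
def nm1 (G : ColGraph 8) {M : ℕ} (e : Fin M → G.V) (a : G.V) : Set (Fin M) := {k | G.E a (e k)}
/-- the second coordinate of the pair coded by `a` -/
def nm2 (G : ColGraph 8) (p : G.V) {M : ℕ} (e : Fin M → G.V) (a : G.V) : Set (Fin M) :=
  {k | Mem2 G p a (e k)}
/-- the relation coded by `w` -/
def relD (G : ColGraph 8) (p : G.V) {M : ℕ} (e : Fin M → G.V) (w : G.V) (α β : Set (Fin M)) : Prop :=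
  ∃ c, Nam G p c ∧ G.E w c ∧ nm1 G e c = α ∧ nm2 G p e c = β
/-- the coded map -/
def adjD (G : ColGraph 8) (p : G.V) {M : ℕ} (e : Fin M → G.V) (α β : Set (Fin M)) : Prop :=
  ∃ w, Rel G p w ∧ IsMap G w ∧ relD G p e w α β

theorem mem_nm1 {a : G.V} {k : Fin M} : k ∈ nm1 G e a ↔ G.E a (e k) := Iff.rfl
theorem mem_nm2 {a : G.V} {k : Fin M} : k ∈ nm2 G p e a ↔ Mem2 G p a (e k) := Iff.rfl

theorem Chart.forall_num (hc : Chart G p M e) {F : G.V → Prop} :
    (∀ i, Num G p i → F i) ↔ ∀ k, F (e k) := by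
  constructor
  · intro h k; exact h _ (hc.num k)
  · intro h i hi; obtain ⟨k, rfl⟩ := hc.surj i hi; exact h k

theorem same1_iff (hc : Chart G p M e) {a b : G.V} : Same1 G p a b ↔ nm1 G e a = nm1 G e b := by
  unfold Same1
  rw [hc.forall_num, Set.ext_iff]
  rfl

theorem same21_iff (hc : Chart G p M e) {a b : G.V} : Same21 G p a b ↔ nm2 G p e a = nm1 G e b := by
  unfold Same21
  rw [hc.forall_num, Set.ext_iff]
  rfl

theorem app_iff (hc : Chart G p M e) {w a b : G.V} :
    App G p w a b ↔ relD G p e w (nm1 G e a) (nm1 G e b) := by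
  unfold App relD
  simp only [same1_iff hc, same21_iff hc]

theorem adjR_iff (hc : Chart G p M e) {a b : G.V} :
    AdjR G p a b ↔ adjD G p e (nm1 G e a) (nm1 G e b) := by
  unfold AdjR adjD
  simp only [app_iff hc]

theorem markC_iff (hc : Chart G p M e) {R b : G.V} {k : Fin M} :
    MarkC G p R b (e k) ↔ ∃ c, relD G p e R (nm1 G e b) c ∧ k ∈ c := by
  unfold MarkC relD
  simp only [same1_iff hc]
  constructor
  · rintro ⟨c, h1, h2, h3, h4⟩
    exact ⟨nm2 G p e c, ⟨c, h1, h2, h3, rfl⟩, h4⟩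
  · rintro ⟨β, ⟨c, h1, h2, h3, rfl⟩, h4⟩
    exact ⟨c, h1, h2, h3, h4⟩

theorem surjN (hf : LocFull G p) (hc : Chart G p M e) (α β : Set (Fin M)) :
    ∃ a, Nam G p a ∧ nm1 G e a = α ∧ nm2 G p e a = β := by
  classical
  obtain ⟨-, -, h0, h1, h2, -, -⟩ := hf
  have key1 : ∀ s : Finset (Fin M), ∃ a, Nam G p a ∧ nm1 G e a = (s : Set (Fin M)) ∧ nm2 G p e a = ∅ := by
    intro s
    induction s using Finset.induction_on with
    | empty =>
      obtain ⟨a, ha, h⟩ := h0
      refine ⟨a, ha, ?_, ?_⟩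
      · ext k; simpa [mem_nm1] using (h _ (hc.num k)).1
      · ext k; simpa [mem_nm2] using (h _ (hc.num k)).2
    | insert j s _ ih =>
      obtain ⟨a, ha, ha1, ha2⟩ := ih
      obtain ⟨a', ha', h⟩ := h1 a ha (e j) (hc.num j)
      refine ⟨a', ha', ?_, ?_⟩
      · ext k
        rw [mem_nm1, (h _ (hc.num k)).1, ← mem_nm1, ha1, hc.inj.eq_iff]
        simp [or_comm]
      · ext k
        rw [mem_nm2, (h _ (hc.num k)).2, ← mem_nm2, ha2]
  have key2 : ∀ (s t : Finset (Fin M)), ∃ a, Nam G p a ∧ nm1 G e a = (s : Set (Fin M)) ∧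
      nm2 G p e a = (t : Set (Fin M)) := by
    intro s t
    induction t using Finset.induction_on with
    | empty => simpa using key1 s
    | insert j t _ ih =>
      obtain ⟨a, ha, ha1, ha2⟩ := ih
      obtain ⟨a', ha', h⟩ := h2 a ha (e j) (hc.num j)
      refine ⟨a', ha', ?_, ?_⟩
      · ext k
        rw [mem_nm1, (h _ (hc.num k)).1, ← mem_nm1, ha1]
      · ext k
        rw [mem_nm2, (h _ (hc.num k)).2, ← mem_nm2, ha2, hc.inj.eq_iff]
        simp [or_comm]
  have := key2 (Set.toFinset α) (Set.toFinset β)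
  simpa using this

theorem surjR (hf : LocFull G p) (hc : Chart G p M e) (R : Set (Fin M) → Set (Fin M) → Prop) :
    ∃ w, Rel G p w ∧ ∀ α β, relD G p e w α β ↔ R α β := by
  classical
  haveI := G.fin
  haveI : Fintype G.V := Fintype.ofFinite _
  have hf' := hf
  obtain ⟨-, -, -, -, -, h0, h1⟩ := hf
  have key : ∀ s : Finset G.V, (∀ c ∈ s, Nam G p c) → ∃ w, Rel G p w ∧ ∀ c, Nam G p c → (G.E w c ↔ c ∈ s) := by
    intro s
    induction s using Finset.induction_on with
    | empty =>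
      intro _
      obtain ⟨w, hw, h⟩ := h0
      exact ⟨w, hw, fun c hc => by simpa using h c hc⟩
    | insert a s _ ih =>
      intro hs
      obtain ⟨w, hw, h⟩ := ih (fun c hc => hs c (Finset.mem_insert_of_mem hc))
      obtain ⟨w', hw', h'⟩ := h1 w hw a (hs a (Finset.mem_insert_self _ _))
      refine ⟨w', hw', fun c hc => ?_⟩
      rw [h' c hc, h c hc, Finset.mem_insert]
      tauto
  obtain ⟨w, hw, h⟩ := key (Finset.univ.filter (fun c => Nam G p c ∧ R (nm1 G e c) (nm2 G p e c)))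
    (fun c hc => (Finset.mem_filter.1 hc).2.1)
  refine ⟨w, hw, fun α β => ?_⟩
  constructor
  · rintro ⟨c, hcN, hwc, rfl, rfl⟩
    have := (h c hcN).1 hwc
    simpa using ((Finset.mem_filter.1 this).2.2)
  · intro hR
    obtain ⟨a, ha, rfl, rfl⟩ := surjN hf' hc α β
    exact ⟨a, ha, (h a ha).2 (by simp [ha, hR]), rfl, rfl⟩

theorem cocRaw_iff (hf : LocFull G p) (hc : Chart G p M e) {w : G.V} :
    CocRaw G p w ↔ Cocycle (adjD G p e) (relD G p e w) := by
  unfold CocRaw Cocycle
  simp only [app_iff hc, adjR_iff hc]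
  refine and_congr ?_ (and_congr ?_ ?_)
  · constructor
    · intro h α β
      obtain ⟨a, ha, rfl, -⟩ := surjN hf hc α ∅
      obtain ⟨b, hb, rfl, -⟩ := surjN hf hc β ∅
      exact h a ha b hb
    · intro h a _ b _; exact h _ _
  · constructor
    · intro h α β γ
      obtain ⟨a, ha, rfl, -⟩ := surjN hf hc α ∅
      obtain ⟨b, hb, rfl, -⟩ := surjN hf hc β ∅
      obtain ⟨c, hc', rfl, -⟩ := surjN hf hc γ ∅
      exact h a ha b hb c hc'
    · intro h a _ b _ c _; exact h _ _ _
  · constructor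
    · intro h α β γ δ
      obtain ⟨a, ha, rfl, -⟩ := surjN hf hc α ∅
      obtain ⟨b, hb, rfl, -⟩ := surjN hf hc β ∅
      obtain ⟨c, hc', rfl, -⟩ := surjN hf hc γ ∅
      obtain ⟨d, hd, rfl, -⟩ := surjN hf hc δ ∅
      exact h a ha b hb c hc' d hd
    · intro h a _ b _ c _ d _; exact h _ _ _ _

theorem trivRaw_iff (hf : LocFull G p) (hc : Chart G p M e) {w o : G.V} :
    TrivRaw G p w o ↔ TrivOn (adjD G p e) (relD G p e w) (fun α => relD G p e o α α) := by
  unfold TrivRaw TrivOn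
  simp only [app_iff hc, adjR_iff hc]
  constructor
  · rintro ⟨u, -, h⟩
    refine ⟨fun α => relD G p e u α α, fun α β => ?_⟩
    obtain ⟨a, ha, rfl, -⟩ := surjN hf hc α ∅
    obtain ⟨b, hb, rfl, -⟩ := surjN hf hc β ∅
    exact h a ha b hb
  · rintro ⟨u, h⟩
    obtain ⟨w', hw', hR⟩ := surjR hf hc (fun α _ => u α)
    refine ⟨w', hw', fun a _ b _ => ?_⟩
    simp only [hR]
    exact h _ _

theorem trivRaw'_iff (hf : LocFull G p) (hc : Chart G p M e) {w : G.V} :
    TrivRaw' G p w ↔ TrivOn (adjD G p e) (relD G p e w) (fun _ => True) := by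
  unfold TrivRaw' TrivOn
  simp only [app_iff hc, adjR_iff hc]
  constructor
  · rintro ⟨u, -, h⟩
    refine ⟨fun α => relD G p e u α α, fun α β => ?_⟩
    obtain ⟨a, ha, rfl, -⟩ := surjN hf hc α ∅
    obtain ⟨b, hb, rfl, -⟩ := surjN hf hc β ∅
    exact fun _ _ => h a ha b hb
  · rintro ⟨u, h⟩
    obtain ⟨w', hw', hR⟩ := surjR hf hc (fun α _ => u α)
    refine ⟨w', hw', fun a _ b _ => ?_⟩
    simp only [hR]
    exact h _ _ trivial trivial

theorem robustRaw_iff (hf : LocFull G p) (hc : Chart G p M e) {o : G.V} :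
    RobustRaw G p o ↔ Robust (adjD G p e) (fun α => relD G p e o α α) := by
  unfold RobustRaw Robust
  simp only [cocRaw_iff hf hc, trivRaw_iff hf hc, trivRaw'_iff hf hc]
  constructor
  · intro h R
    obtain ⟨w, hw, hR⟩ := surjR hf hc R
    have : relD G p e w = R := by funext α β; exact propext (hR α β)
    rw [← this]
    exact h w hw
  · intro h w _; exact h _

theorem sloRaw_iff (hf : LocFull G p) (hc : Chart G p M e) {t : G.V} :
    SLORaw G p t ↔ SLO (relD G p e t) := by
  unfold SLORaw SLO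
  simp only [app_iff hc, same1_iff hc]
  refine and_congr ?_ (and_congr ?_ ?_)
  · constructor
    · intro h α
      obtain ⟨a, ha, rfl, -⟩ := surjN hf hc α ∅
      exact h a ha
    · intro h a _; exact h _
  · constructor
    · intro h α β γ
      obtain ⟨a, ha, rfl, -⟩ := surjN hf hc α ∅
      obtain ⟨b, hb, rfl, -⟩ := surjN hf hc β ∅
      obtain ⟨c, hc', rfl, -⟩ := surjN hf hc γ ∅
      exact h a ha b hb c hc'
    · intro h a _ b _ c _; exact h _ _ _
  · constructor
    · intro h α β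
      obtain ⟨a, ha, rfl, -⟩ := surjN hf hc α ∅
      obtain ⟨b, hb, rfl, -⟩ := surjN hf hc β ∅
      exact h a ha b hb
    · intro h a _ b _; exact h _ _

theorem compRaw_iff (hf : LocFull G p) (hc : Chart G p M e) {t a0 a : G.V} :
    CompRaw G p t a0 a ↔ CompS (adjD G p e) (relD G p e t) (nm1 G e a0) (nm1 G e a) := by
  have key : ∀ (R0 R : G.V) (k l : Fin M), RhoRaw G p t a0 a R0 R (e k) (e l) ↔
      RhoS (adjD G p e) (relD G p e t) (nm1 G e a0) (nm1 G e a) (relD G p e R0) (relD G p e R) k l := by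
    intro R0 R k l
    unfold RhoRaw RhoS
    simp only [app_iff hc, adjR_iff hc, same1_iff hc, markC_iff hc]
    constructor
    · rintro ⟨b, _, b', _, h⟩
      exact ⟨_, _, h⟩
    · rintro ⟨β, β', h⟩
      obtain ⟨b, hb, rfl, -⟩ := surjN hf hc β ∅
      obtain ⟨b', hb', rfl, -⟩ := surjN hf hc β' ∅
      exact ⟨b, hb, b', hb', h⟩
  unfold CompRaw CompS
  constructor
  · rintro ⟨R0, _, R, _, h⟩
    refine ⟨relD G p e R0, relD G p e R, fun i j => ?_⟩
    rw [← key, h _ (hc.num i) _ (hc.num j), hc.le]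
  · rintro ⟨R0, R, h⟩
    obtain ⟨w0, hw0, hR0⟩ := surjR hf hc R0
    obtain ⟨w, hw, hR⟩ := surjR hf hc R
    have e0 : relD G p e w0 = R0 := by funext α β; exact propext (hR0 α β)
    have e1 : relD G p e w = R := by funext α β; exact propext (hR α β)
    refine ⟨w0, hw0, w, hw, ?_⟩
    intro i hi j hj
    obtain ⟨k, rfl⟩ := hc.surj i hi
    obtain ⟨l, rfl⟩ := hc.surj j hj
    rw [key, e0, e1, h, hc.le]

theorem goodRaw_iff (hf : LocFull G p) (hc : Chart G p M e) :
    GoodRaw G p ↔ Good M (adjD G p e) := by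
  unfold GoodRaw Good
  refine and_congr ?_ (and_congr ?_ ?_)
  · simp only [adjR_iff hc]
    constructor
    · intro h α β
      obtain ⟨a, ha, rfl, -⟩ := surjN hf hc α ∅
      obtain ⟨b, hb, rfl, -⟩ := surjN hf hc β ∅
      exact h a ha b hb
    · intro h a _ b _; exact h _ _
  · simp only [adjR_iff hc, app_iff hc]
    constructor
    · intro h R hR hcl α
      obtain ⟨w, hw, hR'⟩ := surjR hf hc (fun α _ => R α)
      obtain ⟨a, ha, rfl, -⟩ := surjN hf hc α ∅
      have := h w hw ?_ ?_ a ha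
      · rwa [hR'] at this
      · obtain ⟨β, hβ⟩ := hR
        obtain ⟨b, hb, rfl, -⟩ := surjN hf hc β ∅
        exact ⟨b, hb, (hR' _ _).2 hβ⟩
      · intro b _ c _ hb hbc
        rw [hR'] at hb ⊢
        exact hcl _ _ hb hbc
    · intro h w _ h1 h2 a _
      refine h (fun α => relD G p e w α α) ?_ ?_ _
      · obtain ⟨b, _, hb⟩ := h1
        exact ⟨_, hb⟩
      · intro α β hα hαβ
        obtain ⟨b, hb, rfl, -⟩ := surjN hf hc α ∅
        obtain ⟨c, hc', rfl, -⟩ := surjN hf hc β ∅
        exact h2 b hb c hc' hα hαβ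
  · simp only [sloRaw_iff hf hc, robustRaw_iff hf hc, compRaw_iff hf hc, app_iff hc]
    constructor
    · intro h t ht
      obtain ⟨w, hw, hR⟩ := surjR hf hc t
      have e0 : relD G p e w = t := by funext α β; exact propext (hR α β)
      obtain ⟨a0, _, o, _, h1, h2⟩ := h w hw (by rw [e0]; exact ht)
      refine ⟨nm1 G e a0, fun α => relD G p e o α α, h1, fun α hα => ?_⟩
      obtain ⟨a, ha, rfl, -⟩ := surjN hf hc α ∅
      have := h2 a ha hα
      rwa [e0] at this
    · intro h t _ ht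
      obtain ⟨α0, O, h1, h2⟩ := h _ ht
      obtain ⟨a0, ha0, rfl, -⟩ := surjN hf hc α0 ∅
      obtain ⟨o, ho, hR⟩ := surjR hf hc (fun α _ => O α)
      refine ⟨a0, ha0, o, ho, ?_, ?_⟩
      · have : (fun α => relD G p e o α α) = O := by funext α; exact propext (hR α α)
        rw [this]; exact h1
      · intro a _ hoa
        rw [hR] at hoa
        exact h2 _ hoa

end Pool.Agent.H266_hanf
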