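import Mathlib

/-! Definitions for the statement: finite vertex-coloured graphs, ordered graphs, first-order sentences over
the vocabulary of ordered graphs, order-invariance, Hanf locality. -/

namespace Pool.Agent.H266_hanf

open FirstOrder

/-- A finite graph with `k` colours: a finite vertex set, a binary edge relation and `k` unary predicates. -/
structure ColGraph (k : ℕ) where
  /-- the vertices -/
  V : Type
  /-- the graph is finite -/
  fin : Finite V
  /-- the edge relation -/
  E : V → V → Prop
  /-- the colours -/
  C : Fin k → V → Prop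

/-- The relation symbols of the vocabulary of ordered graphs with `k` colours. -/
inductive OGRel (k : ℕ) : ℕ → Type
  | edge : OGRel k 2
  | less : OGRel k 2
  | colour (i : Fin k) : OGRel k 1

/-- The first-order vocabulary of ordered graphs with `k` colours (no function symbols). -/
def OGLang (k : ℕ) : Language := ⟨fun _ => Empty, OGRel k⟩

/-- The ordered graph `(G, r)` as a first-order structure. -/
def ordStr {k : ℕ} (G : ColGraph k) (r : G.V → G.V → Prop) : (OGLang k).Structure G.V where
  funMap := fun f => Empty.elim f
  RelMap := fun {n} R => match n, R with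
    | _, OGRel.edge => fun v => G.E (v 0) (v 1)
    | _, OGRel.less => fun v => r (v 0) (v 1)
    | _, OGRel.colour i => fun v => G.C i (v 0)

/-- `(G, r)` is a model of the sentence `φ`. -/
def Models {k : ℕ} (G : ColGraph k) (r : G.V → G.V → Prop) (φ : (OGLang k).Sentence) : Prop :=
  @Language.Sentence.Realize (OGLang k) G.V (ordStr G r) φ

/-- The sentence `φ` is order-invariant: on each finite graph its truth value is the same for all linear
orders of the vertices. -/
def OrderInvariant {k : ℕ} (φ : (OGLang k).Sentence) : Prop :=
  ∀ (G : ColGraph k) (o₁ o₂ : LinearOrder G.V), Models G o₁.lt φ ↔ Models G o₂.lt φ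

/-- The graph property defined by `φ`: `φ` holds for some linear order of the vertices (for all of them, if `φ`
is order-invariant). -/
def GraphProp {k : ℕ} (φ : (OGLang k).Sentence) (G : ColGraph k) : Prop :=
  ∃ o : LinearOrder G.V, Models G o.lt φ

/-- The Gaifman graph of a coloured graph. -/
def gaifman {k : ℕ} (G : ColGraph k) : SimpleGraph G.V := SimpleGraph.fromRel G.E

/-- The vertices at distance at most `d` from `v` in the Gaifman graph. -/
def nbhd {k : ℕ} (G : ColGraph k) (d : ℕ) (v : G.V) : Set G.V :=
  {u | ∃ p : (gaifman G).Walk v u, p.length ≤ d}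

/-- The induced substructures on the `d`-neighbourhoods of `v` in `G` and of `w` in `H` are isomorphic by an
isomorphism sending `v` to `w`. -/
def NbhdIso {k : ℕ} (G H : ColGraph k) (d : ℕ) (v : G.V) (w : H.V) : Prop :=
  ∃ f : nbhd G d v ≃ nbhd H d w,
    (∀ x : nbhd G d v, (x : G.V) = v → (f x : H.V) = w) ∧
    (∀ x y : nbhd G d v, G.E x y ↔ H.E (f x) (f y)) ∧
    (∀ (i : Fin k) (x : nbhd G d v), G.C i x ↔ H.C i (f x))

/-- There is a bijection of the vertices of `G` and `H` that preserves the isomorphism types of the pointed
`d`-neighbourhoods. -/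
def HanfEquiv {k : ℕ} (d : ℕ) (G H : ColGraph k) : Prop :=
  ∃ f : G.V ≃ H.V, ∀ v, NbhdIso G H d v (f v)

/-- A graph property is Hanf-local if for some radius `d` it is invariant under `HanfEquiv d`. -/
def HanfLocal {k : ℕ} (p : ColGraph k → Prop) : Prop :=
  ∃ d : ℕ, ∀ G H : ColGraph k, HanfEquiv d G H → (p G ↔ p H)

/-- The edge relation is symmetric and irreflexive. -/
def IsSimple {k : ℕ} (G : ColGraph k) : Prop :=
  (∀ x y, G.E x y → G.E y x) ∧ ∀ x, ¬ G.E x x

end Pool.Agent.H266_hanf
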