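import Pool.Agent.H266_hanf.Defs

/-! Closure properties of uniformly first-order definable relations on ordered coloured graphs. -/

namespace Pool.Agent.H266_hanf

open FirstOrder Language

/-- `R` is uniformly definable by a first-order formula. -/
def FO {k : ℕ} (n : ℕ) (R : (G : ColGraph k) → (G.V → G.V → Prop) → (Fin n → G.V) → Prop) : Prop :=
  ∃ φ : (OGLang k).BoundedFormula Empty n, ∀ (G : ColGraph k) (r : G.V → G.V → Prop) (v : Fin n → G.V),
    @BoundedFormula.Realize (OGLang k) G.V (ordStr G r) Empty n φ (Empty.elim) v ↔ R G r v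

namespace FO

variable {k n : ℕ}

theorem edge (i j : Fin n) : FO n (fun (G : ColGraph k) _ v => G.E (v i) (v j)) := by
  refine ⟨Relations.boundedFormula₂ (L := OGLang k) (OGRel.edge : (OGLang k).Relations 2)
    (Term.var (Sum.inr i)) (Term.var (Sum.inr j)), fun G r v => ?_⟩
  let _ := ordStr G r
  rw [BoundedFormula.realize_rel₂]
  rfl

theorem less (i j : Fin n) : FO n (fun (_ : ColGraph k) r v => r (v i) (v j)) := by
  refine ⟨Relations.boundedFormula₂ (L := OGLang k) (OGRel.less : (OGLang k).Relations 2)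
    (Term.var (Sum.inr i)) (Term.var (Sum.inr j)), fun G r v => ?_⟩
  let _ := ordStr G r
  rw [BoundedFormula.realize_rel₂]
  rfl

theorem colour (c : Fin k) (i : Fin n) : FO n (fun (G : ColGraph k) _ v => G.C c (v i)) := by
  refine ⟨Relations.boundedFormula₁ (L := OGLang k) (OGRel.colour c : (OGLang k).Relations 1)
    (Term.var (Sum.inr i)), fun G r v => ?_⟩
  let _ := ordStr G r
  rw [BoundedFormula.realize_rel₁]
  rfl

theorem eq (i j : Fin n) : FO n (fun (G : ColGraph k) _ v => v i = v j) := by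
  refine ⟨Term.bdEqual (Term.var (Sum.inr i)) (Term.var (Sum.inr j)), fun G r v => ?_⟩
  let _ := ordStr G r
  rw [BoundedFormula.realize_bdEqual]
  rfl

theorem imp {A B : (G : ColGraph k) → (G.V → G.V → Prop) → (Fin n → G.V) → Prop}
    (hA : FO n A) (hB : FO n B) : FO n (fun G r v => A G r v → B G r v) := by
  obtain ⟨φ, hφ⟩ := hA
  obtain ⟨ψ, hψ⟩ := hB
  refine ⟨φ.imp ψ, fun G r v => ?_⟩
  let _ := ordStr G r
  rw [BoundedFormula.realize_imp, hφ, hψ]

theorem fls : FO n (fun (G : ColGraph k) _ _ => False) := by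
  refine ⟨⊥, fun G r v => ?_⟩
  let _ := ordStr G r
  rw [BoundedFormula.realize_bot]

theorem tru : FO n (fun (G : ColGraph k) _ _ => True) := by
  refine ⟨⊤, fun G r v => ?_⟩
  let _ := ordStr G r
  rw [BoundedFormula.realize_top]

theorem not {A : (G : ColGraph k) → (G.V → G.V → Prop) → (Fin n → G.V) → Prop}
    (hA : FO n A) : FO n (fun G r v => ¬ A G r v) := by
  obtain ⟨φ, hφ⟩ := hA
  refine ⟨φ.not, fun G r v => ?_⟩
  let _ := ordStr G r
  rw [BoundedFormula.realize_not, hφ]

theorem and {A B : (G : ColGraph k) → (G.V → G.V → Prop) → (Fin n → G.V) → Prop}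
    (hA : FO n A) (hB : FO n B) : FO n (fun G r v => A G r v ∧ B G r v) := by
  obtain ⟨φ, hφ⟩ := hA
  obtain ⟨ψ, hψ⟩ := hB
  refine ⟨φ ⊓ ψ, fun G r v => ?_⟩
  let _ := ordStr G r
  rw [BoundedFormula.realize_inf, hφ, hψ]

theorem or {A B : (G : ColGraph k) → (G.V → G.V → Prop) → (Fin n → G.V) → Prop}
    (hA : FO n A) (hB : FO n B) : FO n (fun G r v => A G r v ∨ B G r v) := by
  obtain ⟨φ, hφ⟩ := hA
  obtain ⟨ψ, hψ⟩ := hB
  refine ⟨φ ⊔ ψ, fun G r v => ?_⟩
  let _ := ordStr G r
  rw [BoundedFormula.realize_sup, hφ, hψ]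

theorem iff {A B : (G : ColGraph k) → (G.V → G.V → Prop) → (Fin n → G.V) → Prop}
    (hA : FO n A) (hB : FO n B) : FO n (fun G r v => A G r v ↔ B G r v) := by
  obtain ⟨φ, hφ⟩ := hA
  obtain ⟨ψ, hψ⟩ := hB
  refine ⟨φ.iff ψ, fun G r v => ?_⟩
  let _ := ordStr G r
  rw [BoundedFormula.realize_iff, hφ, hψ]

theorem all {R : (G : ColGraph k) → (G.V → G.V → Prop) → (Fin n → G.V) → G.V → Prop}
    (h : FO (n + 1) (fun G r v => R G r (fun i => v i.castSucc) (v (Fin.last n)))) :
    FO n (fun G r v => ∀ x, R G r v x) := by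
  obtain ⟨φ, hφ⟩ := h
  refine ⟨φ.all, fun G r v => ?_⟩
  let _ := ordStr G r
  rw [BoundedFormula.realize_all]
  refine forall_congr' fun a => ?_
  rw [hφ]
  simp

theorem ex {R : (G : ColGraph k) → (G.V → G.V → Prop) → (Fin n → G.V) → G.V → Prop}
    (h : FO (n + 1) (fun G r v => R G r (fun i => v i.castSucc) (v (Fin.last n)))) :
    FO n (fun G r v => ∃ x, R G r v x) := by
  obtain ⟨φ, hφ⟩ := h
  refine ⟨φ.ex, fun G r v => ?_⟩
  let _ := ordStr G r
  rw [BoundedFormula.realize_ex]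
  refine exists_congr fun a => ?_
  rw [hφ]
  simp

/-- a definable relation with no free variables gives a sentence -/
theorem sentence {R : (G : ColGraph k) → (G.V → G.V → Prop) → Prop} (h : FO 0 (fun G r _ => R G r)) :
    ∃ φ : (OGLang k).Sentence, ∀ (G : ColGraph k) (r : G.V → G.V → Prop), Models G r φ ↔ R G r := by
  obtain ⟨φ, hφ⟩ := h
  refine ⟨φ, fun G r => ?_⟩
  refine Iff.trans ?_ (hφ G r default)
  unfold Models Sentence.Realize Formula.Realize
  have : (default : Empty → G.V) = Empty.elim := Subsingleton.elim _ _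
  rw [this]

end FO

end Pool.Agent.H266_hanf
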