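import Pool.Agent.H266_hanf.Spec



/-! Lemma job of MP_6f75b7_lc, proved by helper735. -/

namespace Pool.Agent.H266_hanf


theorem order_comp {X : Type*} [Fintype X] (M q : ℕ) (hM : Fintype.card X = 2 ^ M) (hM1 : 1 ≤ M)
    (hq : 4 * M ≤ q) (Adj : X → X → Prop)
    (hmix : ∀ A B : Finset X, (∀ a ∈ A, ∀ b ∈ B, ¬ (a = b ∨ Adj a b)) →
      A.card * B.card * q ^ 2 ≤ (Fintype.card X) ^ 2)
    (t : X → X → Prop) (ht : SLO t) :
    ∃ O : Finset X, Fintype.card X ≤ 2 * O.card ∧ ∀ a0 ∈ O, ∀ a ∈ O, CompF M Adj t a0 a := by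
  classical
  obtain ⟨hirr, htr, htri⟩ := ht
  set n := Fintype.card X with hn
  obtain ⟨idx, hidx, hlt⟩ : ∃ idx : X ≃ Fin n, True ∧ ∀ x y, t x y ↔ idx x < idx y := by
    have : IsStrictTotalOrder X t :=
      { irrefl := hirr
        trans := htr
        trichotomous := fun a b h1 h2 => by
          rcases htri a b with h | h | h
          · exact absurd h h1
          · exact h
          · exact absurd h h2 }
    let _ : LinearOrder X := linearOrderOfSTO t
    have e : Fin n ≃o X := Fintype.orderIsoFinOfCardEq X hn.symm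
    refine ⟨e.symm.toEquiv, trivial, fun x y => ?_⟩
    have h1 : t x y ↔ x < y := Iff.rfl
    rw [h1]
    exact (e.symm.lt_iff_lt).symm
  have hn2 : 2 * M ≤ n := by
    rw [hM]
    obtain ⟨m, rfl⟩ : ∃ m, M = m + 1 := ⟨M - 1, by omega⟩
    have := Nat.lt_two_pow_self (n := m)
    rw [pow_succ]
    omega
  set w := n / (2 * M) with hw
  have hw1 : 1 ≤ w := (Nat.one_le_div_iff (by omega)).2 hn2
  have hw2 : 2 * M * w ≤ n := Nat.mul_div_le n (2 * M)
  have hw3 : n ≤ 4 * M * w := by
    have h1 : n < 2 * M * (w + 1) := Nat.lt_mul_div_succ n (by omega)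
    nlinarith
  let J : ℕ → Finset X := fun k => Finset.univ.filter fun x =>
    k * w ≤ (idx x : ℕ) ∧ (idx x : ℕ) < (k + 1) * w
  have hJ : ∀ k < 2 * M, w ≤ (J k).card := by
    intro k hk
    have h2 : (k + 1) * w ≤ n := le_trans (Nat.mul_le_mul_right w (by omega)) hw2
    have h1 : (Finset.Ico (k * w) ((k + 1) * w)).card = w := by
      rw [Nat.card_Ico, add_mul, one_mul]; omega
    rw [← h1]
    refine Finset.card_le_card_of_surjOn (fun x => (idx x : ℕ)) ?_
    intro i hi
    rw [Finset.mem_coe, Finset.mem_Ico] at hi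
    refine ⟨idx.symm ⟨i, by omega⟩, ?_, by simp⟩
    rw [Finset.mem_coe]
    refine Finset.mem_filter.2 ⟨Finset.mem_univ _, ?_⟩
    rw [Equiv.apply_symm_apply]
    exact hi
  let bad : ℕ → Finset X := fun k => Finset.univ.filter fun a =>
    ∀ b ∈ J k, ¬ (a = b ∨ Adj a b)
  have hbad : ∀ k < 2 * M, (bad k).card * (16 * M ^ 2) ≤ 4 * M * n := by
    intro k hk
    have h1 := hmix (bad k) (J k) (fun a ha b hb => (Finset.mem_filter.1 ha).2 b hb)
    have h2 : (bad k).card * w * (16 * M ^ 2) ≤ (bad k).card * (J k).card * q ^ 2 := by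
      refine Nat.mul_le_mul (Nat.mul_le_mul_left _ (hJ k hk)) ?_
      nlinarith
    have h3 : w * ((bad k).card * (16 * M ^ 2)) ≤ w * (4 * M * n) := by
      calc w * ((bad k).card * (16 * M ^ 2)) = (bad k).card * w * (16 * M ^ 2) := by ring
        _ ≤ n ^ 2 := h2.trans h1
        _ = n * n := by ring
        _ ≤ (4 * M * w) * n := Nat.mul_le_mul_right _ hw3
        _ = w * (4 * M * n) := by ring
    exact Nat.le_of_mul_le_mul_left h3 (by omega)
  have hun : 2 * ((Finset.range (2 * M)).biUnion bad).card ≤ n := by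
    have h1 : ((Finset.range (2 * M)).biUnion bad).card ≤ ∑ k ∈ Finset.range (2 * M), (bad k).card :=
      Finset.card_biUnion_le
    have h2 : (∑ k ∈ Finset.range (2 * M), (bad k).card) * (16 * M ^ 2) ≤ 2 * M * (4 * M * n) := by
      rw [Finset.sum_mul]
      calc ∑ k ∈ Finset.range (2 * M), (bad k).card * (16 * M ^ 2) ≤
          ∑ k ∈ Finset.range (2 * M), 4 * M * n :=
            Finset.sum_le_sum fun k hk => hbad k (Finset.mem_range.1 hk)
        _ = 2 * M * (4 * M * n) := by rw [Finset.sum_const, Finset.card_range, smul_eq_mul]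
    have h3 : (8 * M ^ 2) * (2 * ∑ k ∈ Finset.range (2 * M), (bad k).card) ≤ (8 * M ^ 2) * n := by
      calc (8 * M ^ 2) * (2 * ∑ k ∈ Finset.range (2 * M), (bad k).card) =
          (∑ k ∈ Finset.range (2 * M), (bad k).card) * (16 * M ^ 2) := by ring
        _ ≤ 2 * M * (4 * M * n) := h2
        _ = _ := by ring
    have h4 := Nat.le_of_mul_le_mul_left h3 (by positivity)
    omega
  refine ⟨Finset.univ \ (Finset.range (2 * M)).biUnion bad, ?_, ?_⟩
  · rw [Finset.card_sdiff_of_subset (Finset.subset_univ _), Finset.card_univ, ← hn]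
    omega
  · have key : ∀ a ∈ Finset.univ \ (Finset.range (2 * M)).biUnion bad, ∀ k < 2 * M,
        ∃ b, (b = a ∨ Adj a b) ∧ k * w ≤ (idx b : ℕ) ∧ (idx b : ℕ) < (k + 1) * w := by
      intro a ha k hk
      rw [Finset.mem_sdiff, Finset.mem_biUnion] at ha
      have h1 : a ∉ bad k := fun h => ha.2 ⟨k, Finset.mem_range.2 hk, h⟩
      have h2 : ¬ ∀ b ∈ J k, ¬ (a = b ∨ Adj a b) := fun h =>
        h1 (Finset.mem_filter.2 ⟨Finset.mem_univ _, h⟩)
      push Not at h2
      obtain ⟨b, hb, hab⟩ := h2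
      exact ⟨b, hab.imp Eq.symm id, (Finset.mem_filter.1 hb).2⟩
    intro a0 ha0 a ha
    choose r0 h01 h02 h03 using fun i : Fin M => key a0 ha0 (2 * i) (by omega)
    choose r h1 h2 h3 using fun i : Fin M => key a ha (2 * i + 1) (by omega)
    refine ⟨r0, r, h01, h1, fun i j => ?_⟩
    rw [hlt, Fin.lt_def]
    constructor
    · intro h
      by_contra hij
      have hji : (j : ℕ) < i := by
        rw [not_le] at hij
        exact hij
      have h4 : (2 * (j : ℕ) + 1 + 1) * w ≤ 2 * (i : ℕ) * w := Nat.mul_le_mul_right w (by omega)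
      have := h3 j
      have := h02 i
      omega
    · intro hij
      have hij' : (i : ℕ) ≤ j := hij
      have h4 : (2 * (i : ℕ) + 1) * w ≤ (2 * (j : ℕ) + 1) * w := Nat.mul_le_mul_right w (by omega)
      have := h03 i
      have := h2 j
      omega

end Pool.Agent.H266_hanf
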