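import Pool.Agent.H266_hanf.Mixing
import Pool.Agent.H266_hanf.Cobound
import Pool.Agent.H266_hanf.OrderComp

/-! Assembly of the pure part (lemma job of MP_6f75b7_lc, proved by helper977). -/

namespace Pool.Agent.H266_hanf


section fam

variable {F : Type} [Field F] [Fintype F] [DecidableEq F] [CharP F 2] {m : ℕ}

local instance : Fact (2 = 2) := ⟨rfl⟩

omit [Fintype F] [DecidableEq F] in
theorem vadd_self (x : Matrix (Fin m) (Fin m) F) : x + x = 0 := by
  ext i j
  exact CharTwo.add_self_eq_zero _

omit [Fintype F] [DecidableEq F] in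
theorem vneg (x : Matrix (Fin m) (Fin m) F) : -x = x := by
  rw [neg_eq_iff_add_eq_zero]; exact vadd_self x

omit [Fintype F] [DecidableEq F] in
theorem vsub (x y : Matrix (Fin m) (Fin m) F) : x - y = x + y := by
  rw [sub_eq_add_neg, vneg]

omit [Fintype F] [DecidableEq F] [CharP F 2] in
theorem rank_add_le' (x y : Matrix (Fin m) (Fin m) F) : (x + y).rank ≤ x.rank + y.rank := by
  unfold Matrix.rank
  have h : LinearMap.range (x + y).mulVecLin ≤
      LinearMap.range x.mulVecLin ⊔ LinearMap.range y.mulVecLin := by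
    rintro _ ⟨v, rfl⟩
    rw [Matrix.mulVecLin_add, LinearMap.add_apply]
    exact Submodule.add_mem_sup (LinearMap.mem_range_self _ _) (LinearMap.mem_range_self _ _)
  exact (Submodule.finrank_mono h).trans (Submodule.finrank_add_le_finrank_add_finrank _ _)

omit [Fintype F] [DecidableEq F] [CharP F 2] in
theorem R1.rank {x : Matrix (Fin m) (Fin m) F} (h : R1 x) : x.rank ≤ 1 := by
  obtain ⟨u, v, rfl⟩ := h
  exact Matrix.rank_vecMulVec_le u v

omit [Fintype F] [DecidableEq F] [CharP F 2] in
theorem R1.zero : R1 (0 : Matrix (Fin m) (Fin m) F) :=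
  ⟨0, 0, by ext i j; simp [Matrix.vecMulVec_apply]⟩

omit [Fintype F] [DecidableEq F] in
theorem R1.symm {a b : Matrix (Fin m) (Fin m) F} (h : R1 (a - b)) : R1 (b - a) := by
  rw [vsub, add_comm, ← vsub]; exact h

omit [Fintype F] [DecidableEq F] [CharP F 2] in
theorem rank_one' : (1 : Matrix (Fin m) (Fin m) F).rank = m := by
  rw [Matrix.rank_one, Fintype.card_fin]

omit [Fintype F] [DecidableEq F] [CharP F 2] in
theorem conn {P : Matrix (Fin m) (Fin m) F → Prop} (h : ∀ a b, R1 (a - b) → P a → P b)
    (a b : Matrix (Fin m) (Fin m) F) (ha : P a) : P b := by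
  have key : ∀ s : Finset (Fin m),
      P (a + ∑ i ∈ s, Matrix.vecMulVec (Pi.single i 1) ((b - a) i)) := by
    intro s
    induction s using Finset.induction_on with
    | empty => rw [Finset.sum_empty, add_zero]; exact ha
    | insert i s hi ih =>
      refine h _ _ ?_ ih
      rw [Finset.sum_insert hi]
      refine ⟨-Pi.single i 1, (b - a) i, ?_⟩
      rw [Matrix.neg_vecMulVec]
      abel
  have h1 := key Finset.univ
  have h2 : a + ∑ i, Matrix.vecMulVec (Pi.single i 1) ((b - a) i) = b := by
    ext j k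
    rw [Matrix.add_apply, Matrix.sum_apply]
    have : ∀ i ∈ Finset.univ, Matrix.vecMulVec (Pi.single i 1) ((b - a) i) j k =
        if i = j then (b - a) i k else 0 := by
      intro i _
      rw [Matrix.vecMulVec_apply, Pi.single_apply]
      by_cases hij : i = j
      · simp [hij]
      · rw [if_neg hij, if_neg (fun h => hij h.symm), zero_mul]
    rw [Finset.sum_congr rfl this, Finset.sum_ite_eq' Finset.univ j]
    simp
  rwa [h2] at h1

/-- the quotient by the identity matrix -/
structure Quo (F : Type) [Field F] (m : ℕ) (X : Type) where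
  π : Matrix (Fin m) (Fin m) F → X
  sec : X → Matrix (Fin m) (Fin m) F
  hsec : ∀ x, π (sec x) = x
  hπ : ∀ a b, π a = π b ↔ b = a ∨ b = a + 1

variable {X : Type} (Q : Quo F m X)

/-- the adjacency in the quotient -/
def Quo.Adj (x y : X) : Prop := ∃ a b, Q.π a = x ∧ Q.π b = y ∧ a ≠ b ∧ R1 (a - b)

omit [Fintype F] [DecidableEq F] [CharP F 2] in
theorem Quo.add_one (a : Matrix (Fin m) (Fin m) F) : Q.π (a + 1) = Q.π a :=
  ((Q.hπ _ _).2 (Or.inr rfl)).symm

omit [Fintype F] [DecidableEq F] in
theorem add_one_one (a : Matrix (Fin m) (Fin m) F) : a + 1 + 1 = a := by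
  rw [add_assoc, vadd_self, add_zero]

omit [Fintype F] [DecidableEq F] in
/-- lifts of neighbours -/
theorem Quo.lift {a : Matrix (Fin m) (Fin m) F} {x y : X} (ha : Q.π a = x) (h : Q.Adj x y) :
    ∃ b, Q.π b = y ∧ a ≠ b ∧ R1 (a - b) := by
  obtain ⟨a', b', h1, h2, h3, h4⟩ := h
  rcases (Q.hπ a' a).1 (h1.trans ha.symm) with rfl | rfl
  · exact ⟨b', h2, h3, h4⟩
  · refine ⟨b' + 1, (Q.add_one b').trans h2, fun h => h3 (add_right_cancel h), ?_⟩
    rw [add_sub_add_right_eq_sub]
    exact h4

omit [Fintype F] [DecidableEq F] in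
theorem Quo.adj_symm {x y : X} (h : Q.Adj x y) : Q.Adj y x := by
  obtain ⟨a, b, h1, h2, h3, h4⟩ := h
  exact ⟨b, a, h2, h1, h3.symm, h4.symm⟩

omit [Fintype F] [DecidableEq F] in
theorem not_R1_one (hm : 2 ≤ m) : ¬ R1 (1 : Matrix (Fin m) (Fin m) F) := by
  intro h
  have := h.rank
  rw [rank_one'] at this
  omega

omit [Fintype F] [DecidableEq F] in
theorem Quo.adj_irrefl (hm : 2 ≤ m) (x : X) : ¬ Q.Adj x x := by
  rintro ⟨a, b, h1, h2, h3, h4⟩
  rcases (Q.hπ a b).1 (h1.trans h2.symm) with h | h
  · exact h3 h.symm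
  · rw [h, vsub, ← add_assoc, vadd_self, zero_add] at h4
    exact not_R1_one hm h4

omit [Fintype F] [DecidableEq F] in
/-- `a` and `b + 1` are not both at distance one from... -/
theorem adj_of_R1 (Q : Quo F m X) {a b : Matrix (Fin m) (Fin m) F} (h : a ≠ b) (h1 : R1 (a - b)) :
    Q.Adj (Q.π a) (Q.π b) := ⟨a, b, rfl, rfl, h, h1⟩

open Classical in
/-- every cocycle which is trivial on a large set is trivial -/
theorem Quo.robust [Fintype X] (hm : 2 ≤ m) (hq : 4 < Fintype.card F)
    (hcard : ∀ A : Finset X, (Finset.univ.filter fun a => Q.π a ∈ A).card = 2 * A.card)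
    (O : Finset X) (hO : Fintype.card X ≤ 2 * O.card) (hO0 : 0 < O.card) :
    Robust Q.Adj (fun x => x ∈ O) := by
  rintro e ⟨he1, he2, he3⟩ ⟨u, hu⟩
  let E : Matrix (Fin m) (Fin m) F → Matrix (Fin m) (Fin m) F → Prop := fun a b =>
    a = b ∨ e (Q.π a) (Q.π b)
  have hrefl : ∀ a, E a a := fun a => Or.inl rfl
  have hne : ∀ {a b}, a ≠ b → (E a b ↔ e (Q.π a) (Q.π b)) := fun {a b} h =>
    ⟨fun h' => h'.resolve_left h, Or.inr⟩
  have hsymm : ∀ a b, R1 (a - b) → (E a b ↔ E b a) := by
    intro a b h
    by_cases hab : a = b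
    · subst hab; rfl
    · rw [hne hab, hne (Ne.symm hab)]
      exact he1 _ _ (adj_of_R1 Q hab h)
  have htri : ∀ a b c, R1 (a - b) → R1 (b - c) → R1 (c - a) → (E a b ↔ (E b c ↔ E c a)) := by
    intro a b c h1 h2 h3
    by_cases hab : a = b
    · subst hab
      have := hsymm a c h2
      have h0 := hrefl a
      tauto
    · by_cases hbc : b = c
      · subst hbc
        have := hsymm a b h1
        have h0 := hrefl b
        tauto
      · by_cases hca : c = a
        · subst hca
          have := hsymm c b h1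
          have h0 := hrefl c
          tauto
        · rw [hne hab, hne hbc, hne hca]
          exact he2 _ _ _ (adj_of_R1 Q hab h1) (adj_of_R1 Q hbc h2) (adj_of_R1 Q hca h3)
  have hquad : ∀ a b c d, R1 (a - b) → R1 (b - c) → R1 (c - d) → R1 (d - a) →
      (E a b ↔ (E b c ↔ (E c d ↔ E d a))) := by
    intro a b c d h1 h2 h3 h4
    by_cases hab : a = b
    · subst hab
      have := htri a c d h2 h3 h4
      have h0 := hrefl a
      tauto
    · by_cases hbc : b = c
      · subst hbc
        have := htri a b d h1 h3 h4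
        have h0 := hrefl b
        tauto
      · by_cases hcd : c = d
        · subst hcd
          have := htri a b c h1 h2 h4
          have h0 := hrefl c
          tauto
        · by_cases hda : d = a
          · subst hda
            have := htri d b c h1 h2 h3
            have h0 := hrefl d
            tauto
          · rw [hne hab, hne hbc, hne hcd, hne hda]
            exact he3 _ _ _ _ (adj_of_R1 Q hab h1) (adj_of_R1 Q hbc h2) (adj_of_R1 Q hcd h3)
              (adj_of_R1 Q hda h4)
  obtain ⟨T, hT⟩ := coboundary m E hrefl hsymm htri hquad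
  have hE1 : ∀ a b, E (a + 1) (b + 1) ↔ E a b := by
    intro a b
    simp only [E, Q.add_one, add_left_inj]
  have hD : ∀ a b, R1 (a - b) → ((T a ↔ T (a + 1)) ↔ (T b ↔ T (b + 1))) := by
    intro a b h
    have h1 := hT a b h
    have h2 := hT (a + 1) (b + 1) (by rw [add_sub_add_right_eq_sub]; exact h)
    rw [hE1] at h2
    tauto
  by_cases h0 : T 0 ↔ T (0 + 1)
  · -- descends
    have hD' : ∀ a, T a ↔ T (a + 1) := fun a =>
      conn (P := fun a => T a ↔ T (a + 1)) (fun a b h h' => (hD a b h).1 h') 0 a h0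
    have hfib : ∀ a b, Q.π a = Q.π b → (T a ↔ T b) := by
      intro a b h
      rcases (Q.hπ a b).1 h with h1 | h1
      · rw [h1]
      · rw [h1]; exact hD' a
    refine ⟨fun x => T (Q.sec x), fun x y _ _ hxy => ?_⟩
    obtain ⟨a, b, h1, h2, h3, h4⟩ := hxy
    have g1 := hT a b h4
    rw [hne h3, h1, h2] at g1
    have g2 := hfib a (Q.sec x) (by rw [Q.hsec, h1])
    have g3 := hfib b (Q.sec y) (by rw [Q.hsec, h2])
    rw [g1, g2, g3]
  · -- contradiction with mixing
    exfalso
    have hD' : ∀ a, ¬ (T a ↔ T (a + 1)) := fun a =>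
      conn (P := fun a => ¬ (T a ↔ T (a + 1))) (fun a b h h' h'' => h' ((hD a b h).2 h'')) 0 a h0
    let A : Finset (Matrix (Fin m) (Fin m) F) :=
      Finset.univ.filter fun a => Q.π a ∈ O ∧ (T a ↔ u (Q.π a))
    let B : Finset (Matrix (Fin m) (Fin m) F) :=
      Finset.univ.filter fun a => Q.π a ∈ O ∧ ¬ (T a ↔ u (Q.π a))
    have hAB : A.card = B.card := by
      refine Finset.card_bij (fun a _ => a + 1) ?_ ?_ ?_
      · intro a ha
        simp only [A, B, Finset.mem_filter, Finset.mem_univ, true_and, Q.add_one] at ha ⊢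
        have := hD' a
        tauto
      · intro a _ b _ h
        exact add_right_cancel h
      · intro b hb
        refine ⟨b + 1, ?_, add_one_one b⟩
        simp only [A, B, Finset.mem_filter, Finset.mem_univ, true_and, Q.add_one] at hb ⊢
        have := hD' b
        tauto
    have hsum : A.card + B.card = 2 * O.card := by
      rw [← hcard O, ← Finset.card_union_of_disjoint]
      · congr 1
        ext a
        simp only [A, B, Finset.mem_filter, Finset.mem_univ, true_and, Finset.mem_union]
        tauto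
      · rw [Finset.disjoint_left]
        intro a ha hb
        simp only [A, B, Finset.mem_filter, Finset.mem_univ, true_and] at ha hb
        exact hb.2 ha.2
    have hmix := mixing m A B (by
      intro a ha b hb v w hvw
      simp only [A, B, Finset.mem_filter, Finset.mem_univ, true_and] at ha hb
      have hab : a ≠ b := by
        rintro rfl
        exact hb.2 ha.2
      have hR : R1 (a - b) := ⟨v, w, hvw⟩
      have g1 := hT a b hR
      rw [hne hab] at g1
      have g2 := hu _ _ ha.1 hb.1 (adj_of_R1 Q hab hR)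
      have g3 := ha.2
      have g4 := hb.2
      tauto)
    have hV : Fintype.card (Matrix (Fin m) (Fin m) F) = 2 * Fintype.card X := by
      have := hcard Finset.univ
      simp only [Finset.mem_univ, Finset.filter_true] at this
      rw [Finset.card_univ, Finset.card_univ] at this
      exact this
    have hA : A.card = O.card := by omega
    have hB : B.card = O.card := by omega
    rw [hA, hB, hV] at hmix
    have h1 : (2 * Fintype.card X) ^ 2 ≤ (4 * O.card) ^ 2 := Nat.pow_le_pow_left (by omega) 2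
    have h2 : O.card * O.card * Fintype.card F ^ 2 ≤ (4 * O.card) ^ 2 := hmix.trans h1
    have h3 : 25 ≤ Fintype.card F ^ 2 := by nlinarith
    have h4 : O.card * O.card * 25 ≤ O.card * O.card * Fintype.card F ^ 2 :=
      Nat.mul_le_mul_left _ h3
    nlinarith

/-- the twisted cocycle -/
def Quo.s (x y : X) : Prop := R1 (Q.sec x - Q.sec y)

omit [Fintype F] [DecidableEq F] in
theorem Quo.not_R1_add (hm : 3 ≤ m) {a b : Matrix (Fin m) (Fin m) F} (h : R1 (a - b)) :
    ¬ R1 (a - b + 1) := by
  intro h'
  have h1 := rank_add_le' (a - b) (a - b + 1)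
  rw [← add_assoc, vadd_self, zero_add, rank_one'] at h1
  have h2 := h.rank
  have h3 := h'.rank
  omega

omit [Fintype F] [DecidableEq F] in
theorem Quo.delta_add (hm : 0 < m) (a : Matrix (Fin m) (Fin m) F) :
    (a + 1 = Q.sec (Q.π (a + 1))) ↔ ¬ (a = Q.sec (Q.π a)) := by
  rw [Q.add_one]
  have hone : (1 : Matrix (Fin m) (Fin m) F) ≠ 0 := by
    intro h
    have := rank_one' (F := F) (m := m)
    rw [h, Matrix.rank_zero] at this
    omega
  constructor
  · intro h1 h2
    rw [← h2] at h1
    exact hone (by simpa using h1)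
  · intro h
    rcases (Q.hπ a (Q.sec (Q.π a))).1 (Q.hsec _).symm with h1 | h1
    · exact absurd h1.symm h
    · exact h1.symm

omit [Fintype F] [DecidableEq F] in
theorem Quo.s_iff (hm : 3 ≤ m) {a b : Matrix (Fin m) (Fin m) F} (h : R1 (a - b)) :
    Q.s (Q.π a) (Q.π b) ↔ ((a = Q.sec (Q.π a)) ↔ (b = Q.sec (Q.π b))) := by
  have hn := Quo.not_R1_add hm h
  unfold Quo.s
  rcases (Q.hπ a (Q.sec (Q.π a))).1 (Q.hsec _).symm with h1 | h1
  · rcases (Q.hπ b (Q.sec (Q.π b))).1 (Q.hsec _).symm with h2 | h2
    · rw [h1, h2]; simp [h]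
    · have e : a - (b + 1) = a - b + 1 := by rw [vsub, vsub, add_assoc]
      have d2 : ¬ (b = Q.sec (Q.π b)) := by
        intro hb
        rw [← hb] at h2
        have hd := Q.delta_add (by omega) b
        rw [Q.add_one] at hd
        exact (hd.1 (by rw [← hb, ← h2])) hb
      rw [h1, h2, e]
      constructor
      · intro h'; exact absurd h' hn
      · intro h'
        exact absurd (h'.1 rfl) (by rw [← h2]; exact d2)
  · have d1 : ¬ (a = Q.sec (Q.π a)) := by
      intro ha
      have hd := Q.delta_add (by omega) a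
      rw [Q.add_one] at hd
      exact (hd.1 h1.symm) ha
    rcases (Q.hπ b (Q.sec (Q.π b))).1 (Q.hsec _).symm with h2 | h2
    · have e : a + 1 - b = a - b + 1 := by rw [vsub, vsub]; abel
      rw [h2]
      constructor
      · intro h'
        rw [h1, e] at h'
        exact absurd h' hn
      · intro h'
        exact absurd (h'.2 rfl) d1
    · have d2 : ¬ (b = Q.sec (Q.π b)) := by
        intro hb
        have hd := Q.delta_add (by omega) b
        rw [Q.add_one] at hd
        exact (hd.1 h2.symm) hb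
      constructor
      · intro _
        exact ⟨fun h => absurd h d1, fun h => absurd h d2⟩
      · intro _
        rw [h1, h2, add_sub_add_right_eq_sub]
        exact h

omit [Fintype F] [DecidableEq F] in
theorem Quo.lift_unique {a a' : Matrix (Fin m) (Fin m) F} (h : Q.π a = Q.π a')
    (hr : (a - a').rank < m) : a = a' := by
  rcases (Q.hπ a a').1 h with h1 | h1
  · exact h1.symm
  · exfalso
    rw [h1, vsub, ← add_assoc, vadd_self, zero_add, rank_one'] at hr
    exact lt_irrefl _ hr

omit [Fintype F] [DecidableEq F] in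
theorem Quo.cocycle_s (hm : 5 ≤ m) : Cocycle Q.Adj Q.s := by
  refine ⟨?_, ?_, ?_⟩
  · intro x y _
    unfold Quo.s
    exact ⟨R1.symm, R1.symm⟩
  · intro x y z h1 h2 h3
    obtain ⟨b, hb, hab, rab⟩ := Q.lift (Q.hsec x) h1
    obtain ⟨c, hc, hbc, rbc⟩ := Q.lift hb h2
    obtain ⟨a', ha', hca, rca⟩ := Q.lift hc h3
    have e : Q.sec x = a' := by
      refine Q.lift_unique (by rw [Q.hsec, ha']) ?_
      have e1 : Q.sec x - a' = (Q.sec x - b) + ((b - c) + (c - a')) := by abel
      rw [e1]
      have g1 := rank_add_le' (Q.sec x - b) ((b - c) + (c - a'))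
      have g2 := rank_add_le' (b - c) (c - a')
      have g3 := rab.rank
      have g4 := rbc.rank
      have g5 := rca.rank
      omega
    rw [← e] at rca
    have k1 := Q.s_iff (by omega) rab
    have k2 := Q.s_iff (by omega) rbc
    have k3 := Q.s_iff (by omega) rca
    rw [Q.hsec, hb] at k1
    rw [hb, hc] at k2
    rw [hc, Q.hsec] at k3
    tauto
  · intro x y z w h1 h2 h3 h4
    obtain ⟨b, hb, hab, rab⟩ := Q.lift (Q.hsec x) h1
    obtain ⟨c, hc, hbc, rbc⟩ := Q.lift hb h2
    obtain ⟨d, hd, hcd, rcd⟩ := Q.lift hc h3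
    obtain ⟨a', ha', hda, rda⟩ := Q.lift hd h4
    have e : Q.sec x = a' := by
      refine Q.lift_unique (by rw [Q.hsec, ha']) ?_
      have e1 : Q.sec x - a' = (Q.sec x - b) + ((b - c) + ((c - d) + (d - a'))) := by abel
      rw [e1]
      have g1 := rank_add_le' (Q.sec x - b) ((b - c) + ((c - d) + (d - a')))
      have g2 := rank_add_le' (b - c) ((c - d) + (d - a'))
      have g2' := rank_add_le' (c - d) (d - a')
      have g3 := rab.rank
      have g4 := rbc.rank
      have g5 := rcd.rank
      have g6 := rda.rank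
      omega
    rw [← e] at rda
    have k1 := Q.s_iff (by omega) rab
    have k2 := Q.s_iff (by omega) rbc
    have k3 := Q.s_iff (by omega) rcd
    have k4 := Q.s_iff (by omega) rda
    rw [Q.hsec, hb] at k1
    rw [hb, hc] at k2
    rw [hc, hd] at k3
    rw [hd, Q.hsec] at k4
    tauto

omit [Fintype F] [DecidableEq F] in
theorem Quo.not_triv (hm : 3 ≤ m) : ¬ TrivOn Q.Adj Q.s (fun _ => True) := by
  rintro ⟨u, hu⟩
  have hτ : ∀ a b, R1 (a - b) → (u (Q.π a) ↔ (a = Q.sec (Q.π a))) →
      (u (Q.π b) ↔ (b = Q.sec (Q.π b))) := by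
    intro a b h ha
    by_cases hab : a = b
    · subst hab; exact ha
    · have h1 := hu _ _ trivial trivial (adj_of_R1 Q hab h)
      have h2 := Q.s_iff hm h
      tauto
  have hd := Q.delta_add (by omega) 0
  by_cases h0 : u (Q.π 0) ↔ ((0 : Matrix (Fin m) (Fin m) F) = Q.sec (Q.π 0))
  · have h1 := conn (P := fun a => u (Q.π a) ↔ (a = Q.sec (Q.π a))) hτ 0 (0 + 1) h0
    rw [Q.add_one] at h1 hd
    tauto
  · have h0' : u (Q.π (0 + 1)) ↔ ((0 + 1 : Matrix (Fin m) (Fin m) F) = Q.sec (Q.π (0 + 1))) := by
      rw [Q.add_one] at hd ⊢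
      tauto
    have h1 := conn (P := fun a => u (Q.π a) ↔ (a = Q.sec (Q.π a))) hτ (0 + 1) 0 h0'
    exact h0 h1

omit [Fintype F] [DecidableEq F] in
theorem Quo.ball_lift (x : X) (n : ℕ) : ∀ y, ball Q.Adj x n y →
    ∃ a, Q.π a = y ∧ (Q.sec x - a).rank ≤ n := by
  induction n with
  | zero =>
    intro y hy
    have hy' : y = x := hy
    refine ⟨Q.sec x, by rw [Q.hsec, hy'], ?_⟩
    rw [sub_self, Matrix.rank_zero]
  | succ n ih =>
    rintro y ⟨z, hz, hyz⟩
    obtain ⟨a, ha, hr⟩ := ih z hz
    rcases hyz with rfl | hyz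
    · exact ⟨a, ha, hr.trans (Nat.le_succ n)⟩
    · obtain ⟨b, hb, _, rab⟩ := Q.lift ha hyz
      refine ⟨b, hb, ?_⟩
      have e : Q.sec x - b = (Q.sec x - a) + (a - b) := by abel
      rw [e]
      have g1 := rank_add_le' (Q.sec x - a) (a - b)
      have g2 := rab.rank
      omega

omit [Fintype F] [DecidableEq F] in
theorem Quo.balls (d : ℕ) (hm : 2 * d + 1 < m) (hm3 : 3 ≤ m) (x : X) : ∃ τ : X → Prop, τ x ∧
    ∀ y y', ball Q.Adj x d y → ball Q.Adj x d y' → Q.Adj y y' → (Q.s y y' ↔ (τ y ↔ τ y')) := by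
  refine ⟨fun y => (Q.sec x - Q.sec y).rank ≤ d, ?_, ?_⟩
  · show (Q.sec x - Q.sec x).rank ≤ d
    rw [sub_self, Matrix.rank_zero]; exact Nat.zero_le _
  · intro y y' hy hy' hyy
    obtain ⟨a, ha, hra⟩ := Q.ball_lift x d y hy
    obtain ⟨a', ha', hra'⟩ := Q.ball_lift x d y' hy'
    have hδ : ∀ (y : X) (a : Matrix (Fin m) (Fin m) F), Q.π a = y → (Q.sec x - a).rank ≤ d →
        ((a = Q.sec (Q.π a)) ↔ (Q.sec x - Q.sec y).rank ≤ d) := by
      intro y a ha hr
      constructor
      · intro h
        rw [ha] at h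
        rw [← h]; exact hr
      · intro h
        rw [ha]
        refine Q.lift_unique (by rw [ha, Q.hsec]) ?_
        have e : a - Q.sec y = (Q.sec x - a) + (Q.sec x - Q.sec y) := by
          rw [vsub, vsub, vsub]
          have := vadd_self (Q.sec x)
          calc a + Q.sec y = (Q.sec x + Q.sec x) + (a + Q.sec y) := by rw [this, zero_add]
            _ = _ := by abel
        rw [e]
        have g1 := rank_add_le' (Q.sec x - a) (Q.sec x - Q.sec y)
        omega
    obtain ⟨b, hb, hab, rab⟩ := Q.lift ha hyy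
    have hba : b = a' := by
      refine Q.lift_unique (by rw [hb, ha']) ?_
      have e : b - a' = (a - b) + ((Q.sec x - a) + (Q.sec x - a')) := by
        rw [vsub, vsub, vsub, vsub]
        have h1 := vadd_self (Q.sec x)
        have h2 := vadd_self a
        calc b + a' = (Q.sec x + Q.sec x) + (a + a) + (b + a') := by rw [h1, h2, zero_add, zero_add]
          _ = _ := by abel
      rw [e]
      have g1 := rank_add_le' (a - b) ((Q.sec x - a) + (Q.sec x - a'))
      have g2 := rank_add_le' (Q.sec x - a) (Q.sec x - a')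
      have g3 := rab.rank
      omega
    subst hba
    have k := Q.s_iff hm3 rab
    have k1 := hδ y a ha hra
    have k2 := hδ y' b ha' hra'
    rw [ha, hb] at k
    rw [ha] at k1
    rw [hb] at k2
    rw [k, k1, k2]

end fam

theorem pow_aux (m : ℕ) (hm : 6 ≤ m) : 4 * (4 * m ^ 3 - 1) ≤ 2 ^ (4 * m) := by
  have h1 : ∀ n, 6 ≤ n → 16 * n ^ 3 ≤ 2 ^ (4 * n) := by
    intro n hn
    induction n, hn using Nat.le_induction with
    | base => norm_num
    | succ n hn ih =>
      have e : 2 ^ (4 * (n + 1)) = 16 * 2 ^ (4 * n) := by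
        rw [show 4 * (n + 1) = 4 * n + 4 by ring, pow_add]; norm_num; ring
      rw [e]
      have h2 : (n + 1) ^ 3 ≤ 16 * n ^ 3 := by
        have h3 : n + 1 ≤ 2 * n := by omega
        calc (n + 1) ^ 3 ≤ (2 * n) ^ 3 := Nat.pow_le_pow_left h3 3
          _ = 8 * n ^ 3 := by ring
          _ ≤ 16 * n ^ 3 := by omega
      nlinarith
  have := h1 m hm
  omega

open Classical in
/-- TARGET -/
theorem family (d : ℕ) : Family d := by
  set m := max (2 * d + 2) 6 with hmdef
  have hm6 : 6 ≤ m := le_max_right _ _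
  have hmd : 2 * d + 1 < m := lt_of_lt_of_le (by omega) (le_max_left (2 * d + 2) 6)
  let F := GaloisField 2 (4 * m)
  haveI : Fintype F := Fintype.ofFinite F
  have hF : Fintype.card F = 2 ^ (4 * m) := by
    rw [← Nat.card_eq_fintype_card]
    exact GaloisField.card 2 (4 * m) (by omega)
  let S : AddSubgroup (Matrix (Fin m) (Fin m) F) := AddSubgroup.zmultiples 1
  have hS : ∀ x : Matrix (Fin m) (Fin m) F, x ∈ S ↔ x = 0 ∨ x = 1 := by
    intro x
    constructor
    · intro hx
      obtain ⟨k, rfl⟩ := AddSubgroup.mem_zmultiples_iff.1 hx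
      have h2 : (2 : ℤ) • (1 : Matrix (Fin m) (Fin m) F) = 0 := by
        rw [two_smul]; exact vadd_self 1
      have h2' : ∀ j : ℤ, (2 * j) • (1 : Matrix (Fin m) (Fin m) F) = 0 := by
        intro j
        have e : (2 * j : ℤ) • (1 : Matrix (Fin m) (Fin m) F) =
            j • ((2 : ℤ) • (1 : Matrix (Fin m) (Fin m) F)) := by
          rw [mul_comm (2 : ℤ) j, mul_smul]
        rw [e, h2, smul_zero]
      rcases Int.even_or_odd k with ⟨j, hj⟩ | ⟨j, hj⟩
      · left
        rw [hj, ← two_mul]; exact h2' j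
      · right
        rw [hj, add_smul, h2' j, zero_add, one_smul]
    · rintro (rfl | rfl)
      · exact S.zero_mem
      · exact AddSubgroup.mem_zmultiples 1
  let X := Matrix (Fin m) (Fin m) F ⧸ S
  haveI : Fintype X := Fintype.ofFinite X
  let Q : Quo F m X :=
    { π := QuotientAddGroup.mk
      sec := Quotient.out
      hsec := fun x => Quotient.out_eq' x
      hπ := fun a b => by
        rw [QuotientAddGroup.eq, hS, neg_add_eq_zero]
        constructor
        · rintro (h | h)
          · exact Or.inl h.symm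
          · right
            rw [← h]; abel
        · rintro (h | h)
          · exact Or.inl h.symm
          · right
            rw [h]; abel }
  have hone : (1 : Matrix (Fin m) (Fin m) F) ≠ 0 := by
    intro h
    have := rank_one' (F := F) (m := m)
    rw [h, Matrix.rank_zero] at this
    omega
  have hcard : ∀ A : Finset X, (Finset.univ.filter fun a => Q.π a ∈ A).card = 2 * A.card := by
    intro A
    rw [Finset.card_eq_sum_card_fiberwise (f := Q.π) (t := A) (fun a ha => by
      simpa using ha)]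
    rw [Finset.sum_congr rfl (g := fun _ => 2)]
    · rw [Finset.sum_const, smul_eq_mul, mul_comm]
    · intro x hx
      have : (Finset.univ.filter fun a => Q.π a ∈ A).filter (fun a => Q.π a = x) =
          {Q.sec x, Q.sec x + 1} := by
        ext a
        simp only [Finset.mem_filter, Finset.mem_univ, true_and, Finset.mem_insert,
          Finset.mem_singleton]
        constructor
        · rintro ⟨_, h⟩
          exact (Q.hπ (Q.sec x) a).1 (by rw [Q.hsec, h])
        · rintro (h | h)
          · rw [h, Q.hsec]; exact ⟨hx, rfl⟩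
          · rw [h, Q.add_one, Q.hsec]; exact ⟨hx, rfl⟩
      rw [this, Finset.card_pair]
      intro h
      exact hone (by simpa using h)
  have hV : Fintype.card (Matrix (Fin m) (Fin m) F) = 2 * Fintype.card X := by
    have := hcard Finset.univ
    simp only [Finset.mem_univ, Finset.filter_true] at this
    rw [Finset.card_univ, Finset.card_univ] at this
    exact this
  have hV2 : Fintype.card (Matrix (Fin m) (Fin m) F) = 2 ^ (4 * m ^ 3) := by
    have e : Fintype.card (Matrix (Fin m) (Fin m) F) = Fintype.card (Fin m → Fin m → F) := rfl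
    rw [e, Fintype.card_fun, Fintype.card_fun, Fintype.card_fin, hF, ← pow_mul, ← pow_mul]
    congr 1; ring
  have hX : Fintype.card X = 2 ^ (4 * m ^ 3 - 1) := by
    have h1 : 1 ≤ 4 * m ^ 3 := by
      have : 0 < m ^ 3 := by positivity
      omega
    have h2 : (2:ℕ) ^ (4 * m ^ 3) = 2 * 2 ^ (4 * m ^ 3 - 1) := by
      rw [← pow_succ']; congr 1; omega
    omega
  refine ⟨4 * m ^ 3 - 1, X, inferInstance, Q.Adj, Q.s, hX, fun a b => Q.adj_symm,
    Q.adj_irrefl (by omega), ?_, ?_, Q.cocycle_s (by omega), Q.not_triv (by omega),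
    Q.balls d hmd (by omega)⟩
  · rintro R ⟨x, hx⟩ hR y
    have h1 := conn (P := fun a => R (Q.π a)) (fun a b h ha => by
      by_cases hab : a = b
      · subst hab; exact ha
      · exact hR _ _ ha (adj_of_R1 Q hab h)) (Q.sec x) (Q.sec y) (by rw [Q.hsec]; exact hx)
    rwa [Q.hsec] at h1
  · intro t ht
    have hmix : ∀ A B : Finset X, (∀ a ∈ A, ∀ b ∈ B, ¬ (a = b ∨ Q.Adj a b)) →
        A.card * B.card * (2 ^ (4 * m)) ^ 2 ≤ (Fintype.card X) ^ 2 := by
      intro A B hAB
      have h1 := mixing m (Finset.univ.filter fun a => Q.π a ∈ A)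
        (Finset.univ.filter fun a => Q.π a ∈ B) (by
          intro a ha b hb v w hvw
          simp only [Finset.mem_filter, Finset.mem_univ, true_and] at ha hb
          refine hAB _ ha _ hb ?_
          by_cases hab : a = b
          · left; rw [hab]
          · right; exact adj_of_R1 Q hab ⟨v, w, hvw⟩)
      rw [hcard, hcard, hV, hF] at h1
      nlinarith
    obtain ⟨O, hO, hC⟩ := order_comp (4 * m ^ 3 - 1) (2 ^ (4 * m)) hX (by
      have : 0 < m ^ 3 := by positivity
      omega) (pow_aux m hm6) Q.Adj hmix t ht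
    have hX0 : 0 < Fintype.card X := by rw [hX]; positivity
    have hO0 : 0 < O.card := by omega
    obtain ⟨a0, ha0⟩ := Finset.card_pos.1 hO0
    refine ⟨a0, fun x => x ∈ O, Q.robust (by omega) ?_ (fun A => by convert hcard A) O hO hO0, fun a ha => hC a0 ha0 a ha⟩
    rw [hF]
    calc 4 < 2 ^ 3 := by norm_num
      _ ≤ 2 ^ (4 * m) := Nat.pow_le_pow_right (by norm_num) (by omega)

end Pool.Agent.H266_hanf
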