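import Pool.Agent.H266_hanf.Conc

/-! Hanf equivalence of the two concrete coloured graphs, and the sections of the concrete
graph (proved by the seat helper384 as a delegated job). -/

namespace Pool.Agent.H266_hanf

variable {M : ℕ}

/-- changing the bit of the lifts over the names outside `τ` -/
noncomputable def flipV (τ : Set (Fin M) → Prop) : Vtx M → Vtx M := by
  classical
  exact fun v => match v with
    | Vtx.lift y b => Vtx.lift y (if τ y then b else !b)
    | Vtx.pt x => Vtx.pt x
    | Vtx.num x i => Vtx.num x i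
    | Vtx.num' x i => Vtx.num' x i
    | Vtx.nam x α β => Vtx.nam x α β
    | Vtx.rel x R => Vtx.rel x R

theorem flipV_flipV (τ : Set (Fin M) → Prop) (v : Vtx M) : flipV τ (flipV τ v) = v := by
  classical
  cases v with
  | lift y b => by_cases h : τ y <;> simp [flipV, h]
  | _ => simp [flipV]

theorem base_flipV (τ : Set (Fin M) → Prop) (v : Vtx M) : (flipV τ v).base = v.base := by
  cases v <;> simp [flipV, Vtx.base]

theorem flipV_of (τ : Set (Fin M) → Prop) (v : Vtx M) (h : τ v.base) : flipV τ v = v := by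
  cases v <;> simp_all [flipV, Vtx.base]

theorem E0_base (Adj e : Set (Fin M) → Set (Fin M) → Prop) (u v : Vtx M) (h : Vtx.E0 Adj e u v) :
    u.base = v.base ∨ Adj u.base v.base := by
  cases u <;> cases v <;> simp only [Vtx.E0, Vtx.base] at h ⊢ <;> tauto

theorem E0_flipV (Adj s : Set (Fin M) → Set (Fin M) → Prop) (τ : Set (Fin M) → Prop) (u v : Vtx M)
    (h : Adj u.base v.base → (s u.base v.base ↔ (τ u.base ↔ τ v.base))) :
    Vtx.E0 Adj (fun _ _ => True) u v ↔ Vtx.E0 Adj s (flipV τ u) (flipV τ v) := by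
  classical
  cases u <;> cases v <;> simp only [Vtx.E0, Vtx.base, flipV] at h ⊢
  case lift.lift x b y c =>
    refine and_congr_right fun hA => ?_
    rw [h hA]
    by_cases h1 : τ x <;> by_cases h2 : τ y <;> cases b <;> cases c <;> simp [h1, h2]

theorem ball_self {X : Type*} (Adj : X → X → Prop) (x : X) (n : ℕ) : ball Adj x n x := by
  induction n with
  | zero => rfl
  | succ n ih => exact ⟨x, ih, Or.inl rfl⟩

theorem ball_step {X : Type*} (Adj : X → X → Prop) (x y : X) (n : ℕ) (z : X) (h : y = x ∨ Adj x y)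
    (hb : ball Adj y n z) : ball Adj x (n + 1) z := by
  induction n generalizing z with
  | zero => exact ⟨x, rfl, by rcases h with h | h
                              · left; exact (show z = y from hb).trans h
                              · right; rw [show z = y from hb]; exact h⟩
  | succ n ih =>
    obtain ⟨w, hw, hz⟩ := hb
    exact ⟨w, ih w hw, hz⟩

theorem ball_mono' {X : Type*} (Adj : X → X → Prop) (x : X) {n m : ℕ} (hnm : n ≤ m) (z : X)
    (hb : ball Adj x n z) : ball Adj x m z := by
  induction hnm with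
  | refl => exact hb
  | step _ ih => exact ⟨z, ih, Or.inl rfl⟩

theorem mem_nbhd_iff {k : ℕ} (G : ColGraph k) (hs : ∀ x y, G.E x y → G.E y x) (d : ℕ) (v u : G.V) :
    u ∈ nbhd G d v ↔ ball G.E v d u := by
  constructor
  · rintro ⟨p, hp⟩
    refine ball_mono' _ _ hp _ ?_
    clear hp
    induction p with
    | nil => exact ball_self _ _ _
    | cons h p ih =>
      refine ball_step _ _ _ _ _ ?_ ih
      right
      simp only [gaifman, SimpleGraph.fromRel_adj] at h
      rcases h.2 with h | h
      · exact h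
      · exact hs _ _ h
  · intro h
    induction d generalizing u with
    | zero =>
      obtain rfl : u = v := h
      exact ⟨SimpleGraph.Walk.nil, by simp⟩
    | succ n ih =>
      obtain ⟨z, hz, hzu⟩ := h
      obtain ⟨p, hp⟩ := ih z hz
      by_cases hne : z = u
      · subst hne
        exact ⟨p, by omega⟩
      · have hE : G.E z u := by
          rcases hzu with h | h
          · exact absurd h.symm hne
          · exact h
        have hadj : (gaifman G).Adj z u := by
          simp only [gaifman, SimpleGraph.fromRel_adj]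
          exact ⟨hne, Or.inl hE⟩
        exact ⟨p.concat hadj, by rw [SimpleGraph.Walk.length_concat]; omega⟩

theorem conc_hanf (M : ℕ) (Adj s : Set (Fin M) → Set (Fin M) → Prop)
    (hs : ∀ a b, Adj a b → Adj b a) (hss : ∀ a b, Adj a b → (s a b ↔ s b a)) (d : ℕ)
    (hloc : ∀ x, ∃ τ : Set (Fin M) → Prop, τ x ∧ ∀ y y', ball Adj x d y → ball Adj x d y' → Adj y y' →
      (s y y' ↔ (τ y ↔ τ y'))) :
    HanfEquiv d (conc M Adj (fun _ _ => True)) (conc M Adj s) := by
  refine ⟨Equiv.refl _, fun v => ?_⟩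
  change NbhdIso (conc M Adj (fun _ _ => True)) (conc M Adj s) d v v
  obtain ⟨τ, hτ, hl⟩ := hloc (Vtx.base v)
  have hsymm : ∀ (e : Set (Fin M) → Set (Fin M) → Prop) (x y : (conc M Adj e).V),
      (conc M Adj e).E x y → (conc M Adj e).E y x := fun e x y h => Or.symm h
  have hE : ∀ (e : Set (Fin M) → Set (Fin M) → Prop) (x y : Vtx M),
      (conc M Adj e).E x y → y.base = x.base ∨ Adj x.base y.base := by
    intro e x y h
    rcases h with h | h
    · rcases E0_base Adj e x y h with h | h
      · exact Or.inl h.symm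
      · exact Or.inr h
    · rcases E0_base Adj e y x h with h | h
      · exact Or.inl h
      · exact Or.inr (hs _ _ h)
  have hball : ∀ (e : Set (Fin M) → Set (Fin M) → Prop) (n : ℕ) (u : Vtx M),
      ball (conc M Adj e).E v n u → ball Adj (Vtx.base v) n u.base := by
    intro e n
    induction n with
    | zero => intro u h; exact congrArg Vtx.base h
    | succ n ih =>
      rintro u ⟨z, hz, h⟩
      refine ⟨z.base, ih z hz, ?_⟩
      rcases h with h | h
      · exact Or.inl (congrArg Vtx.base h)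
      · exact hE e z u h
  have htr : ∀ u u' : Vtx M, ball Adj (Vtx.base v) d u.base → ball Adj (Vtx.base v) d u'.base →
      ((conc M Adj (fun _ _ => True)).E u u' ↔ (conc M Adj s).E (flipV τ u) (flipV τ u')) := by
    intro u u' hu hu'
    refine or_congr ?_ ?_
    · exact E0_flipV Adj s τ u u' fun hA => hl _ _ hu hu' hA
    · exact E0_flipV Adj s τ u' u fun hA => hl _ _ hu' hu hA
  have htr' : ∀ u u' : Vtx M, ball Adj (Vtx.base v) d u.base → ball Adj (Vtx.base v) d u'.base →
      ((conc M Adj s).E u u' ↔ (conc M Adj (fun _ _ => True)).E (flipV τ u) (flipV τ u')) := by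
    intro u u' hu hu'
    rw [htr (flipV τ u) (flipV τ u') (by rw [base_flipV]; exact hu) (by rw [base_flipV]; exact hu'),
      flipV_flipV, flipV_flipV]
  have hv : flipV τ v = v := flipV_of τ v hτ
  have h1 : ∀ n ≤ d, ∀ u : Vtx M, ball (conc M Adj (fun _ _ => True)).E v n u →
      ball (conc M Adj s).E v n (flipV τ u) := by
    intro n
    induction n with
    | zero => intro _ u h; change u = v at h; subst h; exact hv
    | succ n ih =>
      rintro hn u ⟨z, hz, h⟩
      refine ⟨flipV τ z, ih (by omega) z hz, ?_⟩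
      rcases h with h | h
      · exact Or.inl (congrArg (flipV τ) h)
      · right
        refine (htr z u ?_ ?_).1 h
        · exact ball_mono' _ _ (by omega) _ (hball _ n z hz)
        · exact ball_mono' _ _ hn _ (hball (fun _ _ => True) (n + 1) u ⟨z, hz, Or.inr h⟩)
  have h2 : ∀ n ≤ d, ∀ u : Vtx M, ball (conc M Adj s).E v n u →
      ball (conc M Adj (fun _ _ => True)).E v n (flipV τ u) := by
    intro n
    induction n with
    | zero => intro _ u h; change u = v at h; subst h; exact hv
    | succ n ih =>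
      rintro hn u ⟨z, hz, h⟩
      refine ⟨flipV τ z, ih (by omega) z hz, ?_⟩
      rcases h with h | h
      · exact Or.inl (congrArg (flipV τ) h)
      · right
        refine (htr' z u ?_ ?_).1 h
        · exact ball_mono' _ _ (by omega) _ (hball _ n z hz)
        · exact ball_mono' _ _ hn _ (hball s (n + 1) u ⟨z, hz, Or.inr h⟩)
  have m1 : ∀ u : Vtx M, u ∈ nbhd (conc M Adj (fun _ _ => True)) d v → flipV τ u ∈ nbhd (conc M Adj s) d v :=
    fun u hu => (mem_nbhd_iff _ (hsymm _) _ _ _).2 (h1 d le_rfl u ((mem_nbhd_iff _ (hsymm _) _ _ _).1 hu))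
  have m2 : ∀ u : Vtx M, u ∈ nbhd (conc M Adj s) d v → flipV τ u ∈ nbhd (conc M Adj (fun _ _ => True)) d v :=
    fun u hu => (mem_nbhd_iff _ (hsymm _) _ _ _).2 (h2 d le_rfl u ((mem_nbhd_iff _ (hsymm _) _ _ _).1 hu))
  have hb : ∀ u : Vtx M, u ∈ nbhd (conc M Adj (fun _ _ => True)) d v → ball Adj (Vtx.base v) d u.base :=
    fun u hu => hball _ d u ((mem_nbhd_iff _ (hsymm _) _ _ _).1 hu)
  refine ⟨⟨fun u => ⟨flipV τ u.1, m1 u.1 u.2⟩, fun u => ⟨flipV τ u.1, m2 u.1 u.2⟩, ?_, ?_⟩, ?_, ?_, ?_⟩
  · intro u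
    exact Subtype.ext (flipV_flipV τ u.1)
  · intro u
    exact Subtype.ext (flipV_flipV τ u.1)
  · intro x hx
    change flipV τ x.1 = v
    rw [hx]; exact hv
  · intro x y
    exact htr x.1 y.1 (hb _ x.2) (hb _ y.2)
  · rintro i ⟨x, hx⟩
    change ((Vtx.sort x = i ∨ (i = 6 ∧ ∃ y k, x = Vtx.num y k ∧ k ∈ y) ∨ (i = 7 ∧ ∃ y, x = Vtx.rel y Adj)) ↔
      ((flipV τ x).sort = i ∨ (i = 6 ∧ ∃ y k, flipV τ x = Vtx.num y k ∧ k ∈ y) ∨
        (i = 7 ∧ ∃ y, flipV τ x = Vtx.rel y Adj)))
    cases x <;> first | exact Iff.rfl | simp [flipV, Vtx.sort]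

theorem conc_simple (M : ℕ) (Adj s : Set (Fin M) → Set (Fin M) → Prop) (hi : ∀ a, ¬ Adj a a) :
    IsSimple (conc M Adj s) := by
  refine ⟨fun x y h => Or.symm h, fun x h => ?_⟩
  have : Vtx.E0 Adj s x x := by
    rcases h with h | h <;> exact h
  revert this
  cases x <;> simp [Vtx.E0, hi]

/-- a section is the same as a trivialisation: lift x b over pt x, u x := (b = true) -/
theorem conc_section (M : ℕ) (Adj s : Set (Fin M) → Set (Fin M) → Prop)
    (hs : ∀ a b, Adj a b → Adj b a) (hss : ∀ a b, Adj a b → (s a b ↔ s b a)) :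
    HasSection (conc M Adj s) ↔ TrivOn Adj s (fun _ => True) := by
  classical
  constructor
  · rintro ⟨l, hl, hE⟩
    have hpt : ∀ x : Set (Fin M), Pt (conc M Adj s) (Vtx.pt x) := fun x => Or.inl rfl
    have key : ∀ x : Set (Fin M), ∃ b : Bool, l (Vtx.pt x) = Vtx.lift x b := by
      intro x
      obtain ⟨h1, h2⟩ := hl (Vtx.pt x) (hpt x)
      have h1' : (Vtx.sort (l (Vtx.pt x)) = 1 ∨ ((1 : Fin 8) = 6 ∧ ∃ y k, l (Vtx.pt x) = Vtx.num y k ∧ k ∈ y) ∨
        ((1 : Fin 8) = 7 ∧ ∃ y, l (Vtx.pt x) = Vtx.rel y Adj)) := h1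
      have h2' : Vtx.E0 Adj s (l (Vtx.pt x)) (Vtx.pt x) ∨ Vtx.E0 Adj s (Vtx.pt x) (l (Vtx.pt x)) := h2
      generalize l (Vtx.pt x) = w at h1' h2' ⊢
      cases w with
      | lift y b =>
        simp only [Vtx.E0, or_false] at h2'
        exact ⟨b, by rw [h2']⟩
      | pt y => simp [Vtx.sort] at h1'
      | num y i => simp [Vtx.sort] at h1'
      | num' y i => simp [Vtx.sort] at h1'
      | nam y i j => simp [Vtx.sort] at h1'
      | rel y i => simp [Vtx.sort] at h1'
    choose b hb using key
    refine ⟨fun x => b x = true, fun x y _ _ hxy => ?_⟩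
    have h := hE (Vtx.pt x) (hpt x) (Vtx.pt y) (hpt y) (Or.inl hxy)
    rw [hb, hb] at h
    have h' : (Adj x y ∧ (s x y ↔ b x = b y)) ∨ (Adj y x ∧ (s y x ↔ b y = b x)) := h
    have h3 : s x y ↔ b x = b y := by
      rcases h' with ⟨_, h'⟩ | ⟨_, h'⟩
      · exact h'
      · rw [hss x y hxy, h']; exact eq_comm
    exact h3.trans Bool.eq_iff_iff
  · rintro ⟨u, hu⟩
    let l : Vtx M → Vtx M := fun v => Vtx.lift v.base (decide (u v.base))
    have hp : ∀ p : Vtx M, Pt (conc M Adj s) p → p = Vtx.pt p.base := by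
      intro p hp
      have h1' : (Vtx.sort p = 0 ∨ ((0 : Fin 8) = 6 ∧ ∃ y k, p = Vtx.num y k ∧ k ∈ y) ∨
        ((0 : Fin 8) = 7 ∧ ∃ y, p = Vtx.rel y Adj)) := hp
      cases p <;> simp [Vtx.sort] at h1' ⊢
      rfl
    refine ⟨l, ?_, ?_⟩
    · intro p hpp
      rw [hp p hpp]
      exact ⟨Or.inl rfl, Or.inl rfl⟩
    · intro p hpp p' hpp' hE
      rw [hp p hpp, hp p' hpp'] at hE
      have hE' : Adj p.base p'.base ∨ Adj p'.base p.base := hE
      have hA : Adj p.base p'.base := by
        rcases hE' with h | h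
        · exact h
        · exact hs _ _ h
      refine Or.inl ⟨hA, ?_⟩
      rw [hu _ _ trivial trivial hA]
      simp

end Pool.Agent.H266_hanf
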