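import Pool.Agent.H266_hanf.Conc

/-! Order-invariance: under the guard, the order-dependent sentence says that the lifts have a section. -/

namespace Pool.Agent.H266_hanf

theorem rel_id {M : ℕ} (Q : Fin M → Fin M → Prop) (h1 : ∀ i, ∃ j, Q i j) (h2 : ∀ j, ∃ i, Q i j)
    (h3 : ∀ i i' j j', i ≤ i' → Q i j → Q i' j' → j ≤ j') (i : Fin M) : Q i i := by
  choose f hf using h1
  have hmono : Monotone f := fun i i' h => h3 i i' _ _ h (hf i) (hf i')
  have hsurj : Function.Surjective f := by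
    intro j
    obtain ⟨i, hi⟩ := h2 j
    exact ⟨i, le_antisymm (h3 i i _ _ le_rfl (hf i) hi) (h3 i i _ _ le_rfl hi (hf i))⟩
  have hinj := Finite.injective_iff_surjective.2 hsurj
  have hst : StrictMono f := hmono.strictMono_of_injective hinj
  have : f = id := le_antisymm hst.le_id hst.id_le
  have h := hf i
  rw [this] at h
  exact h

section

variable {G : ColGraph 8} {M : ℕ} {e : G.V → Fin M → G.V} {Adj : Set (Fin M) → Set (Fin M) → Prop}
  {pt : Set (Fin M) → G.V} {r : G.V → G.V → Prop}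

theorem Decoded.adj' (hD : Decoded G M e Adj pt) {p p' : G.V} (hp : Pt G p) (hp' : Pt G p') :
    G.E p p' ↔ Adj (nmP G (e p)) (nmP G (e p')) := by
  rw [← hD.adj, hD.pt_nm p hp, hD.pt_nm p' hp']

theorem Decoded.eq_pt (hD : Decoded G M e Adj pt) {p : G.V} (hp : Pt G p) {α : Set (Fin M)}
    (h : nmP G (e p) = α) : p = pt α := by
  rw [← h, hD.pt_nm p hp]

theorem mark_iff (hD : Decoded G M e Adj pt) {p y : G.V} (hp : Pt G p) (hy : Pt G y) (hcl : Cl G p y)
    {w : G.V} {k : Fin M} :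
    Mark G p w y (e p k) ↔ ∃ c, relD G p (e p) w (nmP G (e y)) c ∧ k ∈ c := by
  unfold Mark relD
  simp only [hD.isName p y _ hp hy hcl]
  constructor
  · rintro ⟨c, h1, h2, h3, h4⟩
    exact ⟨nm2 G p (e p) c, ⟨c, h1, h2, h3, rfl⟩, h4⟩
  · rintro ⟨β, ⟨c, h1, h2, h3, rfl⟩, h4⟩
    exact ⟨c, h1, h2, h3, h4⟩

theorem rhoR_iff (hD : Decoded G M e Adj pt) {p0 p : G.V} (hp0 : Pt G p0) (hp : Pt G p)
    {w0 w : G.V} {i j : Fin M} :
    RhoR G r p0 p w0 w (e p0 i) (e p j) ↔ RhoS Adj (fun a b => r (pt a) (pt b)) (nmP G (e p0))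
      (nmP G (e p)) (relD G p0 (e p0) w0) (relD G p (e p) w) i j := by
  unfold RhoR RhoS
  constructor
  · rintro ⟨y, hy, y', hy', hr, hm, hm'⟩
    have hyP : Pt G y := by rcases hy with rfl | h; exacts [hp0, h.1]
    have hyP' : Pt G y' := by rcases hy' with rfl | h; exacts [hp, h.1]
    refine ⟨nmP G (e y), nmP G (e y'), ?_, ?_, ?_, ?_, ?_⟩
    · rcases hy with rfl | h
      · exact Or.inl rfl
      · exact Or.inr ((hD.adj' hp0 hyP).1 h.2)
    · rcases hy' with rfl | h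
      · exact Or.inl rfl
      · exact Or.inr ((hD.adj' hp hyP').1 h.2)
    · show r (pt (nmP G (e y))) (pt (nmP G (e y')))
      rw [hD.pt_nm y hyP, hD.pt_nm y' hyP']; exact hr
    · exact (mark_iff hD hp0 hyP hy).1 hm
    · exact (mark_iff hD hp hyP' hy').1 hm'
  · rintro ⟨b, b', hb, hb', hr, hm, hm'⟩
    have hc : Cl G p0 (pt b) := by
      rcases hb with h | h
      · left; rw [h, hD.pt_nm p0 hp0]
      · right; exact ⟨hD.pt_pt _, (hD.adj' hp0 (hD.pt_pt _)).2 (by rw [hD.nm_pt]; exact h)⟩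
    have hc' : Cl G p (pt b') := by
      rcases hb' with h | h
      · left; rw [h, hD.pt_nm p hp]
      · right; exact ⟨hD.pt_pt _, (hD.adj' hp (hD.pt_pt _)).2 (by rw [hD.nm_pt]; exact h)⟩
    refine ⟨pt b, hc, pt b', hc', hr, ?_, ?_⟩
    · rw [mark_iff hD hp0 (hD.pt_pt _) hc, hD.nm_pt]; exact hm
    · rw [mark_iff hD hp (hD.pt_pt _) hc', hD.nm_pt]; exact hm'

theorem mt_iff (hD : Decoded G M e Adj pt) {p0 p : G.V} (hp0 : Pt G p0) (hp : Pt G p)
    {w0 w : G.V} {i j : Fin M} :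
    Mt G r p0 p w0 w (e p0 i) (e p j) ↔ ∀ k, (RhoS Adj (fun a b => r (pt a) (pt b)) (nmP G (e p0))
      (nmP G (e p)) (relD G p0 (e p0) w0) (relD G p (e p) w) i k ↔ j ≤ k) := by
  unfold Mt
  rw [(hD.chart p hp).forall_num]
  refine forall_congr' fun k => ?_
  rw [rhoR_iff hD hp0 hp, (hD.chart p hp).le]

theorem rcomp_sound (hD : Decoded G M e Adj pt) {p0 p a : G.V} (hp0 : Pt G p0) (hp : Pt G p)
    (h : RComp G r p0 p a) : nmP G (e p) = nm1 G (e p0) a := by
  obtain ⟨w0, -, w, -, h1, h2, h3, h4⟩ := h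
  have hc0 := hD.chart p0 hp0
  have hc := hD.chart p hp
  have key := rel_id (fun i j => Mt G r p0 p w0 w (e p0 i) (e p j)) ?_ ?_ ?_
  · ext k
    exact (h4 _ (hc0.num k) _ (hc.num k) (key k)).symm
  · intro i
    obtain ⟨j, hj, h⟩ := h1 _ (hc0.num i)
    obtain ⟨l, rfl⟩ := hc.surj j hj
    exact ⟨l, h⟩
  · intro j
    obtain ⟨i, hi, h⟩ := h2 _ (hc.num j)
    obtain ⟨l, rfl⟩ := hc0.surj i hi
    exact ⟨l, h⟩
  · intro i i' j j' hii h h'
    exact (hc.le _ _).1 (h3 _ (hc0.num i) _ (hc0.num i') _ (hc.num j) _ (hc.num j')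
      ((hc0.le _ _).2 hii) h h')

theorem rcomp_complete (hB : Basic G) (hD : Decoded G M e Adj pt) {p0 p a : G.V} (hp0 : Pt G p0)
    (hp : Pt G p) (hcomp : CompS Adj (fun a b => r (pt a) (pt b)) (nmP G (e p0)) (nmP G (e p)))
    (ha : nmP G (e p) = nm1 G (e p0) a) : RComp G r p0 p a := by
  obtain ⟨R0, R, h⟩ := hcomp
  have hc0 := hD.chart p0 hp0
  have hc := hD.chart p hp
  obtain ⟨w0, hw0, hR0⟩ := surjR (hB.2.1 p0 hp0).1 hc0 R0
  obtain ⟨w, hw, hR⟩ := surjR (hB.2.1 p hp).1 hc R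
  have e0 : relD G p0 (e p0) w0 = R0 := by funext α β; exact propext (hR0 α β)
  have e1 : relD G p (e p) w = R := by funext α β; exact propext (hR α β)
  have key : ∀ i j, Mt G r p0 p w0 w (e p0 i) (e p j) ↔ i = j := by
    intro i j
    rw [mt_iff hD hp0 hp, e0, e1]
    constructor
    · intro hk
      apply le_antisymm
      · rw [← h, hk]
      · rw [← hk, h]
    · rintro rfl k
      exact h i k
  refine ⟨w0, hw0, w, hw, ?_, ?_, ?_, ?_⟩
  · intro i hi
    obtain ⟨k, rfl⟩ := hc0.surj i hi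
    exact ⟨e p k, hc.num k, (key k k).2 rfl⟩
  · intro i hi
    obtain ⟨k, rfl⟩ := hc.surj i hi
    exact ⟨e p0 k, hc0.num k, (key k k).2 rfl⟩
  · intro i hi i' hi' j hj j' hj' hle h1 h2
    obtain ⟨i, rfl⟩ := hc0.surj i hi
    obtain ⟨i', rfl⟩ := hc0.surj i' hi'
    obtain ⟨j, rfl⟩ := hc.surj j hj
    obtain ⟨j', rfl⟩ := hc.surj j' hj'
    rw [key] at h1 h2
    subst h1 h2
    rw [hc.le, ← hc0.le]
    exact hle
  · intro i hi j hj h1
    obtain ⟨i, rfl⟩ := hc0.surj i hi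
    obtain ⟨j, rfl⟩ := hc.surj j hj
    rw [key] at h1
    subst h1
    rw [← mem_nm1, ← ha]
    exact Iff.rfl

/-- the smaller and the larger lift of a point -/
theorem exists_minmax (hB : Basic G) (hr : SLO r) (p : G.V) :
    ∃ a b, Pt G p → (Lift G p a ∧ Lift G p b ∧ (∀ q, Lift G p q → q = a ∨ q = b) ∧ MinL G r p a ∧
      ¬ MinL G r p b) := by
  by_cases hp : Pt G p
  swap
  · exact ⟨p, p, fun h => absurd h hp⟩
  obtain ⟨q, hq, q', hq', hne, hall⟩ := (hB.2.1 p hp).2.2.2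
  have main : ∀ q q', Lift G p q → Lift G p q' → (∀ q'', Lift G p q'' → q'' = q ∨ q'' = q') → r q q' →
      ∃ a b, Pt G p → (Lift G p a ∧ Lift G p b ∧ (∀ q, Lift G p q → q = a ∨ q = b) ∧ MinL G r p a ∧
      ¬ MinL G r p b) := by
    intro q q' hq hq' hall hlt
    refine ⟨q, q', fun _ => ⟨hq, hq', hall, ?_, fun h => h q hq hlt⟩⟩
    intro q'' hq'' hlt'
    rcases hall q'' hq'' with rfl | rfl
    · exact hr.1 _ hlt'
    · exact hr.1 _ (hr.2.1 _ _ _ hlt hlt')
  rcases hr.2.2 q q' with h | h | h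
  · exact main q q' hq hq' hall h
  · exact absurd h hne
  · exact main q' q hq' hq (fun q'' h'' => (hall q'' h'').symm) h

theorem matching (hB : Basic G) {mn mx : G.V → G.V}
    (hmm : ∀ p, Pt G p → (Lift G p (mn p) ∧ Lift G p (mx p) ∧ (∀ q, Lift G p q → q = mn p ∨ q = mx p) ∧
      MinL G r p (mn p) ∧ ¬ MinL G r p (mx p)))
    {p p' q q' : G.V} (hp : Pt G p) (hp' : Pt G p') (hE : G.E p p') (hq : Lift G p q) (hq' : Lift G p' q') :
    G.E q q' ↔ (G.E (mn p) (mn p') ↔ (MinL G r p q ↔ MinL G r p' q')) := by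
  obtain ⟨hsym, hloc, htr, -⟩ := hB
  have m1 := (htr p hp p' hp' hE).2
  have m2 := (htr p' hp' p hp (hsym _ _ hE)).2
  obtain ⟨a1, a2, a3, a4, a5⟩ := hmm p hp
  obtain ⟨b1, b2, b3, b4, b5⟩ := hmm p' hp'
  have hne : mn p ≠ mx p := by intro h; rw [← h] at a5; exact a5 a4
  have hne' : mn p' ≠ mx p' := by intro h; rw [← h] at b5; exact b5 b4
  -- each lift is adjacent to exactly one lift
  have one : ∀ q, Lift G p q → (G.E q (mx p') ↔ ¬ G.E q (mn p')) := by
    intro q hq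
    constructor
    · intro h1 h2
      exact hne' (m1.2 q hq _ b1 _ b2 h2 h1)
    · intro h
      obtain ⟨q'', hq'', h''⟩ := m1.1 q hq
      rcases b3 q'' hq'' with rfl | rfl
      · exact absurd h'' h
      · exact h''
  have one' : G.E (mx p) (mn p') ↔ ¬ G.E (mn p) (mn p') := by
    constructor
    · intro h1 h2
      exact hne (m2.2 _ b1 _ a1 _ a2 (hsym _ _ h2) (hsym _ _ h1))
    · intro h
      obtain ⟨q'', hq'', h''⟩ := m2.1 _ b1
      rcases a3 q'' hq'' with rfl | rfl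
      · exact absurd (hsym _ _ h'') h
      · exact hsym _ _ h''
  rcases a3 q hq with rfl | rfl <;> rcases b3 q' hq' with rfl | rfl
  · tauto
  · rw [one _ a1]; tauto
  · rw [one']; tauto
  · rw [one _ a2, one']; tauto

theorem cocycle_min (hB : Basic G) (hD : Decoded G M e Adj pt) {mn mx : G.V → G.V}
    (hmm : ∀ p, Pt G p → (Lift G p (mn p) ∧ Lift G p (mx p) ∧ (∀ q, Lift G p q → q = mn p ∨ q = mx p) ∧
      MinL G r p (mn p) ∧ ¬ MinL G r p (mx p))) :
    Cocycle Adj (fun a b => G.E (mn (pt a)) (mn (pt b))) := by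
  have hsym := hB.1
  have hP := hD.pt_pt
  have step : ∀ a b q, Adj a b → Lift G (pt a) q → ∃ q', Lift G (pt b) q' ∧ G.E q q' ∧
      (G.E (mn (pt a)) (mn (pt b)) ↔ (MinL G r (pt a) q ↔ MinL G r (pt b) q')) := by
    intro a b q hab hq
    have hE := (hD.adj a b).2 hab
    obtain ⟨q', hq', h⟩ := (hB.2.2.1 _ (hP a) _ (hP b) hE).2.1 q hq
    exact ⟨q', hq', h, (matching hB hmm (hP a) (hP b) hE hq hq').1 h⟩
  refine ⟨fun a b _ => ⟨hsym _ _, hsym _ _⟩, ?_, ?_⟩
  · intro a b c hab hbc hca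
    have l1 := (hmm _ (hP a)).1
    have m1 := (hmm _ (hP a)).2.2.2.1
    obtain ⟨q2, l2, h2, z2⟩ := step a b _ hab l1
    obtain ⟨q3, l3, h3, z3⟩ := step b c _ hbc l2
    obtain ⟨q4, l4, h4, z4⟩ := step c a _ hca l3
    have := hB.2.2.2.2.1 _ (hP a) _ (hP b) _ (hP c) ((hD.adj _ _).2 hab) ((hD.adj _ _).2 hbc)
      ((hD.adj _ _).2 hca) _ l1 _ l2 _ l3 _ l4 h2 h3 h4
    subst this
    simp only [z2, z3, z4]
    tauto
  · intro a b c d hab hbc hcd hda
    have l1 := (hmm _ (hP a)).1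
    have m1 := (hmm _ (hP a)).2.2.2.1
    obtain ⟨q2, l2, h2, z2⟩ := step a b _ hab l1
    obtain ⟨q3, l3, h3, z3⟩ := step b c _ hbc l2
    obtain ⟨q4, l4, h4, z4⟩ := step c d _ hcd l3
    obtain ⟨q5, l5, h5, z5⟩ := step d a _ hda l4
    have := hB.2.2.2.2.2 _ (hP a) _ (hP b) _ (hP c) _ (hP d) ((hD.adj _ _).2 hab) ((hD.adj _ _).2 hbc)
      ((hD.adj _ _).2 hcd) ((hD.adj _ _).2 hda) _ l1 _ l2 _ l3 _ l4 _ l5 h2 h3 h4 h5
    subst this
    simp only [z2, z3, z4, z5]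
    tauto

end

/-- the main invariance statement -/
theorem phi0_iff {G : ColGraph 8} (hG : Guard G) (r : G.V → G.V → Prop) (hr : SLO r) :
    Phi0 G r ↔ HasSection G := by
  classical
  obtain ⟨M, e, Adj, pt, hD⟩ := exists_decoded hG
  obtain ⟨hB, -⟩ := hG
  choose mn mx hmm using exists_minmax hB hr
  have hP := hD.pt_pt
  have hcoc := cocycle_min hB hD hmm
  have hloc : ∀ p, Pt G p → LocFull G p := fun p hp => (hB.2.1 p hp).1
  constructor
  · rintro ⟨p0, hp0, o, ho, u, hu, hrob, hpt, hlift⟩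
    have hc0 := hD.chart p0 hp0
    rw [robustRaw_iff (hloc p0 hp0) hc0, hD.adj_eq p0 hp0] at hrob
    have htriv : TrivOn Adj (fun a b => G.E (mn (pt a)) (mn (pt b))) (fun α => relD G p0 (e p0) o α α) := by
      refine ⟨fun α => relD G p0 (e p0) u α α, ?_⟩
      intro α β hα hβ hαβ
      obtain ⟨a, ha, rfl, -⟩ := surjN (hloc p0 hp0) hc0 α ∅
      obtain ⟨b, hb, rfl, -⟩ := surjN (hloc p0 hp0) hc0 β ∅
      rw [← app_iff hc0] at hα hβ
      obtain ⟨p, hp, hpc⟩ := hpt a ha hα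
      obtain ⟨p', hp', hpc'⟩ := hpt b hb hβ
      have e1 := hD.eq_pt hp (rcomp_sound hD hp0 hp hpc)
      have e2 := hD.eq_pt hp' (rcomp_sound hD hp0 hp' hpc')
      have hE : G.E p p' := by rw [e1, e2]; exact (hD.adj _ _).2 hαβ
      obtain ⟨q', hq', hqq⟩ := (hB.2.2.1 p hp p' hp' hE).2.1 _ (hmm p hp).1
      have hl := hlift p hp p' hp' hE a ha b hb hα hβ hpc hpc' _ (hmm p hp).1 q' hq' hqq
      rw [app_iff hc0, app_iff hc0] at hl
      have hm := (matching hB hmm hp hp' hE (hmm p hp).1 hq').1 hqq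
      have h1 := (hmm p hp).2.2.2.1
      beta_reduce
      rw [← e1, ← e2]
      tauto
    obtain ⟨u', hu'⟩ := hrob _ hcoc htriv
    · refine ⟨fun p => if u' (nmP G (e p)) then mn p else mx p, ?_, ?_⟩
      · intro p hp
        by_cases h : u' (nmP G (e p))
        · simp only [h, if_true]; exact (hmm p hp).1
        · simp only [h, if_false]; exact (hmm p hp).2.1
      · intro p hp p' hp' hE
        have hz := hu' _ _ trivial trivial ((hD.adj' hp hp').1 hE)
        simp only [hD.pt_nm p hp, hD.pt_nm p' hp'] at hz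
        have hL : ∀ p, Pt G p → Lift G p (if u' (nmP G (e p)) then mn p else mx p) ∧
            (MinL G r p (if u' (nmP G (e p)) then mn p else mx p) ↔ u' (nmP G (e p))) := by
          intro p hp
          by_cases h : u' (nmP G (e p))
          · simp only [h, if_true]; exact ⟨(hmm p hp).1, by simp [(hmm p hp).2.2.2.1]⟩
          · simp only [h, if_false]; exact ⟨(hmm p hp).2.1, by simp [(hmm p hp).2.2.2.2]⟩
        rw [matching hB hmm hp hp' hE (hL p hp).1 (hL p' hp').1, hz, (hL p hp).2, (hL p' hp').2]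
  · rintro ⟨l, hl1, hl2⟩
    have ht : SLO (fun a b => r (pt a) (pt b)) := by
      refine ⟨fun a => hr.1 _, fun a b c => hr.2.1 _ _ _, fun a b => ?_⟩
      rcases hr.2.2 (pt a) (pt b) with h | h | h
      · exact Or.inl h
      · refine Or.inr (Or.inl ?_)
        rw [← hD.nm_pt a, h, hD.nm_pt]
      · exact Or.inr (Or.inr h)
    obtain ⟨a0, O, hO, hcomp⟩ := hD.good.2.2 _ ht
    have hp0 := hP a0
    have hc0 := hD.chart _ hp0
    obtain ⟨o, ho, hoR⟩ := surjR (hloc _ hp0) hc0 (fun α _ => O α)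
    obtain ⟨u, hu, huR⟩ := surjR (hloc _ hp0) hc0 (fun α _ => MinL G r (pt α) (l (pt α)))
    refine ⟨pt a0, hp0, o, ho, u, hu, ?_, ?_, ?_⟩
    · rw [robustRaw_iff (hloc _ hp0) hc0, hD.adj_eq _ hp0]
      have : (fun α => relD G (pt a0) (e (pt a0)) o α α) = O := by funext α; exact propext (hoR α α)
      rw [this]; exact hO
    · intro a ha hoa
      rw [app_iff hc0, hoR] at hoa
      refine ⟨pt (nm1 G (e (pt a0)) a), hP _, rcomp_complete hB hD hp0 (hP _) ?_ (hD.nm_pt _)⟩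
      rw [hD.nm_pt, hD.nm_pt]
      exact hcomp _ hoa
    · intro p hp p' hp' hE a ha a' ha' _ _ hpc hpc' q hq q' hq' hqq
      have e1 := hD.eq_pt hp (rcomp_sound hD hp0 hp hpc)
      have e2 := hD.eq_pt hp' (rcomp_sound hD hp0 hp' hpc')
      rw [app_iff hc0, app_iff hc0, huR, huR, ← e1, ← e2]
      have h1 := (matching hB hmm hp hp' hE hq hq').1 hqq
      have h2 := (matching hB hmm hp hp' hE (hl1 p hp) (hl1 p' hp')).1 (hl2 p hp p' hp' hE)
      tauto

end Pool.Agent.H266_hanf
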