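import Pool.Agent.H266_hanf.Fam
import Pool.Agent.H266_hanf.Inv
import Pool.Agent.H266_hanf.HanfEq
import Pool.Agent.H266_hanf.ConcBasic

/-! The disproof of Hanf locality for order-invariant first-order logic: assembly. -/

namespace Pool.Agent.H266_hanf

/-- the strict part of a linear order is a strict linear order -/
theorem slo_lt {X : Type*} (o : LinearOrder X) : SLO o.lt := by
  refine ⟨fun a => lt_irrefl a, fun a b c => lt_trans, fun a b => ?_⟩
  rcases lt_trichotomy a b with h | h | h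
  · exact Or.inl h
  · exact Or.inr (Or.inl h)
  · exact Or.inr (Or.inr h)

/-- the concrete graph satisfies the guard -/
theorem conc_guard (M : ℕ) (Adj e : Set (Fin M) → Set (Fin M) → Prop)
    (hg : Good M Adj) (hi : ∀ a, ¬ Adj a a) (he : Cocycle Adj e) : Guard (conc M Adj e) := by
  have hs := hg.1
  have hB := conc_basic M Adj e hs hi he
  refine ⟨hB, fun p hp => ?_⟩
  obtain ⟨x, rfl⟩ := (B1.pt_iff p).1 hp
  rw [goodRaw_iff (hB.2.1 _ hp).1 (conc_chart M Adj e hs hi x)]
  have : adjD (conc M Adj e) (Vtx.pt x : Vtx M) (fun k => (Vtx.num x k : Vtx M)) = Adj := by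
    funext α β
    exact propext (conc_adjD M Adj e hs hi x α β)
  rw [this]
  exact hg

theorem ball_transport {X Y : Type*} (f : X ≃ Y) (Adj : X → X → Prop) (x : Y) (n : ℕ) (y : Y) :
    ball (fun a b => Adj (f.symm a) (f.symm b)) x n y ↔ ball Adj (f.symm x) n (f.symm y) := by
  induction n generalizing y with
  | zero =>
    show y = x ↔ f.symm y = f.symm x
    exact f.symm.injective.eq_iff.symm
  | succ n ih =>
    constructor
    · rintro ⟨z, hz, h⟩
      refine ⟨f.symm z, (ih z).1 hz, ?_⟩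
      rcases h with h | h
      · exact Or.inl (congrArg f.symm h)
      · exact Or.inr h
    · rintro ⟨z, hz, h⟩
      refine ⟨f z, (ih (f z)).2 (by simpa using hz), ?_⟩
      rcases h with h | h
      · exact Or.inl (by rw [← h]; simp)
      · exact Or.inr (by simpa using h)

/-- the family over names -/
theorem family_names (d : ℕ) : ∃ (M : ℕ) (Adj s : Set (Fin M) → Set (Fin M) → Prop),
    Good M Adj ∧ (∀ a, ¬ Adj a a) ∧ Cocycle Adj s ∧ ¬ TrivOn Adj s (fun _ => True) ∧
    ∀ x, ∃ τ : Set (Fin M) → Prop, τ x ∧ ∀ y y', ball Adj x d y → ball Adj x d y' → Adj y y' →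
      (s y y' ↔ (τ y ↔ τ y')) := by
  classical
  obtain ⟨M, X, _, Adj, s, hX, hs, hi, hc, ht, hcs, hns, hb⟩ := family d
  have hcard : Fintype.card X = Fintype.card (Set (Fin M)) := by
    rw [hX, Fintype.card_set, Fintype.card_fin]
  let f : X ≃ Set (Fin M) := Fintype.equivOfCardEq hcard
  refine ⟨M, fun a b => Adj (f.symm a) (f.symm b), fun a b => s (f.symm a) (f.symm b),
    good_of_equiv f Adj hs hc ht, fun a => hi _, ?_, ?_, ?_⟩
  · exact ⟨fun a b => hcs.1 _ _, fun a b c => hcs.2.1 _ _ _, fun a b c d => hcs.2.2 _ _ _ _⟩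
  · rintro ⟨u, hu⟩
    apply hns
    refine ⟨fun a => u (f a), fun a b _ _ hab => ?_⟩
    have := hu (f a) (f b) trivial trivial (by simpa using hab)
    simpa using this
  · intro x
    obtain ⟨τ, h1, h2⟩ := hb (f.symm x)
    refine ⟨fun y => τ (f.symm y), h1, fun y y' hy hy' hyy' => ?_⟩
    exact h2 _ _ ((ball_transport f Adj x d y).1 hy) ((ball_transport f Adj x d y').1 hy') hyy'

theorem main : ∃ φ : (OGLang 8).Sentence, OrderInvariant φ ∧
    ∀ d : ℕ, ∃ G H : ColGraph 8, IsSimple G ∧ IsSimple H ∧ HanfEquiv d G H ∧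
      GraphProp φ G ∧ ¬ GraphProp φ H := by
  obtain ⟨φ, hφ⟩ := exists_sentence
  have key : ∀ (G : ColGraph 8) (o : LinearOrder G.V), Models G o.lt φ ↔ (Guard G ∧ HasSection G) := by
    intro G o
    rw [hφ]
    exact and_congr_right fun hG => phi0_iff hG _ (slo_lt o)
  refine ⟨φ, fun G o₁ o₂ => (key G o₁).trans (key G o₂).symm, fun d => ?_⟩
  obtain ⟨M, Adj, s, hg, hi, hcs, hns, hb⟩ := family_names d
  have hct : Cocycle Adj (fun _ _ => True) :=
    ⟨fun _ _ _ => Iff.rfl, fun _ _ _ _ _ _ => by simp, fun _ _ _ _ _ _ _ _ => by simp⟩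
  refine ⟨conc M Adj (fun _ _ => True), conc M Adj s, conc_simple M Adj _ hi, conc_simple M Adj _ hi,
    conc_hanf M Adj s hg.1 hcs.1 d hb, ?_, ?_⟩
  · obtain ⟨n, ⟨g⟩⟩ := @Finite.exists_equiv_fin _ (conc M Adj (fun _ _ => True)).fin
    let o : LinearOrder (conc M Adj (fun _ _ => True)).V := LinearOrder.lift' g g.injective
    refine ⟨o, (key _ o).2 ⟨conc_guard M Adj _ hg hi hct, ?_⟩⟩
    rw [conc_section M Adj _ hg.1 hct.1]
    exact ⟨fun _ => True, fun _ _ _ _ _ => by simp⟩
  · rintro ⟨o, ho⟩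
    have h := ((key _ o).1 ho).2
    rw [conc_section M Adj _ hg.1 hcs.1] at h
    exact hns h

end Pool.Agent.H266_hanf
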