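import Mathlib

/-! Lemma job of MP_6f75b7_lc, proved by helper627. -/

namespace Pool.Agent.H266_hanf

namespace MixAux

open Matrix Finset

variable {F : Type*} [Field F] [Fintype F] [DecidableEq F] {m : ℕ}

/-- the vectors `v` with `χ(u vᵀ) = 1` for every `u` -/
def ker (χ : AddChar (Matrix (Fin m) (Fin m) F) ℂ) : Submodule F (Fin m → F) where
  carrier := {v | ∀ u : Fin m → F, χ (vecMulVec u v) = 1}
  zero_mem' := by
    intro u
    have : vecMulVec u (0 : Fin m → F) = 0 := by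
      ext i j; simp [vecMulVec_apply]
    rw [this, AddChar.map_zero_eq_one]
  add_mem' := by
    intro a b ha hb u
    rw [vecMulVec_add, AddChar.map_add_eq_mul, ha u, hb u, one_mul]
  smul_mem' := by
    intro c v hv u
    rw [vecMulVec_smul, ← smul_vecMulVec]
    exact hv _

/-- `u ↦ u vᵀ` -/
def vm (v : Fin m → F) : (Fin m → F) →+ Matrix (Fin m) (Fin m) F where
  toFun u := vecMulVec u v
  map_zero' := by ext i j; simp [vecMulVec_apply]
  map_add' a b := add_vecMulVec a b v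

open Classical in
theorem inner_sum (χ : AddChar (Matrix (Fin m) (Fin m) F) ℂ) (v : Fin m → F) :
    ∑ u : Fin m → F, χ (vecMulVec u v) =
      if v ∈ ker χ then (Fintype.card F : ℂ) ^ m else 0 := by
  have h := AddChar.sum_eq_ite (χ.compAddMonoidHom (vm v))
  have e : ∀ u, (χ.compAddMonoidHom (vm v)) u = χ (vecMulVec u v) := fun u => rfl
  simp only [e] at h
  rw [h]
  have h2 : (χ.compAddMonoidHom (vm v) = 0) ↔ v ∈ ker χ := by
    constructor
    · intro h3 u
      rw [← e u, h3]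
      rfl
    · intro h3
      ext u
      rw [e u, h3 u]
      rfl
  simp only [h2]
  split_ifs
  · simp
  · rfl

theorem all_one {χ : AddChar (Matrix (Fin m) (Fin m) F) ℂ} (h : ker χ = ⊤) : χ = 0 := by
  ext M
  have h1 : M = ∑ i, vecMulVec (Pi.single i (1 : F)) (M i) := by
    ext i j
    rw [Matrix.sum_apply, Finset.sum_eq_single i]
    · rw [vecMulVec_apply, Pi.single_eq_same, one_mul]
    · intro k _ hk
      rw [vecMulVec_apply, Pi.single_eq_of_ne hk.symm, zero_mul]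
    · intro h2; exact absurd (Finset.mem_univ i) h2
  rw [h1]
  refine Finset.sum_induction _ (fun N => χ N = (0 : AddChar (Matrix (Fin m) (Fin m) F) ℂ) N)
    ?_ ?_ ?_
  · intro a b ha hb
    rw [AddChar.map_add_eq_mul, AddChar.map_add_eq_mul, ha, hb]
  · rw [AddChar.map_zero_eq_one, AddChar.map_zero_eq_one]
  · intro i _
    have h2 : (M i) ∈ ker χ := by rw [h]; exact Submodule.mem_top
    rw [h2 (Pi.single i 1)]
    rfl

/-- the sum over the rank one matrices -/
noncomputable def kap (χ : AddChar (Matrix (Fin m) (Fin m) F) ℂ) : ℂ :=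
  ∑ v : Fin m → F, ∑ u : Fin m → F, χ (vecMulVec u v)

theorem kap_bound {χ : AddChar (Matrix (Fin m) (Fin m) F) ℂ} (h : χ ≠ 0) :
    ‖kap χ‖ * (Fintype.card F : ℝ) ≤ (Fintype.card F : ℝ) ^ (2 * m) := by
  classical
  have h1 : kap χ = (Fintype.card (ker χ) : ℂ) * (Fintype.card F : ℂ) ^ m := by
    unfold kap
    simp only [inner_sum]
    rw [← Finset.sum_filter, Finset.sum_const, nsmul_eq_mul]
    congr 2
    rw [Fintype.card_subtype]
  rw [h1, norm_mul, norm_pow, Complex.norm_natCast, Complex.norm_natCast]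
  have h2 : ker χ ≠ ⊤ := fun h3 => h (all_one h3)
  have h3 := Submodule.finrank_lt h2
  rw [Module.finrank_fin_fun] at h3
  have h4 : Fintype.card (ker χ) = Fintype.card F ^ Module.finrank F (ker χ) :=
    Module.card_eq_pow_finrank
  have hq : 1 ≤ Fintype.card F := Fintype.card_pos
  have h5 : Fintype.card (ker χ) * Fintype.card F ≤ Fintype.card F ^ m := by
    rw [h4, ← pow_succ]
    exact Nat.pow_le_pow_right hq h3
  have h6 : (Fintype.card (ker χ) : ℝ) * Fintype.card F ≤ (Fintype.card F : ℝ) ^ m := by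
    exact_mod_cast h5
  calc (Fintype.card (ker χ) : ℝ) * (Fintype.card F : ℝ) ^ m * Fintype.card F
      = (Fintype.card (ker χ) : ℝ) * Fintype.card F * (Fintype.card F : ℝ) ^ m := by ring
    _ ≤ (Fintype.card F : ℝ) ^ m * (Fintype.card F : ℝ) ^ m :=
        mul_le_mul_of_nonneg_right h6 (by positivity)
    _ = (Fintype.card F : ℝ) ^ (2 * m) := by rw [two_mul, pow_add]

/-- Parseval -/
theorem parseval {V : Type*} [AddCommGroup V] [Fintype V] [DecidableEq V] (S : Finset V) :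
    ∑ χ : AddChar V ℂ, ‖∑ a ∈ S, χ a‖ ^ 2 = (Fintype.card V : ℝ) * S.card := by
  have h : (∑ χ : AddChar V ℂ, ((‖∑ a ∈ S, χ a‖ ^ 2 : ℝ) : ℂ)) = (Fintype.card V : ℂ) * S.card := by
    have e : ∀ χ : AddChar V ℂ, ((‖∑ a ∈ S, χ a‖ ^ 2 : ℝ) : ℂ) = ∑ a ∈ S, ∑ b ∈ S, χ (a - b) := by
      intro χ
      rw [Complex.ofReal_pow, ← Complex.mul_conj', map_sum, Finset.sum_mul_sum]
      refine Finset.sum_congr rfl fun a _ => Finset.sum_congr rfl fun b _ => ?_
      rw [← AddChar.map_neg_eq_conj, ← AddChar.map_add_eq_mul, sub_eq_add_neg]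
    simp only [e]
    rw [Finset.sum_comm]
    have e2 : ∀ a ∈ S, ∑ χ : AddChar V ℂ, ∑ b ∈ S, χ (a - b) = (Fintype.card V : ℂ) := by
      intro a ha
      rw [Finset.sum_comm]
      simp only [AddChar.sum_apply_eq_ite, sub_eq_zero]
      rw [Finset.sum_ite_eq, if_pos ha]
    rw [Finset.sum_congr rfl e2, Finset.sum_const, nsmul_eq_mul, mul_comm]
  have h2 : ((∑ χ : AddChar V ℂ, ‖∑ a ∈ S, χ a‖ ^ 2 : ℝ) : ℂ) =
      (((Fintype.card V : ℝ) * S.card : ℝ) : ℂ) := by
    push_cast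
    push_cast at h
    exact h
  exact Complex.ofReal_injective h2

end MixAux

open MixAux in
theorem mixing {F : Type*} [Field F] [Fintype F] [DecidableEq F] (m : ℕ)
    (A B : Finset (Matrix (Fin m) (Fin m) F))
    (h : ∀ a ∈ A, ∀ b ∈ B, ∀ u v : Fin m → F, a - b ≠ Matrix.vecMulVec u v) :
    A.card * B.card * (Fintype.card F) ^ 2 ≤ (Fintype.card (Matrix (Fin m) (Fin m) F)) ^ 2 := by
  classical
  set q : ℝ := (Fintype.card F : ℝ) with hq
  have hq0 : 0 < q := by
    rw [hq]; exact_mod_cast Fintype.card_pos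
  set Vc : ℝ := (Fintype.card (Matrix (Fin m) (Fin m) F) : ℝ) with hVc
  have hV0 : 0 ≤ Vc := by rw [hVc]; positivity
  -- the vanishing sum
  have hT : ∑ χ : AddChar (Matrix (Fin m) (Fin m) F) ℂ,
      (∑ a ∈ A, χ a) * (∑ b ∈ B, χ (-b)) * kap χ = 0 := by
    have e : ∀ χ : AddChar (Matrix (Fin m) (Fin m) F) ℂ,
        (∑ a ∈ A, χ a) * (∑ b ∈ B, χ (-b)) * kap χ =
        ∑ a ∈ A, ∑ b ∈ B, ∑ v : Fin m → F, ∑ u : Fin m → F,
          χ (a - b + Matrix.vecMulVec u v) := by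
      intro χ
      unfold kap
      rw [Finset.sum_mul_sum, Finset.sum_mul]
      refine Finset.sum_congr rfl fun a _ => ?_
      rw [Finset.sum_mul]
      refine Finset.sum_congr rfl fun b _ => ?_
      rw [Finset.mul_sum]
      refine Finset.sum_congr rfl fun v _ => ?_
      rw [Finset.mul_sum]
      refine Finset.sum_congr rfl fun u _ => ?_
      rw [← AddChar.map_add_eq_mul, ← AddChar.map_add_eq_mul, sub_eq_add_neg]
    simp only [e]
    rw [Finset.sum_comm]
    refine Finset.sum_eq_zero fun a ha => ?_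
    rw [Finset.sum_comm]
    refine Finset.sum_eq_zero fun b hb => ?_
    rw [Finset.sum_comm]
    refine Finset.sum_eq_zero fun v _ => ?_
    rw [Finset.sum_comm]
    refine Finset.sum_eq_zero fun u _ => ?_
    rw [AddChar.sum_apply_eq_ite, if_neg]
    intro h0
    apply h a ha b hb (-u) v
    rw [Matrix.neg_vecMulVec]
    exact eq_neg_of_add_eq_zero_left h0
  -- the trivial character
  have h0 : (∑ a ∈ A, (0 : AddChar (Matrix (Fin m) (Fin m) F) ℂ) a) *
      (∑ b ∈ B, (0 : AddChar (Matrix (Fin m) (Fin m) F) ℂ) (-b)) *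
      kap (0 : AddChar (Matrix (Fin m) (Fin m) F) ℂ) =
      ((A.card * B.card * q ^ (2 * m) : ℝ) : ℂ) := by
    unfold kap
    simp only [AddChar.zero_apply, Finset.sum_const, nsmul_eq_mul, mul_one, Finset.card_univ,
      Fintype.card_fun, Fintype.card_fin]
    rw [hq]
    push_cast
    rw [two_mul, pow_add]
  rw [← Finset.add_sum_erase _ _ (Finset.mem_univ (0 : AddChar (Matrix (Fin m) (Fin m) F) ℂ)),
    h0] at hT
  have h1 : (A.card * B.card * q ^ (2 * m) : ℝ) ≤
      ∑ χ ∈ Finset.univ.erase (0 : AddChar (Matrix (Fin m) (Fin m) F) ℂ),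
        ‖∑ a ∈ A, χ a‖ * ‖∑ b ∈ B, χ b‖ * ‖kap χ‖ := by
    have h2 := eq_neg_of_add_eq_zero_left hT
    have h3 : ‖((A.card * B.card * q ^ (2 * m) : ℝ) : ℂ)‖ = A.card * B.card * q ^ (2 * m) := by
      rw [Complex.norm_real, Real.norm_of_nonneg (by positivity)]
    rw [← h3, h2, norm_neg]
    refine (norm_sum_le _ _).trans (Finset.sum_le_sum fun χ _ => ?_)
    rw [norm_mul, norm_mul]
    have e : ∑ b ∈ B, χ (-b) = (starRingEnd ℂ) (∑ b ∈ B, χ b) := by
      rw [map_sum]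
      exact Finset.sum_congr rfl fun b _ => AddChar.map_neg_eq_conj χ b
    rw [e, RCLike.norm_conj]
  have h2 : (A.card * B.card * q ^ (2 * m) : ℝ) * q ≤
      (∑ χ : AddChar (Matrix (Fin m) (Fin m) F) ℂ, ‖∑ a ∈ A, χ a‖ * ‖∑ b ∈ B, χ b‖) *
        q ^ (2 * m) := by
    refine (mul_le_mul_of_nonneg_right h1 hq0.le).trans ?_
    rw [Finset.sum_mul]
    calc ∑ χ ∈ Finset.univ.erase (0 : AddChar (Matrix (Fin m) (Fin m) F) ℂ),
          ‖∑ a ∈ A, χ a‖ * ‖∑ b ∈ B, χ b‖ * ‖kap χ‖ * q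
        ≤ ∑ χ ∈ Finset.univ.erase (0 : AddChar (Matrix (Fin m) (Fin m) F) ℂ),
          ‖∑ a ∈ A, χ a‖ * ‖∑ b ∈ B, χ b‖ * q ^ (2 * m) := by
          refine Finset.sum_le_sum fun χ hχ => ?_
          rw [mul_assoc]
          exact mul_le_mul_of_nonneg_left (kap_bound (Finset.ne_of_mem_erase hχ)) (by positivity)
      _ ≤ ∑ χ : AddChar (Matrix (Fin m) (Fin m) F) ℂ,
          ‖∑ a ∈ A, χ a‖ * ‖∑ b ∈ B, χ b‖ * q ^ (2 * m) :=
          Finset.sum_le_sum_of_subset_of_nonneg (Finset.erase_subset _ _)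
            fun _ _ _ => by positivity
      _ = _ := by rw [Finset.sum_mul]
  have h3 : (A.card * B.card : ℝ) * q ≤
      ∑ χ : AddChar (Matrix (Fin m) (Fin m) F) ℂ, ‖∑ a ∈ A, χ a‖ * ‖∑ b ∈ B, χ b‖ := by
    have hp : 0 < q ^ (2 * m) := by positivity
    refine le_of_mul_le_mul_right ?_ hp
    linarith
  have h4 := Finset.sum_mul_sq_le_sq_mul_sq (Finset.univ : Finset (AddChar (Matrix (Fin m) (Fin m) F) ℂ))
    (fun χ => ‖∑ a ∈ A, χ a‖) (fun χ => ‖∑ b ∈ B, χ b‖)
  rw [parseval, parseval] at h4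
  have h5 : ((A.card * B.card : ℝ) * q) ^ 2 ≤ Vc * A.card * (Vc * B.card) :=
    (pow_le_pow_left₀ (by positivity) h3 2).trans h4
  have h6 : (A.card * B.card : ℝ) * q ^ 2 ≤ Vc ^ 2 := by
    rcases eq_or_ne ((A.card : ℝ) * B.card) 0 with h7 | h7
    · rw [h7, zero_mul]; positivity
    · have h8 : 0 < (A.card : ℝ) * B.card := lt_of_le_of_ne (by positivity) h7.symm
      refine le_of_mul_le_mul_left ?_ h8
      nlinarith
  rw [hVc, hq] at h6
  exact_mod_cast h6

end Pool.Agent.H266_hanf
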