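import Pool.Agent.H266_hanf.Decode

/-! The guard forces the points to be the names of one graph. -/

namespace Pool.Agent.H266_hanf

variable {G : ColGraph 8}

theorem chart_unique {p : G.V} {M : ℕ} {e e' : Fin M → G.V} (h1 : Chart G p M e) (h2 : Chart G p M e') :
    e = e' := by
  choose f hf using fun k => h1.surj (e' k) (h2.num k)
  have hle : ∀ k l, f k ≤ f l ↔ k ≤ l := by
    intro k l
    rw [← h1.le, hf, hf, h2.le]
  have hmono : StrictMono f := by
    intro k l hkl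
    rw [← not_le, hle]
    exact not_le.2 hkl
  have : f = id := le_antisymm hmono.le_id hmono.id_le
  funext k
  rw [← hf k, this]; rfl

/-- charts of adjacent points -/
theorem transport (hB : Basic G) {p p' : G.V} (hp : Pt G p) (hp' : Pt G p') (hE : G.E p p') {M : ℕ}
    {e : Fin M → G.V} (hc : Chart G p M e) :
    ∃ e' : Fin M → G.V, Chart G p' M e' ∧ ∀ k l, G.E (e k) (e' l) ↔ k = l := by
  obtain ⟨hsym, hloc, htr, -⟩ := hB
  have hf' := (hloc p' hp').1
  obtain ⟨⟨t1, t2, -, -⟩, -⟩ := htr p hp p' hp' hE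
  obtain ⟨⟨s1, s2, -, -⟩, -⟩ := htr p' hp' p hp (hsym _ _ hE)
  choose e' he' hE' using fun k => t1 (e k) (hc.num k)
  have hfun : ∀ k i', Num G p' i' → G.E (e k) i' → i' = e' k := by
    intro k i' hi' h
    exact hf'.2.1 _ hi' _ (he' k) (t2 _ (hc.num k) _ (hc.num k) _ hi' _ (he' k) h (hE' k) (Le.refl _))
      (t2 _ (hc.num k) _ (hc.num k) _ (he' k) _ hi' (hE' k) h (Le.refl _))
  have hch : Chart G p' M e' := by
    refine ⟨he', ?_, ?_⟩
    · intro i' hi'
      obtain ⟨i, hi, h⟩ := s1 i' hi'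
      obtain ⟨k, rfl⟩ := hc.surj i hi
      exact ⟨k, (hfun k i' hi' (hsym _ _ h)).symm⟩
    · intro a b
      rw [← hc.le]
      constructor
      · intro h
        exact s2 _ (he' a) _ (he' b) _ (hc.num a) _ (hc.num b) (hsym _ _ (hE' a)) (hsym _ _ (hE' b)) h
      · intro h
        exact t2 _ (hc.num a) _ (hc.num b) _ (he' a) _ (he' b) (hE' a) (hE' b) h
  refine ⟨e', hch, fun k l => ⟨fun h => ?_, fun h => h ▸ hE' k⟩⟩
  exact (hch.inj (hfun k _ (he' l) h)).symm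

theorem transport' (hB : Basic G) {p p' : G.V} (hp : Pt G p) (hp' : Pt G p') (hE : G.E p p') {M : ℕ}
    {e e' : Fin M → G.V} (hc : Chart G p M e) (hc' : Chart G p' M e') (k l : Fin M) :
    G.E (e k) (e' l) ↔ k = l := by
  obtain ⟨e'', h1, h2⟩ := transport hB hp hp' hE hc
  rw [chart_unique hc' h1]
  exact h2 k l

theorem adj_transport_le (hB : Basic G) {p p' : G.V} (hp : Pt G p) (hp' : Pt G p') (hE : G.E p p') {M : ℕ}
    {e e' : Fin M → G.V} (hc : Chart G p M e) (hc' : Chart G p' M e') (α β : Set (Fin M))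
    (h : adjD G p e α β) : adjD G p' e' α β := by
  have htp := transport' hB hp hp' hE hc hc'
  obtain ⟨-, hloc, htr, -⟩ := hB
  obtain ⟨⟨-, -, t3, -⟩, -⟩ := htr p hp p' hp' hE
  obtain ⟨a, ha, rfl, -⟩ := surjN (hloc p hp).1 hc α ∅
  obtain ⟨b, hb, rfl, -⟩ := surjN (hloc p hp).1 hc β ∅
  obtain ⟨a', ha', ha1, -⟩ := surjN (hloc p' hp').1 hc' (nm1 G e a) ∅
  obtain ⟨b', hb', hb1, -⟩ := surjN (hloc p' hp').1 hc' (nm1 G e b) ∅
  have := t3 a ha b hb a' ha' b' hb' ?_ ((adjR_iff hc).2 h)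
  · rw [adjR_iff hc', ha1, hb1] at this
    exact this
  · intro i hi i' hi' hii
    obtain ⟨k, rfl⟩ := hc.surj i hi
    obtain ⟨l, rfl⟩ := hc'.surj i' hi'
    rw [htp] at hii
    subst hii
    rw [← mem_nm1, ← mem_nm1, ← mem_nm1, ← mem_nm1, ha1, hb1]
    exact ⟨Iff.rfl, Iff.rfl⟩

theorem adj_transport (hB : Basic G) {p p' : G.V} (hp : Pt G p) (hp' : Pt G p') (hE : G.E p p') {M : ℕ}
    {e e' : Fin M → G.V} (hc : Chart G p M e) (hc' : Chart G p' M e') :
    adjD G p e = adjD G p' e' := by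
  funext α β
  exact propext ⟨adj_transport_le hB hp hp' hE hc hc' α β,
    adj_transport_le hB hp' hp (hB.1 _ _ hE) hc' hc α β⟩

/-- the name of a point, in terms of a chart -/
def nmP (G : ColGraph 8) {M : ℕ} (e : Fin M → G.V) : Set (Fin M) := {k | One G (e k)}

theorem bit_iff (hB : Basic G) {p y : G.V} (hp : Pt G p) (hy : Pt G y) (hcl : Cl G p y) {M : ℕ}
    {e e' : Fin M → G.V} (hc : Chart G p M e) (hc' : Chart G y M e') (k : Fin M) :
    Bit G p y (e k) ↔ k ∈ nmP G e' := by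
  unfold Bit nmP
  rw [Set.mem_ofPred_eq]
  constructor
  · rintro ⟨i', hi', h | h, ho⟩
    · obtain ⟨rfl, rfl⟩ := h
      rw [chart_unique hc' hc]; exact ho
    · obtain ⟨l, rfl⟩ := hc'.surj i' hi'
      have := (transport' hB hp hy h.2.1 hc hc' k l).1 h.2.2
      subst this; exact ho
  · intro ho
    refine ⟨e' k, hc'.num k, ?_, ho⟩
    rcases hcl with h | h
    · subst h
      left; exact ⟨rfl, by rw [chart_unique hc' hc]⟩
    · right
      exact ⟨h.1, h.2, (transport' hB hp hy h.2 hc hc' k k).2 rfl⟩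

theorem isName_iff (hB : Basic G) {p y : G.V} (hp : Pt G p) (hy : Pt G y) (hcl : Cl G p y) {M : ℕ}
    {e e' : Fin M → G.V} (hc : Chart G p M e) (hc' : Chart G y M e') {a : G.V} :
    IsName G p y a ↔ nm1 G e a = nmP G e' := by
  unfold IsName
  rw [hc.forall_num, Set.ext_iff]
  refine forall_congr' fun k => ?_
  rw [bit_iff hB hp hy hcl hc hc', mem_nm1]

theorem isRoot_iff {p : G.V} {M : ℕ} {e : Fin M → G.V} (hc : Chart G p M e) :
    IsRoot G p ↔ nmP G e = ∅ := by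
  unfold IsRoot
  rw [hc.forall_num, Set.eq_empty_iff_forall_notMem]
  rfl

def Reach (G : ColGraph 8) : G.V → G.V → Prop :=
  Relation.ReflTransGen (fun a b => Pt G a ∧ Pt G b ∧ G.E a b)

theorem Reach.pt {p p' : G.V} (hp : Pt G p) (h : Reach G p p') : Pt G p' := by
  induction h with
  | refl => exact hp
  | tail _ h2 _ => exact h2.2.1

theorem reach_chart (hB : Basic G) {p p' : G.V} (hp : Pt G p) (h : Reach G p p') {M : ℕ}
    {e : Fin M → G.V} (hc : Chart G p M e) :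
    ∃ e' : Fin M → G.V, Chart G p' M e' ∧ adjD G p' e' = adjD G p e := by
  induction h with
  | refl => exact ⟨e, hc, rfl⟩
  | tail h1 h2 ih =>
    obtain ⟨e1, hc1, ha1⟩ := ih
    obtain ⟨e2, hc2, -⟩ := transport hB h2.1 h2.2.1 h2.2.2 hc1
    exact ⟨e2, hc2, by rw [← ha1, adj_transport hB h2.1 h2.2.1 h2.2.2 hc1 hc2]⟩

/-- every point is connected with the root -/
theorem reach_root (hG : Guard G) {p ρ : G.V} (hp : Pt G p)
    (hρ : ∀ p', Pt G p' → IsRoot G p' → p' = ρ) : Reach G p ρ := by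
  obtain ⟨hB, hgood⟩ := hG
  have hloc := hB.2.1
  obtain ⟨M, e, hc⟩ := exists_chart (hloc p hp).1
  have hg := (goodRaw_iff (hloc p hp).1 hc).1 (hgood p hp)
  have := hg.2.1 (fun α => ∃ p', Reach G p p' ∧ ∃ e' : Fin M → G.V, Chart G p' M e' ∧ nmP G e' = α)
    ⟨_, p, Relation.ReflTransGen.refl, e, hc, rfl⟩ ?_ ∅
  · obtain ⟨p', hr, e', hc', hn⟩ := this
    have : IsRoot G p' := (isRoot_iff hc').2 hn
    rw [← hρ p' (hr.pt hp) this]
    exact hr
  · rintro α β ⟨p', hr, e', hc', rfl⟩ hadj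
    have hp' := hr.pt hp
    obtain ⟨e'', hc'', had⟩ := reach_chart hB hp hr hc
    rw [chart_unique hc'' hc'] at had
    rw [← had] at hadj
    obtain ⟨a, ha, ha1, -⟩ := surjN (hloc p' hp').1 hc' (nmP G e') ∅
    obtain ⟨b, hb, rfl, -⟩ := surjN (hloc p' hp').1 hc' β ∅
    obtain ⟨p'', hp'', hE, hn⟩ := (hloc p' hp').2.1 a ha b hb
      ((isName_iff hB hp' hp' (Or.inl rfl) hc' hc').2 ha1)
      ((adjR_iff hc').2 (by rw [ha1]; exact hadj))
    obtain ⟨e3, hc3, -⟩ := transport hB hp' hp'' hE hc'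
    refine ⟨p'', hr.tail ⟨hp', hp'', hE⟩, e3, hc3, ?_⟩
    exact ((isName_iff hB hp' hp'' (Or.inr ⟨hp'', hE⟩) hc' hc3).1 hn).symm

/-- the decoded structure -/
structure Decoded (G : ColGraph 8) (M : ℕ) (e : G.V → Fin M → G.V)
    (Adj : Set (Fin M) → Set (Fin M) → Prop) (pt : Set (Fin M) → G.V) : Prop where
  chart : ∀ p, Pt G p → Chart G p M (e p)
  adj_eq : ∀ p, Pt G p → adjD G p (e p) = Adj
  pt_pt : ∀ α, Pt G (pt α)
  nm_pt : ∀ α, nmP G (e (pt α)) = α
  pt_nm : ∀ p, Pt G p → pt (nmP G (e p)) = p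
  adj : ∀ α β, G.E (pt α) (pt β) ↔ Adj α β
  isName : ∀ p y a, Pt G p → Pt G y → Cl G p y → (IsName G p y a ↔ nm1 G (e p) a = nmP G (e y))
  good : Good M Adj

theorem exists_decoded (hG : Guard G) : ∃ (M : ℕ) (e : G.V → Fin M → G.V)
    (Adj : Set (Fin M) → Set (Fin M) → Prop) (pt : Set (Fin M) → G.V), Decoded G M e Adj pt := by
  classical
  have hG' := hG
  obtain ⟨hB, hgood⟩ := hG
  have hloc := hB.2.1
  obtain ⟨ρ, hρ, hρr, hρu⟩ := hB.2.2.2.1
  obtain ⟨M, e0, hc0⟩ := exists_chart (hloc ρ hρ).1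
  have hreach : ∀ p, Pt G p → Reach G ρ p := by
    intro p hp
    have h := reach_root hG' hp hρu
    have hs : ∀ a b, Reach G a b → Reach G b a := by
      intro a b hab
      induction hab with
      | refl => exact Relation.ReflTransGen.refl
      | tail _ h2 ih => exact Relation.ReflTransGen.head ⟨h2.2.1, h2.1, hB.1 _ _ h2.2.2⟩ ih
    exact hs _ _ h
  have hex : ∀ p, ∃ e' : Fin M → G.V, Pt G p → (Chart G p M e' ∧ adjD G p e' = adjD G ρ e0) := by
    intro p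
    by_cases hp : Pt G p
    · obtain ⟨e', h⟩ := reach_chart hB hρ (hreach p hp) hc0
      exact ⟨e', fun _ => h⟩
    · exact ⟨fun _ => p, fun h => absurd h hp⟩
  choose e he using hex
  have hchart : ∀ p, Pt G p → Chart G p M (e p) := fun p hp => (he p hp).1
  set Adj := adjD G ρ e0 with hAdj
  have hadj : ∀ p, Pt G p → adjD G p (e p) = Adj := fun p hp => (he p hp).2
  have hgoodA : Good M Adj := by
    have := (goodRaw_iff (hloc ρ hρ).1 (hchart ρ hρ)).1 (hgood ρ hρ)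
    rwa [hadj ρ hρ] at this
  have hname : ∀ p y a, Pt G p → Pt G y → Cl G p y → (IsName G p y a ↔ nm1 G (e p) a = nmP G (e y)) :=
    fun p y a hp hy hcl => isName_iff hB hp hy hcl (hchart p hp) (hchart y hy)
  have hroot : nmP G (e ρ) = ∅ := (isRoot_iff (hchart ρ hρ)).1 hρr
  -- covering facts
  have cov1 : ∀ p, Pt G p → ∀ p', Pt G p' → G.E p p' → Adj (nmP G (e p)) (nmP G (e p')) := by
    intro p hp p' hp' hE
    obtain ⟨a, ha, ha1, -⟩ := surjN (hloc p hp).1 (hchart p hp) (nmP G (e p)) ∅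
    obtain ⟨b, hb, hb1, -⟩ := surjN (hloc p hp).1 (hchart p hp) (nmP G (e p')) ∅
    have := (hB.2.2.1 p hp p' hp' hE).1.2.2.2 a ha b hb ((hname p p a hp hp (Or.inl rfl)).2 ha1)
      ((hname p p' b hp hp' (Or.inr ⟨hp', hE⟩)).2 hb1)
    rw [adjR_iff (hchart p hp), hadj p hp, ha1, hb1] at this
    exact this
  have cov2 : ∀ p, Pt G p → ∀ β, Adj (nmP G (e p)) β → ∃ p', Pt G p' ∧ G.E p p' ∧ nmP G (e p') = β := by
    intro p hp β hβ
    obtain ⟨a, ha, ha1, -⟩ := surjN (hloc p hp).1 (hchart p hp) (nmP G (e p)) ∅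
    obtain ⟨b, hb, hb1, -⟩ := surjN (hloc p hp).1 (hchart p hp) β ∅
    obtain ⟨p', hp', hE, hn⟩ := (hloc p hp).2.1 a ha b hb ((hname p p a hp hp (Or.inl rfl)).2 ha1)
      ((adjR_iff (hchart p hp)).2 (by rw [hadj p hp, ha1, hb1]; exact hβ))
    refine ⟨p', hp', hE, ?_⟩
    rw [← (hname p p' b hp hp' (Or.inr ⟨hp', hE⟩)).1 hn, hb1]
  have cov3 : ∀ p, Pt G p → ∀ p', Pt G p' → ∀ p'', Pt G p'' → G.E p p' → G.E p p'' →
      nmP G (e p') = nmP G (e p'') → p' = p'' := by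
    intro p hp p' hp' p'' hp'' h1 h2 hn
    refine (hloc p hp).2.2.1 p' hp' h1 p'' hp'' h2 ?_
    rw [(hchart p hp).forall_num]
    intro k
    rw [bit_iff hB hp hp' (Or.inr ⟨hp', h1⟩) (hchart p hp) (hchart p' hp'),
      bit_iff hB hp hp'' (Or.inr ⟨hp'', h2⟩) (hchart p hp) (hchart p'' hp''), hn]
  have hsurj : ∀ α, ∃ p, Pt G p ∧ nmP G (e p) = α := by
    apply hgoodA.2.1 (fun α => ∃ p, Pt G p ∧ nmP G (e p) = α)
    · exact ⟨_, ρ, hρ, rfl⟩
    · rintro α β ⟨p, hp, rfl⟩ h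
      obtain ⟨p', hp', -, hn⟩ := cov2 p hp β h
      exact ⟨p', hp', hn⟩
  have hinj : ∀ α, ∀ p p', Pt G p → Pt G p' → nmP G (e p) = α → nmP G (e p') = α → p = p' := by
    apply hgoodA.2.1 (fun α => ∀ p p', Pt G p → Pt G p' → nmP G (e p) = α → nmP G (e p') = α → p = p')
    · refine ⟨∅, fun p p' hp hp' h1 h2 => ?_⟩
      rw [hρu p hp ((isRoot_iff (hchart p hp)).2 h1), hρu p' hp' ((isRoot_iff (hchart p' hp')).2 h2)]
    · intro α β hα hαβ p p' hp hp' h1 h2
      obtain ⟨q, hq, hE, hqn⟩ := cov2 p hp α (by rw [h1]; exact hgoodA.1 _ _ hαβ)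
      obtain ⟨q', hq', hE', hqn'⟩ := cov2 p' hp' α (by rw [h2]; exact hgoodA.1 _ _ hαβ)
      have := hα q q' hq hq' hqn hqn'
      subst this
      exact cov3 q hq p hp p' hp' (hB.1 _ _ hE) (hB.1 _ _ hE') (by rw [h1, h2])
  choose pt hpt hptn using hsurj
  refine ⟨M, e, Adj, pt, ⟨hchart, hadj, hpt, hptn, ?_, ?_, hname, hgoodA⟩⟩
  · intro p hp
    exact hinj _ _ _ (hpt _) hp (hptn _) rfl
  · intro α β
    constructor
    · intro h
      have := cov1 _ (hpt α) _ (hpt β) h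
      rwa [hptn, hptn] at this
    · intro h
      obtain ⟨p', hp', hE, hn⟩ := cov2 (pt α) (hpt α) β (by rw [hptn]; exact h)
      have := hinj β p' (pt β) hp' (hpt β) hn (hptn β)
      rwa [← this]

end Pool.Agent.H266_hanf
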