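import Pool.Agent.H266_hanf.FOc

/-! The first-order vocabulary of the construction: points, lifts, numbers, codes of pairs of names, codes of
relations on names; the guard and the order-dependent sentence, written semantically, with proofs that they are
first-order definable. Colours: 0 points, 1 lifts, 2 numbers, 3 second copies of numbers, 4 codes of pairs of
names, 5 codes of relations on names, 6 the digit one, 7 the map. -/

namespace Pool.Agent.H266_hanf

section defs

variable (G : ColGraph 8)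

def Pt (p : G.V) : Prop := G.C 0 p
def Lift (p q : G.V) : Prop := G.C 1 q ∧ G.E q p
def Num (p i : G.V) : Prop := G.C 2 i ∧ G.E i p
def Num' (p i : G.V) : Prop := G.C 3 i ∧ G.E i p
def Nam (p a : G.V) : Prop := G.C 4 a ∧ G.E a p
def Rel (p w : G.V) : Prop := G.C 5 w ∧ G.E w p
def One (i : G.V) : Prop := G.C 6 i
def IsMap (w : G.V) : Prop := G.C 7 w

/-- the order of the numbers at `p` -/
def Le (p i j : G.V) : Prop := ∀ k, Num' G p k → G.E j k → G.E i k
/-- `k` is the second copy of the number `i` -/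
def Tw (p i k : G.V) : Prop := Num' G p k ∧ G.E i k ∧ ∀ j, Num G p j → G.E j k → Le G p j i
/-- the number `i` lies in the second coordinate of the pair coded by `a` -/
def Mem2 (p a i : G.V) : Prop := ∃ k, Tw G p i k ∧ G.E a k
/-- equal first coordinates -/
def Same1 (p a b : G.V) : Prop := ∀ i, Num G p i → (G.E a i ↔ G.E b i)
/-- second coordinate of `c` = first coordinate of `b` -/
def Same21 (p c b : G.V) : Prop := ∀ i, Num G p i → (Mem2 G p c i ↔ G.E b i)
/-- the relation coded by `w` holds for the names (first coordinates) of `a`, `b` -/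
def App (p w a b : G.V) : Prop := ∃ c, Nam G p c ∧ G.E w c ∧ Same1 G p c a ∧ Same21 G p c b
/-- the map of the point graph, as coded at `p` -/
def AdjR (p a b : G.V) : Prop := ∃ w, Rel G p w ∧ IsMap G w ∧ App G p w a b
/-- the digit `i` of the name of `y`, seen from `p` (where `y = p` or `y` is a neighbour of `p`) -/
def Bit (p y i : G.V) : Prop :=
  ∃ i', Num G y i' ∧ ((y = p ∧ i' = i) ∨ (Pt G y ∧ G.E p y ∧ G.E i i')) ∧ One G i'
/-- the first coordinate of `a` is the name of `y`, seen from `p` -/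
def IsName (p y a : G.V) : Prop := ∀ i, Num G p i → (G.E a i ↔ Bit G p y i)
/-- closed neighbourhood in the point graph -/
def Cl (p y : G.V) : Prop := y = p ∨ (Pt G y ∧ G.E p y)

/-- the number `i` is a mark of the name `b` in the relation coded by `R` -/
def MarkC (p R b i : G.V) : Prop := ∃ c, Nam G p c ∧ G.E R c ∧ Same1 G p c b ∧ Mem2 G p c i

def CocRaw (p e : G.V) : Prop :=
  (∀ a, Nam G p a → ∀ b, Nam G p b → AdjR G p a b → (App G p e a b ↔ App G p e b a)) ∧
  (∀ a, Nam G p a → ∀ b, Nam G p b → ∀ c, Nam G p c → AdjR G p a b → AdjR G p b c → AdjR G p c a →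
    (App G p e a b ↔ (App G p e b c ↔ App G p e c a))) ∧
  (∀ a, Nam G p a → ∀ b, Nam G p b → ∀ c, Nam G p c → ∀ d, Nam G p d →
    AdjR G p a b → AdjR G p b c → AdjR G p c d → AdjR G p d a →
    (App G p e a b ↔ (App G p e b c ↔ (App G p e c d ↔ App G p e d a))))

def TrivRaw (p e o : G.V) : Prop :=
  ∃ u, Rel G p u ∧ ∀ a, Nam G p a → ∀ b, Nam G p b → App G p o a a → App G p o b b → AdjR G p a b →
    (App G p e a b ↔ (App G p u a a ↔ App G p u b b))

def TrivRaw' (p e : G.V) : Prop :=
  ∃ u, Rel G p u ∧ ∀ a, Nam G p a → ∀ b, Nam G p b → AdjR G p a b →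
    (App G p e a b ↔ (App G p u a a ↔ App G p u b b))

def RobustRaw (p o : G.V) : Prop := ∀ e, Rel G p e → CocRaw G p e → TrivRaw G p e o → TrivRaw' G p e

def SLORaw (p t : G.V) : Prop :=
  (∀ a, Nam G p a → ¬ App G p t a a) ∧
  (∀ a, Nam G p a → ∀ b, Nam G p b → ∀ c, Nam G p c → App G p t a b → App G p t b c → App G p t a c) ∧
  (∀ a, Nam G p a → ∀ b, Nam G p b → App G p t a b ∨ Same1 G p a b ∨ App G p t b a)

def RhoRaw (p t a0 a R0 R i j : G.V) : Prop :=
  ∃ b, Nam G p b ∧ ∃ b', Nam G p b' ∧ (Same1 G p b a0 ∨ AdjR G p a0 b) ∧ (Same1 G p b' a ∨ AdjR G p a b') ∧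
    App G p t b b' ∧ MarkC G p R0 b i ∧ MarkC G p R b' j

def CompRaw (p t a0 a : G.V) : Prop :=
  ∃ R0, Rel G p R0 ∧ ∃ R, Rel G p R ∧ ∀ i, Num G p i → ∀ j, Num G p j →
    (RhoRaw G p t a0 a R0 R i j ↔ Le G p i j)

def GoodRaw (p : G.V) : Prop :=
  (∀ a, Nam G p a → ∀ b, Nam G p b → AdjR G p a b → AdjR G p b a) ∧
  (∀ w, Rel G p w → (∃ a, Nam G p a ∧ App G p w a a) →
    (∀ a, Nam G p a → ∀ b, Nam G p b → App G p w a a → AdjR G p a b → App G p w b b) →
    ∀ a, Nam G p a → App G p w a a) ∧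
  (∀ t, Rel G p t → SLORaw G p t → ∃ a0, Nam G p a0 ∧ ∃ o, Rel G p o ∧ RobustRaw G p o ∧
    ∀ a, Nam G p a → App G p o a a → CompRaw G p t a0 a)

/-- the local conditions at the point `p` that make the codes complete -/
def LocFull (p : G.V) : Prop :=
  (∀ i, Num G p i → ∀ j, Num G p j → Le G p i j ∨ Le G p j i) ∧
  (∀ i, Num G p i → ∀ j, Num G p j → Le G p i j → Le G p j i → i = j) ∧
  (∃ a, Nam G p a ∧ ∀ i, Num G p i → ¬ G.E a i ∧ ¬ Mem2 G p a i) ∧
  (∀ a, Nam G p a → ∀ j, Num G p j → ∃ a', Nam G p a' ∧ ∀ i, Num G p i →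
    (G.E a' i ↔ (G.E a i ∨ i = j)) ∧ (Mem2 G p a' i ↔ Mem2 G p a i)) ∧
  (∀ a, Nam G p a → ∀ j, Num G p j → ∃ a', Nam G p a' ∧ ∀ i, Num G p i →
    (G.E a' i ↔ G.E a i) ∧ (Mem2 G p a' i ↔ (Mem2 G p a i ∨ i = j))) ∧
  (∃ w, Rel G p w ∧ ∀ a, Nam G p a → ¬ G.E w a) ∧
  (∀ w, Rel G p w → ∀ a, Nam G p a → ∃ w', Rel G p w' ∧ ∀ c, Nam G p c → (G.E w' c ↔ (G.E w c ∨ c = a)))

/-- the conditions relating the adjacent points `p`, `p'` -/
def Trans (p p' : G.V) : Prop :=
  (∀ i, Num G p i → ∃ i', Num G p' i' ∧ G.E i i') ∧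
  (∀ i, Num G p i → ∀ j, Num G p j → ∀ i', Num G p' i' → ∀ j', Num G p' j' → G.E i i' → G.E j j' →
    Le G p i j → Le G p' i' j') ∧
  (∀ a, Nam G p a → ∀ b, Nam G p b → ∀ a', Nam G p' a' → ∀ b', Nam G p' b' →
    (∀ i, Num G p i → ∀ i', Num G p' i' → G.E i i' → ((G.E a i ↔ G.E a' i') ∧ (G.E b i ↔ G.E b' i'))) →
    AdjR G p a b → AdjR G p' a' b') ∧
  (∀ a, Nam G p a → ∀ b, Nam G p b → IsName G p p a → IsName G p p' b → AdjR G p a b)

/-- no digit of the name of `p` is one -/
def IsRoot (p : G.V) : Prop := ∀ i, Num G p i → ¬ One G i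

/-- covering and lift conditions at `p` -/
def Cov (p : G.V) : Prop :=
  (∀ a, Nam G p a → ∀ b, Nam G p b → IsName G p p a → AdjR G p a b →
    ∃ p', Pt G p' ∧ G.E p p' ∧ IsName G p p' b) ∧
  (∀ p', Pt G p' → G.E p p' → ∀ p'', Pt G p'' → G.E p p'' →
    (∀ i, Num G p i → (Bit G p p' i ↔ Bit G p p'' i)) → p' = p'') ∧
  (∃ q, Lift G p q ∧ ∃ q', Lift G p q' ∧ q ≠ q' ∧ ∀ q'', Lift G p q'' → q'' = q ∨ q'' = q')

/-- matching of the lifts of adjacent points -/
def Mtch (p p' : G.V) : Prop :=
  (∀ q, Lift G p q → ∃ q', Lift G p' q' ∧ G.E q q') ∧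
  (∀ q, Lift G p q → ∀ q', Lift G p' q' → ∀ q'', Lift G p' q'' → G.E q q' → G.E q q'' → q' = q'')

/-- everything in the guard except `GoodRaw` -/
def Basic : Prop :=
  (∀ x y, G.E x y → G.E y x) ∧
  (∀ p, Pt G p → LocFull G p ∧ Cov G p) ∧
  (∀ p, Pt G p → ∀ p', Pt G p' → G.E p p' → Trans G p p' ∧ Mtch G p p') ∧
  (∃ p, Pt G p ∧ IsRoot G p ∧ ∀ p', Pt G p' → IsRoot G p' → p' = p) ∧
  (∀ p1, Pt G p1 → ∀ p2, Pt G p2 → ∀ p3, Pt G p3 → G.E p1 p2 → G.E p2 p3 → G.E p3 p1 →
    ∀ q1, Lift G p1 q1 → ∀ q2, Lift G p2 q2 → ∀ q3, Lift G p3 q3 → ∀ q4, Lift G p1 q4 →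
    G.E q1 q2 → G.E q2 q3 → G.E q3 q4 → q4 = q1) ∧
  (∀ p1, Pt G p1 → ∀ p2, Pt G p2 → ∀ p3, Pt G p3 → ∀ p4, Pt G p4 →
    G.E p1 p2 → G.E p2 p3 → G.E p3 p4 → G.E p4 p1 →
    ∀ q1, Lift G p1 q1 → ∀ q2, Lift G p2 q2 → ∀ q3, Lift G p3 q3 → ∀ q4, Lift G p4 q4 → ∀ q5, Lift G p1 q5 →
    G.E q1 q2 → G.E q2 q3 → G.E q3 q4 → G.E q4 q5 → q5 = q1)

def Guard : Prop := Basic G ∧ ∀ p, Pt G p → GoodRaw G p

variable (r : G.V → G.V → Prop)

/-- the number `i` is a mark of the point `y` (near `p`) in the relation coded by `w` at `p` -/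
def Mark (p w y i : G.V) : Prop := ∃ c, Nam G p c ∧ G.E w c ∧ IsName G p y c ∧ Mem2 G p c i

def RhoR (p0 p w0 w i j : G.V) : Prop :=
  ∃ y, Cl G p0 y ∧ ∃ y', Cl G p y' ∧ r y y' ∧ Mark G p0 w0 y i ∧ Mark G p w y' j

def Mt (p0 p w0 w i j : G.V) : Prop := ∀ k, Num G p k → (RhoR G r p0 p w0 w i k ↔ Le G p j k)

def RComp (p0 p a : G.V) : Prop :=
  ∃ w0, Rel G p0 w0 ∧ ∃ w, Rel G p w ∧
    (∀ i, Num G p0 i → ∃ j, Num G p j ∧ Mt G r p0 p w0 w i j) ∧
    (∀ j, Num G p j → ∃ i, Num G p0 i ∧ Mt G r p0 p w0 w i j) ∧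
    (∀ i, Num G p0 i → ∀ i', Num G p0 i' → ∀ j, Num G p j → ∀ j', Num G p j' →
      Le G p0 i i' → Mt G r p0 p w0 w i j → Mt G r p0 p w0 w i' j' → Le G p j j') ∧
    (∀ i, Num G p0 i → ∀ j, Num G p j → Mt G r p0 p w0 w i j → (G.E a i ↔ One G j))

def MinL (p q : G.V) : Prop := ∀ q', Lift G p q' → ¬ r q' q

def Phi0 : Prop :=
  ∃ p0, Pt G p0 ∧ ∃ o, Rel G p0 o ∧ ∃ u, Rel G p0 u ∧ RobustRaw G p0 o ∧
    (∀ a, Nam G p0 a → App G p0 o a a → ∃ p, Pt G p ∧ RComp G r p0 p a) ∧
    (∀ p, Pt G p → ∀ p', Pt G p' → G.E p p' → ∀ a, Nam G p0 a → ∀ a', Nam G p0 a' →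
      App G p0 o a a → App G p0 o a' a' → RComp G r p0 p a → RComp G r p0 p' a' →
      ∀ q, Lift G p q → ∀ q', Lift G p' q' → G.E q q' →
      ((MinL G r p q ↔ App G p0 u a a) ↔ (MinL G r p' q' ↔ App G p0 u a' a')))

end defs

namespace FO

variable {n : ℕ}

theorem pt (i : Fin n) : FO n (fun (G : ColGraph 8) _ v => Pt G (v i)) := colour _ _
theorem lift (i j : Fin n) : FO n (fun (G : ColGraph 8) _ v => Lift G (v i) (v j)) :=
  and (colour _ _) (edge _ _)
theorem num (i j : Fin n) : FO n (fun (G : ColGraph 8) _ v => Num G (v i) (v j)) :=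
  and (colour _ _) (edge _ _)
theorem num' (i j : Fin n) : FO n (fun (G : ColGraph 8) _ v => Num' G (v i) (v j)) :=
  and (colour _ _) (edge _ _)
theorem nam (i j : Fin n) : FO n (fun (G : ColGraph 8) _ v => Nam G (v i) (v j)) :=
  and (colour _ _) (edge _ _)
theorem rel (i j : Fin n) : FO n (fun (G : ColGraph 8) _ v => Rel G (v i) (v j)) :=
  and (colour _ _) (edge _ _)
theorem one (i : Fin n) : FO n (fun (G : ColGraph 8) _ v => One G (v i)) := colour _ _
theorem isMap (i : Fin n) : FO n (fun (G : ColGraph 8) _ v => IsMap G (v i)) := colour _ _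

theorem le (p i j : Fin n) : FO n (fun (G : ColGraph 8) _ v => Le G (v p) (v i) (v j)) := by
  unfold Le
  repeat' first | exact num' _ _ | exact edge _ _ | apply all | apply imp
theorem tw (p i k : Fin n) : FO n (fun (G : ColGraph 8) _ v => Tw G (v p) (v i) (v k)) := by
  unfold Tw
  repeat' first | exact num' _ _ | exact num _ _ | exact le _ _ _ | exact edge _ _ | apply and | apply all | apply imp
theorem mem2 (p a i : Fin n) : FO n (fun (G : ColGraph 8) _ v => Mem2 G (v p) (v a) (v i)) := by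
  unfold Mem2
  repeat' first | exact tw _ _ _ | exact edge _ _ | apply ex | apply and
theorem same1 (p a b : Fin n) : FO n (fun (G : ColGraph 8) _ v => Same1 G (v p) (v a) (v b)) := by
  unfold Same1
  repeat' first | exact num _ _ | exact edge _ _ | apply all | apply iff | apply imp
theorem same21 (p a b : Fin n) : FO n (fun (G : ColGraph 8) _ v => Same21 G (v p) (v a) (v b)) := by
  unfold Same21
  repeat' first | exact num _ _ | exact edge _ _ | exact mem2 _ _ _ | apply all | apply iff | apply imp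
theorem app (p w a b : Fin n) : FO n (fun (G : ColGraph 8) _ v => App G (v p) (v w) (v a) (v b)) := by
  unfold App
  repeat' first | exact nam _ _ | exact edge _ _ | exact same1 _ _ _ | exact same21 _ _ _ | apply ex | apply and
theorem adjR (p a b : Fin n) : FO n (fun (G : ColGraph 8) _ v => AdjR G (v p) (v a) (v b)) := by
  unfold AdjR
  repeat' first | exact rel _ _ | exact isMap _ | exact app _ _ _ _ | apply ex | apply and
theorem bit (p a b : Fin n) : FO n (fun (G : ColGraph 8) _ v => Bit G (v p) (v a) (v b)) := by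
  unfold Bit
  repeat' first | exact num _ _ | exact pt _ | exact one _ | exact FO.eq _ _ | exact edge _ _ | apply ex | apply and | apply or
theorem isName (p a b : Fin n) : FO n (fun (G : ColGraph 8) _ v => IsName G (v p) (v a) (v b)) := by
  unfold IsName
  repeat' first | exact num _ _ | exact edge _ _ | exact bit _ _ _ | apply all | apply iff | apply imp
theorem cl (p y : Fin n) : FO n (fun (G : ColGraph 8) _ v => Cl G (v p) (v y)) := by
  unfold Cl
  repeat' first | exact pt _ | exact FO.eq _ _ | exact edge _ _ | apply or | apply and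
theorem markC (p R b i : Fin n) : FO n (fun (G : ColGraph 8) _ v => MarkC G (v p) (v R) (v b) (v i)) := by
  unfold MarkC
  repeat' first | exact nam _ _ | exact edge _ _ | exact same1 _ _ _ | exact mem2 _ _ _ | apply ex | apply and
theorem cocRaw (p e : Fin n) : FO n (fun (G : ColGraph 8) _ v => CocRaw G (v p) (v e)) := by
  unfold CocRaw
  repeat' first | exact nam _ _ | exact app _ _ _ _ | exact adjR _ _ _ | apply all | apply and | apply iff | apply imp
theorem trivRaw (p e o : Fin n) : FO n (fun (G : ColGraph 8) _ v => TrivRaw G (v p) (v e) (v o)) := by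
  unfold TrivRaw
  repeat' first | exact nam _ _ | exact rel _ _ | exact app _ _ _ _ | exact adjR _ _ _ | apply ex | apply all | apply and | apply iff | apply imp
theorem trivRaw' (p e : Fin n) : FO n (fun (G : ColGraph 8) _ v => TrivRaw' G (v p) (v e)) := by
  unfold TrivRaw'
  repeat' first | exact nam _ _ | exact rel _ _ | exact app _ _ _ _ | exact adjR _ _ _ | apply ex | apply all | apply and | apply iff | apply imp
theorem robustRaw (p o : Fin n) : FO n (fun (G : ColGraph 8) _ v => RobustRaw G (v p) (v o)) := by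
  unfold RobustRaw
  repeat' first | exact rel _ _ | exact cocRaw _ _ | exact trivRaw _ _ _ | exact trivRaw' _ _ | apply all | apply imp
theorem sloRaw (p t : Fin n) : FO n (fun (G : ColGraph 8) _ v => SLORaw G (v p) (v t)) := by
  unfold SLORaw
  repeat' first | exact nam _ _ | exact app _ _ _ _ | exact same1 _ _ _ | apply all | apply and | apply or | apply not | apply imp
theorem rhoRaw (p t a0 a R0 R i j : Fin n) : FO n (fun (G : ColGraph 8) _ v =>
    RhoRaw G (v p) (v t) (v a0) (v a) (v R0) (v R) (v i) (v j)) := by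
  unfold RhoRaw
  repeat' first | exact nam _ _ | exact app _ _ _ _ | exact same1 _ _ _ | exact adjR _ _ _ | exact markC _ _ _ _ | apply ex | apply and | apply or
theorem compRaw (p t a0 a : Fin n) : FO n (fun (G : ColGraph 8) _ v =>
    CompRaw G (v p) (v t) (v a0) (v a)) := by
  unfold CompRaw
  repeat' first | exact num _ _ | exact rel _ _ | exact le _ _ _ | exact rhoRaw _ _ _ _ _ _ _ _ | apply ex | apply all | apply and | apply iff | apply imp
theorem goodRaw (p : Fin n) : FO n (fun (G : ColGraph 8) _ v => GoodRaw G (v p)) := by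
  unfold GoodRaw
  repeat' first | exact nam _ _ | exact rel _ _ | exact app _ _ _ _ | exact adjR _ _ _ | exact sloRaw _ _ | exact robustRaw _ _ | exact compRaw _ _ _ _ | apply ex | apply all | apply and | apply iff | apply imp
theorem locFull (p : Fin n) : FO n (fun (G : ColGraph 8) _ v => LocFull G (v p)) := by
  unfold LocFull
  repeat' first | exact num _ _ | exact nam _ _ | exact rel _ _ | exact le _ _ _ | exact mem2 _ _ _ | exact FO.eq _ _ | exact edge _ _ | apply ex | apply all | apply and | apply or | apply iff | apply not | apply imp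
theorem trans (p p' : Fin n) : FO n (fun (G : ColGraph 8) _ v => Trans G (v p) (v p')) := by
  unfold Trans
  repeat' first | exact num _ _ | exact nam _ _ | exact le _ _ _ | exact adjR _ _ _ | exact isName _ _ _ | exact edge _ _ | apply ex | apply all | apply and | apply or | apply iff | apply imp
theorem isRoot (p : Fin n) : FO n (fun (G : ColGraph 8) _ v => IsRoot G (v p)) := by
  unfold IsRoot
  repeat' first | exact num _ _ | exact one _ | apply all | apply not | apply imp
theorem cov (p : Fin n) : FO n (fun (G : ColGraph 8) _ v => Cov G (v p)) := by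
  unfold Cov
  repeat' first | exact num _ _ | exact pt _ | exact nam _ _ | exact lift _ _ | exact adjR _ _ _ | exact isName _ _ _ | exact bit _ _ _ | exact FO.eq _ _ | exact edge _ _ | apply ex | apply all | apply and | apply or | apply iff | apply not | apply imp
theorem mtch (p p' : Fin n) : FO n (fun (G : ColGraph 8) _ v => Mtch G (v p) (v p')) := by
  unfold Mtch
  repeat' first | exact lift _ _ | exact FO.eq _ _ | exact edge _ _ | apply ex | apply all | apply and | apply imp
theorem basic : FO n (fun (G : ColGraph 8) _ _ => Basic G) := by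
  unfold Basic
  repeat' first | exact pt _ | exact lift _ _ | exact locFull _ | exact cov _ | exact trans _ _ | exact mtch _ _ | exact isRoot _ | exact FO.eq _ _ | exact edge _ _ | apply ex | apply all | apply and | apply imp
theorem guard : FO n (fun (G : ColGraph 8) _ _ => Guard G) := by
  unfold Guard
  refine and basic ?_
  repeat' first | exact pt _ | exact goodRaw _ | apply all | apply imp
theorem mark (p w y i : Fin n) : FO n (fun (G : ColGraph 8) _ v => Mark G (v p) (v w) (v y) (v i)) := by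
  unfold Mark
  repeat' first | exact nam _ _ | exact edge _ _ | exact isName _ _ _ | exact mem2 _ _ _ | apply ex | apply and
theorem rhoR (p0 p w0 w i j : Fin n) : FO n (fun (G : ColGraph 8) r v =>
    RhoR G r (v p0) (v p) (v w0) (v w) (v i) (v j)) := by
  unfold RhoR
  repeat' first | exact cl _ _ | exact mark _ _ _ _ | exact less _ _ | apply ex | apply and
theorem mt (p0 p w0 w i j : Fin n) : FO n (fun (G : ColGraph 8) r v =>
    Mt G r (v p0) (v p) (v w0) (v w) (v i) (v j)) := by
  unfold Mt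
  repeat' first | exact num _ _ | exact rhoR _ _ _ _ _ _ | exact le _ _ _ | apply all | apply iff | apply imp
theorem rcomp (p0 p a : Fin n) : FO n (fun (G : ColGraph 8) r v => RComp G r (v p0) (v p) (v a)) := by
  unfold RComp
  repeat' first | exact num _ _ | exact rel _ _ | exact mt _ _ _ _ _ _ | exact le _ _ _ | exact one _ | exact edge _ _ | apply ex | apply all | apply and | apply iff | apply imp
theorem minL (p q : Fin n) : FO n (fun (G : ColGraph 8) r v => MinL G r (v p) (v q)) := by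
  unfold MinL
  repeat' first | exact lift _ _ | exact less _ _ | apply all | apply not | apply imp
theorem phi0 : FO n (fun (G : ColGraph 8) r _ => Phi0 G r) := by
  unfold Phi0
  repeat' first | exact pt _ | exact nam _ _ | exact rel _ _ | exact lift _ _ | exact app _ _ _ _ | exact robustRaw _ _ | exact rcomp _ _ _ | exact minL _ _ | exact edge _ _ | apply ex | apply all | apply and | apply iff | apply imp

end FO

/-- the sentence of the construction -/
theorem exists_sentence : ∃ φ : (OGLang 8).Sentence, ∀ (G : ColGraph 8) (r : G.V → G.V → Prop),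
    Models G r φ ↔ (Guard G ∧ Phi0 G r) :=
  FO.sentence (FO.and FO.guard FO.phi0)

end Pool.Agent.H266_hanf
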