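import Mathlib

/-! Pure combinatorial part of the disproof of Hanf locality of order-invariant first-order logic
(MP_6f75b7_lc): definitions. Signs are truth values, the product of signs is the biconditional. -/

namespace Pool.Agent.H266_hanf

/-- `t` is a strict linear order. -/
def SLO {X : Type*} (t : X → X → Prop) : Prop :=
  (∀ a, ¬ t a a) ∧ (∀ a b c, t a b → t b c → t a c) ∧ (∀ a b, t a b ∨ a = b ∨ t b a)

/-- a sign-valued cocycle on the graph `Adj`: symmetric, and of product one on closed walks of length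
three and four. -/
def Cocycle {X : Type*} (Adj e : X → X → Prop) : Prop :=
  (∀ a b, Adj a b → (e a b ↔ e b a)) ∧
  (∀ a b c, Adj a b → Adj b c → Adj c a → (e a b ↔ (e b c ↔ e c a))) ∧
  (∀ a b c d, Adj a b → Adj b c → Adj c d → Adj d a → (e a b ↔ (e b c ↔ (e c d ↔ e d a))))

/-- the cocycle `e` is trivial on the set `O`. -/
def TrivOn {X : Type*} (Adj e : X → X → Prop) (O : X → Prop) : Prop :=
  ∃ u : X → Prop, ∀ a b, O a → O b → Adj a b → (e a b ↔ (u a ↔ u b))

/-- every cocycle that is trivial on `O` is trivial. -/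
def Robust {X : Type*} (Adj : X → X → Prop) (O : X → Prop) : Prop :=
  ∀ e : X → X → Prop, Cocycle Adj e → TrivOn Adj e O → TrivOn Adj e (fun _ => True)

/-- the ball of radius `n` about `x`. -/
def ball {X : Type*} (Adj : X → X → Prop) (x : X) : ℕ → X → Prop
  | 0, y => y = x
  | (n + 1), y => ∃ z, ball Adj x n z ∧ (y = z ∨ Adj z y)

/-- the closed neighbourhoods of `a0` and `a` interleave `K` times with respect to `t`. -/
def CompF {X : Type*} (K : ℕ) (Adj t : X → X → Prop) (a0 a : X) : Prop :=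
  ∃ r0 r : Fin K → X, (∀ i, r0 i = a0 ∨ Adj a0 (r0 i)) ∧ (∀ i, r i = a ∨ Adj a (r i)) ∧
    ∀ i j, t (r0 i) (r j) ↔ i ≤ j

/-- matrices of rank at most one -/
def R1 {F : Type*} [Field F] {m : ℕ} (x : Matrix (Fin m) (Fin m) F) : Prop :=
  ∃ u v : Fin m → F, x = Matrix.vecMulVec u v

/-- the conclusion of the pure part: the family of base graphs with their twisted cocycles. -/
def Family (d : ℕ) : Prop :=
  ∃ (M : ℕ) (X : Type) (_ : Fintype X) (Adj s : X → X → Prop),
    Fintype.card X = 2 ^ M ∧ (∀ a b, Adj a b → Adj b a) ∧ (∀ a, ¬ Adj a a) ∧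
    (∀ R : X → Prop, (∃ a, R a) → (∀ a b, R a → Adj a b → R b) → ∀ a, R a) ∧
    (∀ t : X → X → Prop, SLO t → ∃ a0, ∃ O : X → Prop, Robust Adj O ∧ ∀ a, O a → CompF M Adj t a0 a) ∧
    Cocycle Adj s ∧ ¬ TrivOn Adj s (fun _ => True) ∧
    ∀ x, ∃ τ : X → Prop, τ x ∧ ∀ y y', ball Adj x d y → ball Adj x d y' → Adj y y' →
      (s y y' ↔ (τ y ↔ τ y'))

end Pool.Agent.H266_hanf
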